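import Mathlib

/-! # Basic definitions: translates, finite functions -/

namespace Pool.Agent.Helper33.Lap

section left
variable {G : Type} [Group G] [TopologicalSpace G] [IsTopologicalGroup G]

/-- left translation of a function -/
def ltrans (g : G) (f : C(G, ℝ)) : C(G, ℝ) := ⟨fun x => f (g⁻¹ * x), by fun_prop⟩

/-- the left translates of `f` span a finite dimensional space -/
def LeftFinite (f : C(G, ℝ)) : Prop :=
  ∃ V : Submodule ℝ C(G, ℝ), FiniteDimensional ℝ V ∧ f ∈ V ∧ ∀ g : G, ∀ v ∈ V, ltrans g v ∈ V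

end left

section act
variable {M : Type} [TopologicalSpace M] {G : Type} [Group G] [TopologicalSpace G]
  [MulAction G M] [ContinuousSMul G M]

/-- translate of a function on `M` -/
def mtrans (g : G) (u : C(M, ℝ)) : C(M, ℝ) := ⟨fun x => u (g⁻¹ • x), by fun_prop⟩

variable (G) in
/-- `G`-finite functions on `M` -/
def GFinite (u : C(M, ℝ)) : Prop :=
  ∃ V : Submodule ℝ C(M, ℝ), FiniteDimensional ℝ V ∧ u ∈ V ∧ ∀ g : G, ∀ v ∈ V, mtrans g v ∈ V

end act

end Pool.Agent.Helper33.Lap
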