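import Mathlib
import Pool.Agent.Helper33.Lap.Defs
import Pool.Agent.Helper33.Ret.Real

/-! # Graded subalgebras of the algebra of finite functions -/

open MeasureTheory Module

set_option linter.unusedSectionVars false
set_option linter.unusedVariables false

namespace Pool.Agent.Helper33.Lap

variable {M : Type} [MetricSpace M] [CompactSpace M] [Nonempty M] [MeasurableSpace M] [BorelSpace M]
variable {G : Type} [Group G] [TopologicalSpace G] [IsTopologicalGroup G]
  [MulAction G M] [ContinuousSMul G M]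

section proj
variable (μ : Measure M) [IsFiniteMeasure μ] [μ.IsOpenPosMeasure]

/-- the `L²` pairing -/
noncomputable def ip (u v : C(M, ℝ)) : ℝ := ∫ x, u x * v x ∂μ

variable {μ}

theorem ip_integrable (u v : C(M, ℝ)) : Integrable (fun x => u x * v x) μ :=
  (u * v : C(M, ℝ)).continuous.integrable_of_hasCompactSupport
    (HasCompactSupport.of_compactSpace _)

theorem ip_comm (u v : C(M, ℝ)) : ip μ u v = ip μ v u := by
  unfold ip; congr 1; ext x; ring

theorem ip_add_left (u v w : C(M, ℝ)) : ip μ (u + v) w = ip μ u w + ip μ v w := by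
  unfold ip
  rw [← integral_add (ip_integrable u w) (ip_integrable v w)]
  congr 1; ext x; simp [add_mul]

theorem ip_smul_left (c : ℝ) (u v : C(M, ℝ)) : ip μ (c • u) v = c * ip μ u v := by
  unfold ip
  rw [← integral_const_mul]
  congr 1; ext x; simp [mul_assoc]

theorem ip_sub_left (u v w : C(M, ℝ)) : ip μ (u - v) w = ip μ u w - ip μ v w := by
  have := ip_add_left (μ := μ) (u - v) v w
  rw [sub_add_cancel] at this
  linarith

theorem ip_zero_left (v : C(M, ℝ)) : ip μ 0 v = 0 := by simp [ip]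

theorem ip_mul (a u v : C(M, ℝ)) : ip μ (a * u) v = ip μ u (a * v) := by
  unfold ip; congr 1; ext x; simp; ring

theorem ip_self_eq_zero (u : C(M, ℝ)) (h : ip μ u u = 0) : u = 0 := by
  unfold ip at h
  have h1 : (fun x => u x * u x) =ᵐ[μ] 0 :=
    (integral_eq_zero_iff_of_nonneg (fun x => mul_self_nonneg _) (ip_integrable u u)).mp h
  have h2 : (fun x => u x * u x) = fun _ => (0 : ℝ) :=
    Continuous.ae_eq_iff_eq μ (by fun_prop) continuous_const |>.mp h1
  ext x
  have := congrFun h2 x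
  simpa using this

theorem ip_self_nonneg (u : C(M, ℝ)) : 0 ≤ ip μ u u :=
  integral_nonneg (fun x => mul_self_nonneg _)

variable (μ) in
/-- the `L²` pairing as a bilinear form -/
noncomputable def ipB : LinearMap.BilinForm ℝ C(M, ℝ) :=
  LinearMap.mk₂ ℝ (ip μ) ip_add_left ip_smul_left
    (fun u v w => by rw [ip_comm, ip_add_left, ip_comm v, ip_comm w])
    (fun c u v => by rw [ip_comm, ip_smul_left, ip_comm v]; rfl)

/-- orthogonal projection on a finite dimensional space -/
theorem exists_proj (V : Submodule ℝ C(M, ℝ)) [FiniteDimensional ℝ V] (f : C(M, ℝ)) :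
    ∃ p ∈ V, ∀ v ∈ V, ip μ (f - p) v = 0 := by
  -- the Gram map V → Dual V is injective, hence surjective
  let Φ : V →ₗ[ℝ] Module.Dual ℝ V :=
    (LinearMap.compl₁₂ (ipB μ) V.subtype V.subtype)
  have hinj : Function.Injective Φ := by
    rw [injective_iff_map_eq_zero]
    intro v hv
    have h1 : Φ v v = 0 := by rw [hv]; rfl
    exact Subtype.ext (ip_self_eq_zero (μ := μ) (v : C(M, ℝ)) h1)
  have hsurj : Function.Surjective Φ :=
    (LinearMap.injective_iff_surjective_of_finrank_eq_finrank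
      (Subspace.dual_finrank_eq (K := ℝ) (V := V)).symm).mp hinj
  obtain ⟨p, hp⟩ := hsurj ((ipB μ f).comp V.subtype)
  refine ⟨p, p.2, fun v hv => ?_⟩
  have h1 := LinearMap.congr_fun hp ⟨v, hv⟩
  have h2 : ip μ (p : C(M, ℝ)) v = ip μ f v := h1
  rw [ip_sub_left, h2, sub_self]

theorem proj_unique (V : Submodule ℝ C(M, ℝ)) (f p p' : C(M, ℝ)) (hp : p ∈ V) (hp' : p' ∈ V)
    (h : ∀ v ∈ V, ip μ (f - p) v = 0) (h' : ∀ v ∈ V, ip μ (f - p') v = 0) : p = p' := by
  have h1 : ip μ (p - p') (p - p') = 0 := by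
    have e : p - p' = (f - p') - (f - p) := by abel
    have h2 : ip μ ((f - p') - (f - p)) (p - p') = 0 := by
      rw [ip_sub_left, h _ (V.sub_mem hp hp'), h' _ (V.sub_mem hp hp'), sub_zero]
    rwa [← e] at h2
  exact sub_eq_zero.mp (ip_self_eq_zero _ h1)

variable (μ) in
/-- the orthogonal projection -/
noncomputable def proj (V : Submodule ℝ C(M, ℝ)) [FiniteDimensional ℝ V] :
    C(M, ℝ) →ₗ[ℝ] C(M, ℝ) where
  toFun f := (exists_proj (μ := μ) V f).choose
  map_add' f g := by
    have hf := (exists_proj (μ := μ) V f).choose_spec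
    have hg := (exists_proj (μ := μ) V g).choose_spec
    have hfg := (exists_proj (μ := μ) V (f + g)).choose_spec
    refine proj_unique (μ := μ) V (f + g) _ _ hfg.1 (V.add_mem hf.1 hg.1) hfg.2 ?_
    intro v hv
    have e : f + g - ((exists_proj (μ := μ) V f).choose + (exists_proj (μ := μ) V g).choose) =
      (f - (exists_proj (μ := μ) V f).choose) + (g - (exists_proj (μ := μ) V g).choose) := by abel
    rw [e, ip_add_left, hf.2 v hv, hg.2 v hv, add_zero]
  map_smul' c f := by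
    have hf := (exists_proj (μ := μ) V f).choose_spec
    have hcf := (exists_proj (μ := μ) V (c • f)).choose_spec
    refine proj_unique (μ := μ) V (c • f) _ _ hcf.1 (V.smul_mem c hf.1) hcf.2 ?_
    intro v hv
    rw [RingHom.id_apply, ← smul_sub, ip_smul_left, hf.2 v hv, mul_zero]

theorem proj_mem (V : Submodule ℝ C(M, ℝ)) [FiniteDimensional ℝ V] (f : C(M, ℝ)) :
    proj μ V f ∈ V := (exists_proj (μ := μ) V f).choose_spec.1

theorem ip_proj (V : Submodule ℝ C(M, ℝ)) [FiniteDimensional ℝ V] (f v : C(M, ℝ)) (hv : v ∈ V) :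
    ip μ (proj μ V f) v = ip μ f v := by
  have h := (exists_proj (μ := μ) V f).choose_spec.2 v hv
  rw [ip_sub_left, sub_eq_zero] at h
  exact h.symm

theorem proj_eq (V : Submodule ℝ C(M, ℝ)) [FiniteDimensional ℝ V] (f p : C(M, ℝ)) (hp : p ∈ V)
    (h : ∀ v ∈ V, ip μ f v = ip μ p v) : proj μ V f = p := by
  refine proj_unique (μ := μ) V f _ _ (proj_mem V f) hp
    (fun v hv => by rw [ip_sub_left, ip_proj V f v hv, sub_self])
    (fun v hv => by rw [ip_sub_left, h v hv, sub_self])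

end proj

section main
variable {μ : Measure M} [IsFiniteMeasure μ] [μ.IsOpenPosMeasure]

theorem mtrans_mul (g : G) (u v : C(M, ℝ)) : mtrans g (u * v) = mtrans g u * mtrans g v := rfl

theorem mtrans_inv_mtrans (g : G) (u : C(M, ℝ)) : mtrans g⁻¹ (mtrans g u) = u := by
  ext x; simp [mtrans]

theorem mtrans_mtrans_inv (g : G) (u : C(M, ℝ)) : mtrans g (mtrans g⁻¹ u) = u := by
  ext x; simp [mtrans]

theorem ip_mtrans (hμ : ∀ g : G, MeasurePreserving (fun x : M => g • x) μ μ) (g : G)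
    (u v : C(M, ℝ)) : ip μ (mtrans g u) (mtrans g v) = ip μ u v := by
  have h := (hμ g⁻¹).integral_comp' (f := (Homeomorph.smul g⁻¹).toMeasurableEquiv)
    (fun x => u x * v x)
  exact h

theorem ip_mtrans_left (hμ : ∀ g : G, MeasurePreserving (fun x : M => g • x) μ μ) (g : G)
    (u v : C(M, ℝ)) : ip μ (mtrans g u) v = ip μ u (mtrans g⁻¹ v) := by
  rw [← ip_mtrans hμ g u (mtrans g⁻¹ v), mtrans_mtrans_inv]

theorem proj_mtrans (hμ : ∀ g : G, MeasurePreserving (fun x : M => g • x) μ μ)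
    (V : Submodule ℝ C(M, ℝ)) [FiniteDimensional ℝ V] (hV : ∀ g : G, ∀ v ∈ V, mtrans g v ∈ V)
    (g : G) (u : C(M, ℝ)) : proj μ V (mtrans g u) = mtrans g (proj μ V u) := by
  refine proj_eq V _ _ (hV g _ (proj_mem V u)) (fun v hv => ?_)
  rw [ip_mtrans_left hμ, ip_mtrans_left hμ, ip_proj V u _ (hV _ _ hv)]

theorem finite_nonzero (hμ : ∀ g : G, MeasurePreserving (fun x : M => g • x) μ μ)
    (htrans : ∀ x y : M, ∃ g : G, g • x = y) (V : ℝ → Submodule ℝ C(M, ℝ))
    (hVfd : ∀ c, FiniteDimensional ℝ (V c)) (hVst : ∀ c, ∀ g : G, ∀ v ∈ V c, mtrans g v ∈ V c)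
    (hVorth : ∀ c c', c ≠ c' → ∀ u ∈ V c, ∀ v ∈ V c', ip μ u v = 0)
    (f : C(M, ℝ)) (hf : GFinite G f) : {c : ℝ | ∃ v ∈ V c, ip μ f v ≠ 0}.Finite := by
  classical
  obtain ⟨W, hWfd, hfW, hW⟩ := hf
  obtain ⟨x0⟩ := ‹Nonempty M›
  let S : Set ℝ := {c : ℝ | ∃ v ∈ V c, ip μ f v ≠ 0}
  let ev : C(M, ℝ) →ₗ[ℝ] ℝ :=
    { toFun := fun u => u x0, map_add' := fun _ _ => rfl, map_smul' := fun _ _ => rfl }
  let L : S → Module.Dual ℝ W := fun c => (ev.comp (proj μ (V c))).comp W.subtype
  have hL : LinearIndependent ℝ L := by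
    rw [linearIndependent_iff']
    intro s a ha i hi
    have h1 : (∑ c ∈ s, a c • proj μ (V c) f) = 0 := by
      ext x
      obtain ⟨g, rfl⟩ := htrans x0 x
      have h2 := LinearMap.congr_fun ha ⟨mtrans g⁻¹ f, hW _ _ hfW⟩
      simp only [LinearMap.sum_apply, LinearMap.smul_apply, LinearMap.zero_apply] at h2
      have h3 : ∀ c : S, L c ⟨mtrans g⁻¹ f, hW _ _ hfW⟩ = (proj μ (V c) f) (g • x0) := by
        intro c
        change (proj μ (V c) (mtrans g⁻¹ f)) x0 = _
        rw [proj_mtrans hμ (V c) (hVst c)]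
        simp [mtrans]
      simp only [h3] at h2
      rw [ContinuousMap.coe_sum, Finset.sum_apply]
      simpa using h2
    have h4 : ip μ (∑ c ∈ s, a c • proj μ (V c) f) (proj μ (V i) f) = 0 := by
      rw [h1, ip_zero_left]
    have h5 : ip μ (∑ c ∈ s, a c • proj μ (V c) f) (proj μ (V i) f) =
        ∑ c ∈ s, a c * ip μ (proj μ (V c) f) (proj μ (V i) f) := by
      have : ∀ v, ip μ (∑ c ∈ s, a c • proj μ (V c) f) v = ∑ c ∈ s, a c * ip μ (proj μ (V c) f) v := by
        intro v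
        have := map_sum ((ipB μ).flip v) (fun c => a c • proj μ (V c) f) s
        have e : ∀ u, (ipB μ).flip v u = ip μ u v := fun u => rfl
        simp only [e, ip_smul_left] at this
        exact this
      exact this _
    rw [h5, Finset.sum_eq_single_of_mem i hi] at h4
    · rcases mul_eq_zero.mp h4 with h6 | h6
      · exact h6
      · exfalso
        obtain ⟨v, hv, hfv⟩ := i.2
        apply hfv
        rw [← ip_proj (V i) f v hv, ip_self_eq_zero _ h6, ip_zero_left]
    · intro c _ hci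
      rw [hVorth c i (fun h => hci (Subtype.ext h)) _ (proj_mem _ _) _ (proj_mem _ _), mul_zero]
  have : Finite S := hL.finite_of_isNoetherian
  exact Set.toFinite S

/-- the abstract theorem -/
theorem abstract_main (hμ : ∀ g : G, MeasurePreserving (fun x : M => g • x) μ μ)
    (htrans : ∀ x y : M, ∃ g : G, g • x = y)
    (R : Subalgebra ℝ C(M, ℝ)) (hR : R.FG) (hRfin : ∀ u, u ∈ R ↔ GFinite G u)
    (V : ℝ → Submodule ℝ C(M, ℝ))
    (hVfd : ∀ c, FiniteDimensional ℝ (V c)) (hVst : ∀ c, ∀ g : G, ∀ v ∈ V c, mtrans g v ∈ V c)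
    (hVorth : ∀ c c', c ≠ c' → ∀ u ∈ V c, ∀ v ∈ V c', ip μ u v = 0)
    (A : Subalgebra ℝ C(M, ℝ))
    (hA : ∀ f ∈ A, f ∈ Submodule.span ℝ {u : C(M, ℝ) | u ∈ A ∧ ∃ c, u ∈ V c}) : A.FG := by
  classical
  have hVR : ∀ c, ∀ v ∈ V c, v ∈ R := fun c v hv => (hRfin v).mpr ⟨V c, hVfd c, hv, hVst c⟩
  have hAR : A ≤ R := by
    intro f hf
    have h1 : Submodule.span ℝ {u : C(M, ℝ) | u ∈ A ∧ ∃ c, u ∈ V c} ≤ Subalgebra.toSubmodule R := by
      rw [Submodule.span_le]
      rintro u ⟨-, c, hc⟩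
      exact hVR c u hc
    exact h1 (hA f hf)
  -- projection on A
  let Ac : ℝ → Submodule ℝ C(M, ℝ) := fun c => Subalgebra.toSubmodule A ⊓ V c
  have hAcfd : ∀ c, FiniteDimensional ℝ (Ac c) := fun c =>
    Submodule.finiteDimensional_of_le (S₂ := V c) inf_le_right
  have hex : ∀ f ∈ R, ∃ a ∈ A, ∀ v ∈ A, ip μ (f - a) v = 0 := by
    intro f hf
    have hfin := finite_nonzero hμ htrans V hVfd hVst hVorth f ((hRfin f).mp hf)
    let a : C(M, ℝ) := ∑ c ∈ hfin.toFinset, proj μ (Ac c) f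
    have haA : a ∈ A := A.sum_mem fun c _ => (proj_mem (Ac c) f).1
    refine ⟨a, haA, ?_⟩
    have hsum : ∀ v, ip μ a v = ∑ c ∈ hfin.toFinset, ip μ (proj μ (Ac c) f) v := by
      intro v
      exact map_sum ((ipB μ).flip v) (fun c => proj μ (Ac c) f) hfin.toFinset
    have key : ∀ c, ∀ v ∈ Ac c, ip μ (f - a) v = 0 := by
      intro c v hv
      rw [ip_sub_left, hsum]
      by_cases hc : c ∈ hfin.toFinset
      · rw [Finset.sum_eq_single_of_mem c hc, ip_proj (Ac c) f v hv, sub_self]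
        intro c' _ hc'
        exact hVorth c' c hc' _ (proj_mem (Ac c') f).2 _ hv.2
      · have h1 : ip μ f v = 0 := by
          by_contra h
          exact hc (hfin.mem_toFinset.mpr ⟨v, hv.2, h⟩)
        rw [h1, Finset.sum_eq_zero, sub_zero]
        intro c' hc'
        refine hVorth c' c ?_ _ (proj_mem (Ac c') f).2 _ hv.2
        rintro rfl
        exact hc hc'
    intro v hv
    refine Submodule.span_induction (p := fun v _ => ip μ (f - a) v = 0) ?_ ?_ ?_ ?_ (hA v hv)
    · rintro u ⟨hu, c, hc⟩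
      exact key c u ⟨hu, hc⟩
    · rw [ip_comm, ip_zero_left]
    · intro x y _ _ hx hy
      rw [ip_comm, ip_add_left, ip_comm, hx, ip_comm, hy, add_zero]
    · intro t x _ hx
      rw [ip_comm, ip_smul_left, ip_comm, hx, mul_zero]
  let : Algebra A R := (Subalgebra.inclusion hAR).toRingHom.toAlgebra
  have : IsScalarTower ℝ A R := IsScalarTower.of_algebraMap_eq (fun x => rfl)
  have : Algebra.FiniteType ℝ R := R.fg_iff_finiteType.mp hR
  have hsm : ∀ (b : A) (f : R), ((b • f : R) : C(M, ℝ)) = (b : C(M, ℝ)) * f := fun b f => rfl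
  choose! ρ hρA hρ using hex
  have huniq : ∀ f ∈ R, ∀ a ∈ A, (∀ v ∈ A, ip μ (f - a) v = 0) → ρ f = a := by
    intro f hf a ha h
    exact proj_unique (μ := μ) (Subalgebra.toSubmodule A) f _ _ (hρA f hf) ha (hρ f hf) h
  let r : R →ₗ[A] A :=
    { toFun := fun f => ⟨ρ f, hρA f f.2⟩
      map_add' := by
        intro f g
        apply Subtype.ext
        change ρ ((f : C(M, ℝ)) + g) = ρ f + ρ g
        refine huniq _ (R.add_mem f.2 g.2) _ (A.add_mem (hρA f f.2) (hρA g g.2)) fun v hv => ?_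
        have e : (f : C(M, ℝ)) + g - (ρ f + ρ g) = (f - ρ f) + (g - ρ g) := by abel
        rw [e, ip_add_left, hρ f f.2 v hv, hρ g g.2 v hv, add_zero]
      map_smul' := by
        intro b f
        apply Subtype.ext
        change ρ ((b : C(M, ℝ)) * f) = b * ρ f
        refine huniq _ (R.mul_mem (hAR b.2) f.2) _ (A.mul_mem b.2 (hρA f f.2)) fun v hv => ?_
        rw [← mul_sub, mul_comm, ← mul_comm (b : C(M, ℝ)), ip_mul]
        exact hρ f f.2 _ (A.mul_mem b.2 hv) }
  have hr : r 1 = 1 := by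
    apply Subtype.ext
    change ρ (1 : C(M, ℝ)) = 1
    refine huniq _ R.one_mem _ A.one_mem fun v hv => ?_
    rw [sub_self, ip_zero_left]
  exact A.fg_iff_finiteType.mpr (Pool.Agent.Helper33.Ret.retract_finiteType_real r hr)

end main

end Pool.Agent.Helper33.Lap
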