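import Mathlib
import Pool.Agent.Helper33.Lap.Defs

set_option linter.unusedSectionVars false

open MeasureTheory Module

namespace Pool.Agent.Helper33.Lap

namespace T5

variable {M : Type} [MetricSpace M] [CompactSpace M] [Nonempty M] [MeasurableSpace M] [BorelSpace M]
variable {G : Type} [Group G] [TopologicalSpace G] [IsTopologicalGroup G] [CompactSpace G]
  [T2Space G] [SecondCountableTopology G] [MeasurableSpace G] [BorelSpace G]
  [MulAction G M] [ContinuousSMul G M] [IsIsometricSMul G M]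

theorem avg_indep (ν : Measure G) [ν.IsMulLeftInvariant]
    (htrans : ∀ x y : M, ∃ g : G, g • x = y) (f : C(M, ℝ)) (x y : M) :
    ∫ g, f (g⁻¹ • x) ∂ν = ∫ g, f (g⁻¹ • y) ∂ν := by
  obtain ⟨h, rfl⟩ := htrans x y
  rw [← integral_mul_left_eq_self (μ := ν) (fun g : G => f (g⁻¹ • x)) h⁻¹]
  congr with g
  simp [mul_inv_rev, mul_smul]

theorem int_smul (μ : Measure M)
    (hμ : ∀ g : G, MeasurePreserving (fun x : M => g • x) μ μ) (f : M → ℝ) (g : G) :
    ∫ x, f (g • x) ∂μ = ∫ x, f x ∂μ :=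
  (hμ g).integral_comp (Homeomorph.smul g).measurableEmbedding f

theorem avg (μ : Measure M) [IsFiniteMeasure μ] (ν : Measure G) [IsProbabilityMeasure ν]
    [ν.IsMulLeftInvariant]
    (hμ : ∀ g : G, MeasurePreserving (fun x : M => g • x) μ μ)
    (htrans : ∀ x y : M, ∃ g : G, g • x = y) (f : C(M, ℝ)) (y : M) :
    (∫ g, f (g⁻¹ • y) ∂ν) * μ.real Set.univ = ∫ x, f x ∂μ := by
  have h1 : ∫ x, (∫ g, f (g⁻¹ • x) ∂ν) ∂μ = ∫ g, (∫ x, f (g⁻¹ • x) ∂μ) ∂ν :=
    integral_integral_swap_of_hasCompactSupport (f := fun (x : M) (g : G) => f (g⁻¹ • x))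
      (by fun_prop) (HasCompactSupport.of_compactSpace _)
  have h2 : ∀ g : G, ∫ x, f (g⁻¹ • x) ∂μ = ∫ x, f x ∂μ := fun g => int_smul μ hμ f g⁻¹
  simp only [h2] at h1
  rw [integral_const, probReal_univ, one_smul] at h1
  rw [← h1]
  have h3 : ∀ x, ∫ g, f (g⁻¹ • x) ∂ν = ∫ g, f (g⁻¹ • y) ∂ν := fun x => avg_indep ν htrans f x y
  simp only [h3]
  rw [integral_const, smul_eq_mul, mul_comm]

/-- continuity of translation -/
theorem continuous_mtrans (u : C(M, ℝ)) : Continuous (fun g : G => mtrans g u) := by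
  have : (fun g : G => mtrans g u) = ContinuousMap.curry
      ⟨fun p : G × M => u (p.1⁻¹ • p.2), by fun_prop⟩ := by
    ext g x; rfl
  rw [this]
  exact ContinuousMap.continuous _

theorem mtrans_mtrans (g h : G) (u : C(M, ℝ)) : mtrans g (mtrans h u) = mtrans (g * h) u := by
  ext x; simp [mtrans, mul_inv_rev, mul_smul]

theorem mtrans_one (u : C(M, ℝ)) : mtrans (1 : G) u = u := by
  ext x; simp [mtrans]

theorem integrable_cont (μ : Measure M) [IsFiniteMeasure μ] {f : M → ℝ} (hf : Continuous f) :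
    Integrable f μ :=
  hf.integrable_of_hasCompactSupport (HasCompactSupport.of_compactSpace _)

theorem integrable_contG (ν : Measure G) [IsFiniteMeasure ν] {f : G → ℝ} (hf : Continuous f) :
    Integrable f ν :=
  hf.integrable_of_hasCompactSupport (HasCompactSupport.of_compactSpace _)

/-- Cauchy-Schwarz for square roots. -/
theorem cs_sqrt (ρ : Measure M) [IsFiniteMeasure ρ] {f : M → ℝ} (hf : Continuous f)
    (h0 : ∀ x, 0 ≤ f x) :
    (∫ p, Real.sqrt (f p) ∂ρ) ^ 2 ≤ ρ.real Set.univ * ∫ p, f p ∂ρ := by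
  have hs : Continuous fun p => Real.sqrt (f p) := hf.sqrt
  set I := ∫ p, Real.sqrt (f p) ∂ρ with hI
  set m := ρ.real Set.univ with hm
  have hm0 : 0 ≤ m := measureReal_nonneg
  rcases hm0.eq_or_lt with h | h
  · have hρ : ρ = 0 := by
      have : ρ Set.univ = 0 := by
        have := h.symm
        rw [hm, measureReal_def, ENNReal.toReal_eq_zero_iff] at this
        rcases this with h | h
        · exact h
        · exact absurd h (measure_ne_top _ _)
      exact Measure.measure_univ_eq_zero.mp this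
    simp [hI, hρ]
  · have h1 : 0 ≤ ∫ p, (m * Real.sqrt (f p) - I) ^ 2 ∂ρ := integral_nonneg fun p => sq_nonneg _
    have h2 : ∫ p, (m * Real.sqrt (f p) - I) ^ 2 ∂ρ = m ^ 2 * (∫ p, f p ∂ρ) - m * I ^ 2 := by
      have e : ∀ p, (m * Real.sqrt (f p) - I) ^ 2 = m ^ 2 * f p - (2 * m * I) * Real.sqrt (f p) + I ^ 2 := by
        intro p
        have := Real.sq_sqrt (h0 p)
        nlinarith [this]
      simp only [e]
      have i1 : Integrable (fun p => m ^ 2 * f p) ρ := (integrable_cont ρ hf).const_mul _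
      have i2 : Integrable (fun p => (2 * m * I) * Real.sqrt (f p)) ρ :=
        (integrable_cont ρ hs).const_mul _
      have i3 : Integrable (fun p => m ^ 2 * f p - (2 * m * I) * Real.sqrt (f p)) ρ := i1.sub i2
      rw [integral_add i3 (integrable_const _), integral_sub i1 i2, integral_const_mul,
        integral_const_mul, integral_const, ← hI, ← hm, smul_eq_mul]
      ring
    rw [h2] at h1
    have h3 : 0 ≤ m * (m * (∫ p, f p ∂ρ) - I ^ 2) := by nlinarith
    have := nonneg_of_mul_nonneg_right h3 h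
    linarith

/-- the basic averaged estimate -/
theorem avg_diff (μ : Measure M) [IsFiniteMeasure μ] [μ.IsOpenPosMeasure]
    (ν : Measure G) [IsProbabilityMeasure ν] [ν.IsMulLeftInvariant]
    (hμ : ∀ g : G, MeasurePreserving (fun x : M => g • x) μ μ)
    (htrans : ∀ x y : M, ∃ g : G, g • x = y)
    (Γ : Subgroup G) (hΓ : Dense (Γ : Set G)) (S : Submodule ℝ C(M, ℝ))
    (hS : ∀ g ∈ Γ, ∀ u ∈ S, mtrans g u ∈ S)
    (B : C(M, ℝ) → C(M, ℝ) → C(M, ℝ))
    (hBnn : ∀ u ∈ S, ∀ x, 0 ≤ B u u x)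
    (hBinv : ∀ g ∈ Γ, ∀ u ∈ S, ∀ v ∈ S, ∀ x, B (mtrans g u) (mtrans g v) x = B u v (g⁻¹ • x))
    (hUG : ∀ x y : M, ∃ ν : Measure M, ν Set.univ ≤ ENNReal.ofReal (2 * dist x y) ∧
      ∀ u ∈ S, |u x - u y| ≤ ∫ p, Real.sqrt (B u u p) ∂ν)
    (u : C(M, ℝ)) (hu : u ∈ S) (x y : M) :
    (∫ g, (u (g⁻¹ • x) - u (g⁻¹ • y)) ^ 2 ∂ν) * μ.real Set.univ
      ≤ (2 * dist x y) ^ 2 * ∫ p, B u u p ∂μ := by
  obtain ⟨ρ, hρ, hρu⟩ := hUG x y
  have hfin : IsFiniteMeasure ρ := ⟨lt_of_le_of_lt hρ ENNReal.ofReal_lt_top⟩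
  have hL : ρ.real Set.univ ≤ 2 * dist x y := by
    rw [measureReal_def]
    refine ENNReal.toReal_le_of_le_ofReal (by positivity) hρ
  have hL0 : 0 ≤ ρ.real Set.univ := measureReal_nonneg
  -- pointwise for all g
  have h1 : ∀ g : G, |u (g⁻¹ • x) - u (g⁻¹ • y)| ≤ ∫ p, Real.sqrt (B u u (g⁻¹ • p)) ∂ρ := by
    have hclosed : IsClosed {g : G | |u (g⁻¹ • x) - u (g⁻¹ • y)| ≤ ∫ p, Real.sqrt (B u u (g⁻¹ • p)) ∂ρ} := by
      apply isClosed_le
      · fun_prop
      · refine continuous_of_dominated (bound := fun _ => Real.sqrt ‖B u u‖) ?_ ?_ (integrable_const _) ?_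
        · intro g
          have : Continuous fun p : M => Real.sqrt (B u u (g⁻¹ • p)) := by fun_prop
          exact this.aestronglyMeasurable
        · intro g
          refine Filter.Eventually.of_forall fun p => ?_
          rw [Real.norm_eq_abs, abs_of_nonneg (Real.sqrt_nonneg _)]
          exact Real.sqrt_le_sqrt ((le_abs_self _).trans ((B u u).norm_coe_le_norm _))
        · exact Filter.Eventually.of_forall fun p => by fun_prop
    have hsub : (Γ : Set G) ⊆ {g : G | |u (g⁻¹ • x) - u (g⁻¹ • y)| ≤ ∫ p, Real.sqrt (B u u (g⁻¹ • p)) ∂ρ} := by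
      intro g hg
      have := hρu _ (hS g hg u hu)
      have e : ∀ p, B (mtrans g u) (mtrans g u) p = B u u (g⁻¹ • p) := hBinv g hg u hu u hu
      simp only [e] at this
      exact this
    have := closure_minimal hsub hclosed
    intro g
    exact this (hΓ g)
  -- squares
  have h2 : ∀ g : G, (u (g⁻¹ • x) - u (g⁻¹ • y)) ^ 2 ≤ ρ.real Set.univ * ∫ p, B u u (g⁻¹ • p) ∂ρ := by
    intro g
    have hc : Continuous fun p : M => B u u (g⁻¹ • p) := by fun_prop
    have := cs_sqrt ρ hc (fun p => hBnn u hu _)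
    refine le_trans ?_ this
    rw [← sq_abs (u (g⁻¹ • x) - u (g⁻¹ • y))]
    exact pow_le_pow_left₀ (abs_nonneg _) (h1 g) 2
  have hcontB : Continuous fun g : G => ∫ p, B u u (g⁻¹ • p) ∂ρ := by
    refine continuous_of_dominated (bound := fun _ => ‖B u u‖) ?_ ?_ (integrable_const _) ?_
    · intro g
      have : Continuous fun p : M => (B u u (g⁻¹ • p)) := by fun_prop
      exact this.aestronglyMeasurable
    · intro g
      exact Filter.Eventually.of_forall fun p => (B u u).norm_coe_le_norm _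
    · exact Filter.Eventually.of_forall fun p => by fun_prop
  have h3 : ∫ g, (u (g⁻¹ • x) - u (g⁻¹ • y)) ^ 2 ∂ν
      ≤ ρ.real Set.univ * ∫ g, (∫ p, B u u (g⁻¹ • p) ∂ρ) ∂ν := by
    rw [← integral_const_mul]
    refine integral_mono (integrable_contG ν (by fun_prop))
      ((integrable_contG ν hcontB).const_mul _) h2
  have h4 : ∫ g, (∫ p, B u u (g⁻¹ • p) ∂ρ) ∂ν = ∫ p, (∫ g, B u u (g⁻¹ • p) ∂ν) ∂ρ :=
    integral_integral_swap_of_hasCompactSupport (f := fun (g : G) (p : M) => B u u (g⁻¹ • p))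
      (by fun_prop) (HasCompactSupport.of_compactSpace _)
  have h5 : (∫ p, (∫ g, B u u (g⁻¹ • p) ∂ν) ∂ρ) * μ.real Set.univ
      = ρ.real Set.univ * ∫ p, B u u p ∂μ := by
    rw [← integral_mul_const]
    have : ∀ p, (∫ g, B u u (g⁻¹ • p) ∂ν) * μ.real Set.univ = ∫ p, B u u p ∂μ := fun p =>
      avg μ ν hμ htrans (B u u) p
    simp only [this]
    rw [integral_const, smul_eq_mul]
  have hD : 0 ≤ ∫ p, B u u p ∂μ := integral_nonneg fun p => hBnn u hu p
  have hμ0 : 0 ≤ μ.real Set.univ := measureReal_nonneg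
  calc (∫ g, (u (g⁻¹ • x) - u (g⁻¹ • y)) ^ 2 ∂ν) * μ.real Set.univ
      ≤ (ρ.real Set.univ * ∫ g, (∫ p, B u u (g⁻¹ • p) ∂ρ) ∂ν) * μ.real Set.univ :=
        mul_le_mul_of_nonneg_right h3 hμ0
    _ = ρ.real Set.univ * (ρ.real Set.univ * ∫ p, B u u p ∂μ) := by
        rw [h4, mul_assoc, h5]
    _ = (ρ.real Set.univ) ^ 2 * ∫ p, B u u p ∂μ := by ring
    _ ≤ (2 * dist x y) ^ 2 * ∫ p, B u u p ∂μ :=
        mul_le_mul_of_nonneg_right (pow_le_pow_left₀ hL0 hL 2) hD

/-- the kernel `max 0 (r - dist x y)` -/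
noncomputable def kap (r : ℝ) (x y : M) : ℝ := max 0 (r - dist x y)

theorem kap_nonneg (r : ℝ) (x y : M) : 0 ≤ kap r x y := le_max_left _ _

theorem kap_cont (r : ℝ) : Continuous fun p : M × M => kap r p.1 p.2 := by
  unfold kap; fun_prop

theorem kap_cont_right (r : ℝ) (x : M) : Continuous fun y : M => kap r x y := by
  unfold kap; fun_prop

theorem kap_lip (r : ℝ) (x x' y : M) : |kap r x y - kap r x' y| ≤ dist x x' := by
  unfold kap
  have h1 := abs_max_sub_max_le_abs (r - dist x y) (r - dist x' y) 0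
  rw [max_comm 0, max_comm 0]
  refine h1.trans ?_
  have : r - dist x y - (r - dist x' y) = dist x' y - dist x y := by ring
  rw [this, dist_comm x x']
  exact abs_dist_sub_le x' x y

theorem kap_smul (r : ℝ) (g : G) (x y : M) : kap r (g • x) (g • y) = kap r x y := by
  unfold kap; rw [dist_smul]

theorem kap_mul_sq (r : ℝ) (x y : M) : kap r x y * dist x y ^ 2 ≤ kap r x y * r ^ 2 := by
  unfold kap
  rcases le_or_gt r (dist x y) with h | h
  · rw [max_eq_left (by linarith)]; simp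
  · exact mul_le_mul_of_nonneg_left (pow_le_pow_left₀ dist_nonneg h.le 2) (le_max_left _ _)

/-- total mass of the kernel -/
noncomputable def mass (μ : Measure M) (r : ℝ) (x : M) : ℝ := ∫ y, kap r x y ∂μ

theorem mass_const (μ : Measure M)
    (hμ : ∀ g : G, MeasurePreserving (fun x : M => g • x) μ μ)
    (htrans : ∀ x y : M, ∃ g : G, g • x = y) (r : ℝ) (x x' : M) : mass μ r x = mass μ r x' := by
  obtain ⟨g, rfl⟩ := htrans x x'
  unfold mass
  rw [← int_smul μ hμ (fun y => kap r (g • x) y) g]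
  simp only [kap_smul]

theorem mass_pos (μ : Measure M) [IsFiniteMeasure μ] [μ.IsOpenPosMeasure] (r : ℝ) (hr : 0 < r)
    (x : M) : 0 < mass μ r x := by
  unfold mass
  have hc := kap_cont_right (M := M) r x
  refine hc.integral_pos_of_hasCompactSupport_nonneg_nonzero (HasCompactSupport.of_compactSpace _)
    (fun y => kap_nonneg r x y) (x := x) ?_
  unfold kap
  rw [dist_self, sub_zero, max_eq_right hr.le]
  exact hr.ne'

/-- Cauchy-Schwarz with a weight -/
theorem cs_weight (ρ : Measure M) [IsFiniteMeasure ρ] {k f : M → ℝ} (hk : Continuous k)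
    (hf : Continuous f) (h0 : ∀ x, 0 ≤ k x) (hpos : 0 < ∫ x, k x ∂ρ) :
    (∫ x, k x * f x ∂ρ) ^ 2 ≤ (∫ x, k x ∂ρ) * ∫ x, k x * f x ^ 2 ∂ρ := by
  set N := ∫ x, k x ∂ρ with hN
  set I := ∫ x, k x * f x ∂ρ with hI
  have h1 : 0 ≤ ∫ x, k x * (N * f x - I) ^ 2 ∂ρ :=
    integral_nonneg fun p => mul_nonneg (h0 p) (sq_nonneg _)
  have h2 : ∫ x, k x * (N * f x - I) ^ 2 ∂ρ = N ^ 2 * (∫ x, k x * f x ^ 2 ∂ρ) - N * I ^ 2 := by
    have e : ∀ x, k x * (N * f x - I) ^ 2
        = N ^ 2 * (k x * f x ^ 2) - (2 * N * I) * (k x * f x) + I ^ 2 * k x := by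
      intro x; ring
    simp only [e]
    have i1 : Integrable (fun x => N ^ 2 * (k x * f x ^ 2)) ρ :=
      integrable_cont ρ (by fun_prop)
    have i2 : Integrable (fun x => (2 * N * I) * (k x * f x)) ρ := integrable_cont ρ (by fun_prop)
    have i3 : Integrable (fun x => N ^ 2 * (k x * f x ^ 2) - (2 * N * I) * (k x * f x)) ρ := i1.sub i2
    have i4 : Integrable (fun x => I ^ 2 * k x) ρ := integrable_cont ρ (by fun_prop)
    rw [integral_add i3 i4, integral_sub i1 i2, integral_const_mul, integral_const_mul,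
      integral_const_mul, ← hI, ← hN]
    ring
  rw [h2] at h1
  have h3 : 0 ≤ N * (N * (∫ x, k x * f x ^ 2 ∂ρ) - I ^ 2) := by nlinarith
  have := nonneg_of_mul_nonneg_right h3 hpos
  linarith

/-- Mollification error. -/
theorem moll_err (μ : Measure M) [IsFiniteMeasure μ] [μ.IsOpenPosMeasure]
    (ν : Measure G) [IsProbabilityMeasure ν]
    (hμ : ∀ g : G, MeasurePreserving (fun x : M => g • x) μ μ)
    (u : C(M, ℝ)) (D : ℝ) (hD : 0 ≤ D)
    (hu : ∀ x y : M, (∫ g, (u (g⁻¹ • x) - u (g⁻¹ • y)) ^ 2 ∂ν) * μ.real Set.univ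
      ≤ (2 * dist x y) ^ 2 * D) (r : ℝ) (hr : 0 < r) (N : ℝ) (hN : ∀ x, mass μ r x = N) :
    ∫ x, (u x - N⁻¹ * ∫ y, kap r x y * u y ∂μ) ^ 2 ∂μ ≤ 4 * r ^ 2 * D := by
  have hNpos : 0 < N := by
    obtain ⟨x⟩ := ‹Nonempty M›
    rw [← hN x]; exact mass_pos μ r hr x
  -- pointwise bound
  have h1 : ∀ x, (u x - N⁻¹ * ∫ y, kap r x y * u y ∂μ) ^ 2 ≤ N⁻¹ * ∫ y, kap r x y * (u x - u y) ^ 2 ∂μ := by
    intro x
    have e : u x - N⁻¹ * ∫ y, kap r x y * u y ∂μ = N⁻¹ * ∫ y, kap r x y * (u x - u y) ∂μ := by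
      have e1 : ∀ y, kap r x y * (u x - u y) = kap r x y * u x - kap r x y * u y := fun y => by ring
      simp only [e1]
      have i1 : Integrable (fun y => kap r x y * u x) μ :=
        integrable_cont μ ((kap_cont_right r x).mul continuous_const)
      have i2 : Integrable (fun y => kap r x y * u y) μ :=
        integrable_cont μ ((kap_cont_right r x).mul u.continuous)
      rw [integral_sub i1 i2, integral_mul_const]
      have : ∫ y, kap r x y ∂μ = N := hN x
      rw [this]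
      field_simp
    rw [e, mul_pow]
    have := cs_weight μ (kap_cont_right r x) (f := fun y => u x - u y) (by fun_prop)
      (fun y => kap_nonneg r x y) (mass_pos μ r hr x)
    have hNx : ∫ y, kap r x y ∂μ = N := hN x
    rw [hNx] at this
    calc (N⁻¹) ^ 2 * (∫ y, kap r x y * (u x - u y) ∂μ) ^ 2
        ≤ (N⁻¹) ^ 2 * (N * ∫ y, kap r x y * (u x - u y) ^ 2 ∂μ) :=
          mul_le_mul_of_nonneg_left this (by positivity)
      _ = N⁻¹ * ∫ y, kap r x y * (u x - u y) ^ 2 ∂μ := by field_simp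
  -- continuity of inner integrals
  have hcont2 : Continuous fun p : M × M => kap r p.1 p.2 * (u p.1 - u p.2) ^ 2 := by
    have := kap_cont (M := M) r
    fun_prop
  have hcin : Continuous fun x => ∫ y, kap r x y * (u x - u y) ^ 2 ∂μ := by
    exact continuous_parametric_integral_of_continuous (μ := μ) (s := Set.univ)
      (f := fun x y => kap r x y * (u x - u y) ^ 2) hcont2 isCompact_univ |> fun h => by simpa using h
  have hcin2 : Continuous fun x => ∫ y, kap r x y * u y ∂μ := by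
    have hc3 : Continuous fun p : M × M => kap r p.1 p.2 * u p.2 := by
      have := kap_cont (M := M) r
      fun_prop
    exact continuous_parametric_integral_of_continuous (μ := μ) (s := Set.univ)
      (f := fun x y => kap r x y * u y) hc3 isCompact_univ |> fun h => by simpa using h
  have h2 : ∫ x, (u x - N⁻¹ * ∫ y, kap r x y * u y ∂μ) ^ 2 ∂μ
      ≤ N⁻¹ * ∫ x, (∫ y, kap r x y * (u x - u y) ^ 2 ∂μ) ∂μ := by
    rw [← integral_const_mul]
    exact integral_mono (integrable_cont μ (by fun_prop)) (integrable_cont μ (by fun_prop)) h1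
  -- invariance
  have h3 : ∀ g : G, ∫ x, (∫ y, kap r x y * (u x - u y) ^ 2 ∂μ) ∂μ
      = ∫ x, (∫ y, kap r x y * (u (g⁻¹ • x) - u (g⁻¹ • y)) ^ 2 ∂μ) ∂μ := by
    intro g
    rw [← int_smul μ hμ (fun x => ∫ y, kap r x y * (u x - u y) ^ 2 ∂μ) g⁻¹]
    congr with x
    rw [← int_smul μ hμ (fun y => kap r (g⁻¹ • x) y * (u (g⁻¹ • x) - u y) ^ 2) g⁻¹]
    simp only [kap_smul]
  have hc4 : Continuous fun p : (G × M) × M => kap r p.1.2 p.2 * (u (p.1.1⁻¹ • p.1.2) - u (p.1.1⁻¹ • p.2)) ^ 2 := by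
    have := kap_cont (M := M) r
    have h' : Continuous fun p : (G × M) × M => kap r p.1.2 p.2 :=
      this.comp (by fun_prop : Continuous fun p : (G × M) × M => (p.1.2, p.2))
    fun_prop
  have hc5 : Continuous fun p : G × M => ∫ y, kap r p.2 y * (u (p.1⁻¹ • p.2) - u (p.1⁻¹ • y)) ^ 2 ∂μ := by
    exact continuous_parametric_integral_of_continuous (μ := μ) (s := Set.univ)
      (f := fun (p : G × M) y => kap r p.2 y * (u (p.1⁻¹ • p.2) - u (p.1⁻¹ • y)) ^ 2) hc4 isCompact_univ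
      |> fun h => by simpa using h
  have h4 : ∫ x, (∫ y, kap r x y * (u x - u y) ^ 2 ∂μ) ∂μ
      = ∫ x, (∫ y, kap r x y * (∫ g, (u (g⁻¹ • x) - u (g⁻¹ • y)) ^ 2 ∂ν) ∂μ) ∂μ := by
    have e1 : ∫ x, (∫ y, kap r x y * (u x - u y) ^ 2 ∂μ) ∂μ
        = ∫ g, (∫ x, (∫ y, kap r x y * (u (g⁻¹ • x) - u (g⁻¹ • y)) ^ 2 ∂μ) ∂μ) ∂ν := by
      rw [integral_congr_ae (Filter.Eventually.of_forall fun g => (h3 g).symm), integral_const,
        probReal_univ, one_smul]
    rw [e1, integral_integral_swap_of_hasCompactSupport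
      (f := fun (g : G) (x : M) => ∫ y, kap r x y * (u (g⁻¹ • x) - u (g⁻¹ • y)) ^ 2 ∂μ)
      hc5 (HasCompactSupport.of_compactSpace _)]
    congr with x
    rw [integral_integral_swap_of_hasCompactSupport
      (f := fun (g : G) (y : M) => kap r x y * (u (g⁻¹ • x) - u (g⁻¹ • y)) ^ 2)
      (by
        have := kap_cont_right (M := M) r x
        have h' : Continuous fun p : G × M => kap r x p.2 := this.comp continuous_snd
        show Continuous fun p : G × M => kap r x p.2 * (u (p.1⁻¹ • x) - u (p.1⁻¹ • p.2)) ^ 2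
        fun_prop) (HasCompactSupport.of_compactSpace _)]
    congr with y
    rw [integral_const_mul]
  have hμpos : 0 < μ.real Set.univ := by
    rw [measureReal_def]
    exact ENNReal.toReal_pos (Measure.measure_univ_ne_zero.mpr (by
      intro h
      obtain ⟨x⟩ := ‹Nonempty M›
      have := mass_pos μ r hr x
      rw [mass, h] at this
      simp at this)) (measure_ne_top _ _)
  set m := μ.real Set.univ with hm
  have h5 : ∀ x y : M, kap r x y * (∫ g, (u (g⁻¹ • x) - u (g⁻¹ • y)) ^ 2 ∂ν)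
      ≤ (4 * r ^ 2 * D / m) * kap r x y := by
    intro x y
    have a1 : (∫ g, (u (g⁻¹ • x) - u (g⁻¹ • y)) ^ 2 ∂ν) ≤ (2 * dist x y) ^ 2 * D / m := by
      rw [le_div_iff₀ hμpos]; exact hu x y
    have a2 := kap_mul_sq r x y
    have a3 := kap_nonneg r x y
    calc kap r x y * (∫ g, (u (g⁻¹ • x) - u (g⁻¹ • y)) ^ 2 ∂ν)
        ≤ kap r x y * ((2 * dist x y) ^ 2 * D / m) := mul_le_mul_of_nonneg_left a1 a3
      _ = (kap r x y * dist x y ^ 2) * (4 * D / m) := by ring
      _ ≤ (kap r x y * r ^ 2) * (4 * D / m) := mul_le_mul_of_nonneg_right a2 (by positivity)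
      _ = (4 * r ^ 2 * D / m) * kap r x y := by ring
  have hc6 : Continuous fun p : (M × M) × G => (u (p.2⁻¹ • p.1.1) - u (p.2⁻¹ • p.1.2)) ^ 2 := by fun_prop
  have hc7 : Continuous fun p : M × M => ∫ g, (u (g⁻¹ • p.1) - u (g⁻¹ • p.2)) ^ 2 ∂ν := by
    exact continuous_parametric_integral_of_continuous (μ := ν) (s := Set.univ)
      (f := fun (p : M × M) (g : G) => (u (g⁻¹ • p.1) - u (g⁻¹ • p.2)) ^ 2) hc6 isCompact_univ
      |> fun h => by simpa using h
  have hc8 : Continuous fun p : M × M => kap r p.1 p.2 * ∫ g, (u (g⁻¹ • p.1) - u (g⁻¹ • p.2)) ^ 2 ∂ν :=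
    (kap_cont r).mul hc7
  have hc9 : Continuous fun x => ∫ y, kap r x y * (∫ g, (u (g⁻¹ • x) - u (g⁻¹ • y)) ^ 2 ∂ν) ∂μ := by
    exact continuous_parametric_integral_of_continuous (μ := μ) (s := Set.univ)
      (f := fun x y => kap r x y * ∫ g, (u (g⁻¹ • x) - u (g⁻¹ • y)) ^ 2 ∂ν) hc8 isCompact_univ
      |> fun h => by simpa using h
  have h6 : ∫ x, (∫ y, kap r x y * (∫ g, (u (g⁻¹ • x) - u (g⁻¹ • y)) ^ 2 ∂ν) ∂μ) ∂μ
      ≤ ∫ x, (4 * r ^ 2 * D / m) * N ∂μ := by
    refine integral_mono (integrable_cont μ hc9) (integrable_const _) fun x => ?_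
    show ∫ y, kap r x y * (∫ g, (u (g⁻¹ • x) - u (g⁻¹ • y)) ^ 2 ∂ν) ∂μ ≤ _
    rw [← hN x, mass, ← integral_const_mul]
    refine integral_mono (integrable_cont μ ?_) (integrable_cont μ ?_) (h5 x)
    · exact hc8.comp (by fun_prop : Continuous fun y => (x, y))
    · exact continuous_const.mul (kap_cont_right r x)
  rw [integral_const, smul_eq_mul, ← hm] at h6
  calc ∫ x, (u x - N⁻¹ * ∫ y, kap r x y * u y ∂μ) ^ 2 ∂μ
      ≤ N⁻¹ * ∫ x, (∫ y, kap r x y * (u x - u y) ^ 2 ∂μ) ∂μ := h2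
    _ ≤ N⁻¹ * (m * (4 * r ^ 2 * D / m * N)) := by
        rw [h4]
        exact mul_le_mul_of_nonneg_left h6 (by positivity)
    _ = 4 * r ^ 2 * D := by
        field_simp

/-- If finitely many kernel averages vanish, then `u = 0`. -/
theorem eq_zero_of_net (μ : Measure M) [IsFiniteMeasure μ] [μ.IsOpenPosMeasure] (u : C(M, ℝ))
    (r : ℝ) (N : ℝ) (hNpos : 0 < N) (ε : ℝ)
    (herr : ∫ x, (u x - N⁻¹ * ∫ y, kap r x y * u y ∂μ) ^ 2 ∂μ ≤ (1 / 8) * ∫ x, u x ^ 2 ∂μ)
    (hsmall : (N⁻¹ * ε) ^ 2 * (μ.real Set.univ) ^ 2 ≤ 1 / 8)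
    (s : Set M) (hs : ∀ x : M, ∃ z ∈ s, dist x z ≤ ε)
    (h0 : ∀ z ∈ s, ∫ y, kap r z y * u y ∂μ = 0) : u = 0 := by
  set m := μ.real Set.univ with hm
  set Q := ∫ x, u x ^ 2 ∂μ with hQ
  have hm0 : 0 ≤ m := measureReal_nonneg
  have hQ0 : 0 ≤ Q := integral_nonneg fun x => sq_nonneg _
  have hcin2 : Continuous fun x => ∫ y, kap r x y * u y ∂μ := by
    have hc3 : Continuous fun p : M × M => kap r p.1 p.2 * u p.2 := by
      have := kap_cont (M := M) r
      fun_prop
    exact continuous_parametric_integral_of_continuous (μ := μ) (s := Set.univ)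
      (f := fun x y => kap r x y * u y) hc3 isCompact_univ |> fun h => by simpa using h
  -- bound for the averages
  have hL1 : (∫ y, |u y| ∂μ) ^ 2 ≤ m * Q := by
    rcases hm0.eq_or_lt with h | h
    · have : μ = 0 := by
        have h1 : μ Set.univ = 0 := by
          have := h.symm
          rw [hm, measureReal_def, ENNReal.toReal_eq_zero_iff] at this
          rcases this with h | h
          · exact h
          · exact absurd h (measure_ne_top _ _)
        exact Measure.measure_univ_eq_zero.mp h1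
      simp [this, hQ]
    · have := cs_weight μ (k := fun _ => (1 : ℝ)) (f := fun y => |u y|) continuous_const (by fun_prop)
        (fun _ => zero_le_one) (by
          rw [integral_const, smul_eq_mul, mul_one]; exact h)
      simpa [hm, hQ] using this
  have hb : ∀ x, (N⁻¹ * ∫ y, kap r x y * u y ∂μ) ^ 2 ≤ (N⁻¹ * ε) ^ 2 * (m * Q) := by
    intro x
    obtain ⟨z, hz, hxz⟩ := hs x
    have e : ∫ y, kap r x y * u y ∂μ = ∫ y, (kap r x y - kap r z y) * u y ∂μ := by
      have e1 : ∀ y, (kap r x y - kap r z y) * u y = kap r x y * u y - kap r z y * u y := fun y => by ring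
      simp only [e1]
      have i1 : Integrable (fun y => kap r x y * u y) μ :=
        integrable_cont μ ((kap_cont_right r x).mul u.continuous)
      have i2 : Integrable (fun y => kap r z y * u y) μ :=
        integrable_cont μ ((kap_cont_right r z).mul u.continuous)
      rw [integral_sub i1 i2, h0 z hz, sub_zero]
    have h1 : |∫ y, (kap r x y - kap r z y) * u y ∂μ| ≤ ε * ∫ y, |u y| ∂μ := by
      rw [← integral_const_mul]
      refine (abs_integral_le_integral_abs).trans ?_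
      have hk1 := kap_cont_right (M := M) r x
      have hk2 := kap_cont_right (M := M) r z
      refine integral_mono (integrable_cont μ (by fun_prop)) (integrable_cont μ (by fun_prop)) fun y => ?_
      simp only [abs_mul]
      exact mul_le_mul_of_nonneg_right ((kap_lip r x z y).trans hxz) (abs_nonneg _)
    rw [e, mul_pow, mul_pow, mul_assoc]
    refine mul_le_mul_of_nonneg_left ?_ (by positivity)
    rw [← sq_abs]
    calc |∫ y, (kap r x y - kap r z y) * u y ∂μ| ^ 2 ≤ (ε * ∫ y, |u y| ∂μ) ^ 2 :=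
          pow_le_pow_left₀ (abs_nonneg _) h1 2
      _ = ε ^ 2 * (∫ y, |u y| ∂μ) ^ 2 := by ring
      _ ≤ ε ^ 2 * (m * Q) := mul_le_mul_of_nonneg_left hL1 (by positivity)
  have hint : ∫ x, (N⁻¹ * ∫ y, kap r x y * u y ∂μ) ^ 2 ∂μ ≤ (1 / 8) * Q := by
    have h1 : ∫ x, (N⁻¹ * ∫ y, kap r x y * u y ∂μ) ^ 2 ∂μ ≤ ∫ x, (N⁻¹ * ε) ^ 2 * (m * Q) ∂μ :=
      integral_mono (integrable_cont μ (by fun_prop)) (integrable_const _) hb
    rw [integral_const, smul_eq_mul, ← hm] at h1
    calc _ ≤ m * ((N⁻¹ * ε) ^ 2 * (m * Q)) := h1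
      _ = ((N⁻¹ * ε) ^ 2 * m ^ 2) * Q := by ring
      _ ≤ (1 / 8) * Q := mul_le_mul_of_nonneg_right hsmall hQ0
  have hsum : Q ≤ 2 * ∫ x, (u x - N⁻¹ * ∫ y, kap r x y * u y ∂μ) ^ 2 ∂μ
      + 2 * ∫ x, (N⁻¹ * ∫ y, kap r x y * u y ∂μ) ^ 2 ∂μ := by
    have j1 : Integrable (fun x => 2 * (u x - N⁻¹ * ∫ y, kap r x y * u y ∂μ) ^ 2) μ :=
      integrable_cont μ (by fun_prop)
    have j2 : Integrable (fun x => 2 * (N⁻¹ * ∫ y, kap r x y * u y ∂μ) ^ 2) μ :=
      integrable_cont μ (by fun_prop)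
    rw [← integral_const_mul, ← integral_const_mul, ← integral_add j1 j2]
    refine integral_mono (integrable_cont μ (by fun_prop)) (j1.add j2) fun x => ?_
    show u x ^ 2 ≤ 2 * (u x - N⁻¹ * ∫ y, kap r x y * u y ∂μ) ^ 2 + 2 * (N⁻¹ * ∫ y, kap r x y * u y ∂μ) ^ 2
    nlinarith [sq_nonneg (u x - N⁻¹ * ∫ y, kap r x y * u y ∂μ - N⁻¹ * ∫ y, kap r x y * u y ∂μ)]
  have hQz : Q = 0 := by linarith
  have hcont : Continuous fun x => u x ^ 2 := by fun_prop
  by_contra hne
  obtain ⟨x, hx⟩ : ∃ x, u x ≠ 0 := by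
    by_contra h
    push Not at h
    exact hne (ContinuousMap.ext h)
  have := hcont.integral_pos_of_hasCompactSupport_nonneg_nonzero (μ := μ)
    (HasCompactSupport.of_compactSpace _) (fun y => sq_nonneg _) (x := x) (by positivity)
  rw [← hQ, hQz] at this
  exact lt_irrefl _ this

end T5

variable {M : Type} [MetricSpace M] [CompactSpace M] [Nonempty M] [MeasurableSpace M] [BorelSpace M]
variable {G : Type} [Group G] [TopologicalSpace G] [IsTopologicalGroup G] [CompactSpace G]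
  [T2Space G] [SecondCountableTopology G] [MeasurableSpace G] [BorelSpace G]
  [MulAction G M] [ContinuousSMul G M] [IsIsometricSMul G M]

/-- T5a: eigenspaces are finite dimensional and `G`-stable -/
theorem eigen_gfinite (μ : Measure M) [IsFiniteMeasure μ] [μ.IsOpenPosMeasure]
    (hμ : ∀ g : G, MeasurePreserving (fun x : M => g • x) μ μ)
    (htrans : ∀ x y : M, ∃ g : G, g • x = y)
    (Γ : Subgroup G) (hΓ : Dense (Γ : Set G)) (S : Submodule ℝ C(M, ℝ))
    (hS : ∀ g ∈ Γ, ∀ u ∈ S, mtrans g u ∈ S)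
    (B : C(M, ℝ) → C(M, ℝ) → C(M, ℝ))
    (hBnn : ∀ u ∈ S, ∀ x, 0 ≤ B u u x)
    (hBinv : ∀ g ∈ Γ, ∀ u ∈ S, ∀ v ∈ S, ∀ x, B (mtrans g u) (mtrans g v) x = B u v (g⁻¹ • x))
    (hUG : ∀ x y : M, ∃ ν : Measure M, ν Set.univ ≤ ENNReal.ofReal (2 * dist x y) ∧
      ∀ u ∈ S, |u x - u y| ≤ ∫ p, Real.sqrt (B u u p) ∂ν)
    (c : ℝ) (V : Submodule ℝ C(M, ℝ))
    (hV : ∀ u, u ∈ V ↔ u ∈ S ∧ ∀ v ∈ S, ∫ x, B u v x ∂μ = c * ∫ x, u x * v x ∂μ) :
    FiniteDimensional ℝ V ∧ ∀ g : G, ∀ v ∈ V, mtrans g v ∈ V := by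
  have hfd : FiniteDimensional ℝ V := by
    set ν : Measure G := Measure.haarMeasure ⊤ with hν
    have hνp : IsProbabilityMeasure ν := ⟨by
      have := Measure.haarMeasure_self (K₀ := (⊤ : TopologicalSpace.PositiveCompacts G))
      simpa using this⟩
    -- the radius
    obtain ⟨r, hr, hrc⟩ : ∃ r : ℝ, 0 < r ∧ 4 * r ^ 2 * |c| ≤ 1 / 8 := by
      refine ⟨1 / (8 * (1 + |c|)), by positivity, ?_⟩
      have h1 : 0 ≤ |c| := abs_nonneg c
      rw [div_pow, mul_pow]
      have h2 : |c| ≤ (1 + |c|) ^ 2 := by nlinarith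
      have h3 : (0 : ℝ) < (1 + |c|) ^ 2 := by positivity
      have h4 : 4 * (1 ^ 2 / (8 ^ 2 * (1 + |c|) ^ 2)) * |c| = (|c| / (1 + |c|) ^ 2) / 16 := by
        field_simp; ring
      rw [h4]
      have h5 : |c| / (1 + |c|) ^ 2 ≤ 1 := by rw [div_le_one h3]; exact h2
      linarith
    obtain ⟨x₀⟩ := ‹Nonempty M›
    have : Nonempty M := ⟨x₀⟩
    set N := T5.mass μ r x₀ with hN
    have hNx : ∀ x, T5.mass μ r x = N := fun x => T5.mass_const μ hμ htrans r x x₀
    have hNpos : 0 < N := T5.mass_pos μ r hr x₀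
    set m := μ.real Set.univ with hm
    have hm0 : 0 ≤ m := measureReal_nonneg
    obtain ⟨ε, hε, hεs⟩ : ∃ ε : ℝ, 0 < ε ∧ (N⁻¹ * ε) ^ 2 * m ^ 2 ≤ 1 / 8 := by
      refine ⟨N / (4 * (1 + m)), by positivity, ?_⟩
      have h1 : (N⁻¹ * (N / (4 * (1 + m)))) ^ 2 * m ^ 2 = (m / (1 + m)) ^ 2 / 16 := by
        field_simp; ring
      rw [h1]
      have h2 : m / (1 + m) ≤ 1 := by rw [div_le_one (by positivity)]; linarith
      have h3 : 0 ≤ m / (1 + m) := by positivity
      have h4 : (m / (1 + m)) ^ 2 ≤ 1 := by nlinarith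
      linarith
    -- the net
    obtain ⟨t, -, htf, hcov⟩ := Metric.finite_approx_of_totallyBounded
      (isCompact_univ (X := M)).totallyBounded ε hε
    have hnet : ∀ x : M, ∃ z ∈ t, dist x z ≤ ε := by
      intro x
      have := hcov (Set.mem_univ x)
      simp only [Set.mem_iUnion, Metric.mem_ball, exists_prop] at this
      obtain ⟨z, hz, hxz⟩ := this
      exact ⟨z, hz, hxz.le⟩
    have : Fintype t := htf.fintype
    -- the linear map
    let Φ : C(M, ℝ) →ₗ[ℝ] (t → ℝ) :=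
      { toFun := fun u z => ∫ y, T5.kap r (z : M) y * u y ∂μ
        map_add' := by
          intro u v
          ext z
          simp only [ContinuousMap.add_apply, Pi.add_apply]
          have i1 : Integrable (fun y => T5.kap r (z : M) y * u y) μ :=
            T5.integrable_cont μ ((T5.kap_cont_right r (z : M)).mul u.continuous)
          have i2 : Integrable (fun y => T5.kap r (z : M) y * v y) μ :=
            T5.integrable_cont μ ((T5.kap_cont_right r (z : M)).mul v.continuous)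
          rw [← integral_add i1 i2]
          congr with y
          ring
        map_smul' := by
          intro a u
          ext z
          simp only [ContinuousMap.smul_apply, smul_eq_mul, Pi.smul_apply, RingHom.id_apply]
          rw [← integral_const_mul]
          congr with y
          ring }
    have hinj : Function.Injective (Φ.comp V.subtype) := by
      rw [← LinearMap.ker_eq_bot, LinearMap.ker_eq_bot']
      rintro ⟨u, hu⟩ h
      have hu' := (hV u).mp hu
      have hD0 : 0 ≤ ∫ x, B u u x ∂μ := integral_nonneg fun p => hBnn u hu'.1 p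
      have hQ0 : 0 ≤ ∫ x, u x ^ 2 ∂μ := integral_nonneg fun p => sq_nonneg _
      have hDc : ∫ x, B u u x ∂μ ≤ |c| * ∫ x, u x ^ 2 ∂μ := by
        rw [hu'.2 u hu'.1]
        have : ∀ x, u x * u x = u x ^ 2 := fun x => by ring
        simp only [this]
        exact mul_le_mul_of_nonneg_right (le_abs_self c) hQ0
      have herr := T5.moll_err μ ν hμ u (∫ x, B u u x ∂μ) hD0
        (fun x y => T5.avg_diff μ ν hμ htrans Γ hΓ S hS B hBnn hBinv hUG u hu'.1 x y) r hr N hNx
      have herr' : ∫ x, (u x - N⁻¹ * ∫ y, T5.kap r x y * u y ∂μ) ^ 2 ∂μ ≤ (1 / 8) * ∫ x, u x ^ 2 ∂μ := by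
        refine herr.trans ?_
        calc 4 * r ^ 2 * ∫ x, B u u x ∂μ ≤ 4 * r ^ 2 * (|c| * ∫ x, u x ^ 2 ∂μ) :=
              mul_le_mul_of_nonneg_left hDc (by positivity)
          _ = (4 * r ^ 2 * |c|) * ∫ x, u x ^ 2 ∂μ := by ring
          _ ≤ (1 / 8) * ∫ x, u x ^ 2 ∂μ := mul_le_mul_of_nonneg_right hrc hQ0
      have hu0 := T5.eq_zero_of_net μ u r N hNpos ε herr' hεs t hnet (fun z hz => by
        have := congrFun h ⟨z, hz⟩
        exact this)
      exact Subtype.ext hu0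
    exact FiniteDimensional.of_injective (Φ.comp V.subtype) hinj
  refine ⟨hfd, ?_⟩
  intro g v hv
  have hclosed : IsClosed (V : Set C(M, ℝ)) := V.closed_of_finiteDimensional
  have hpre : IsClosed {g : G | mtrans g v ∈ V} := hclosed.preimage (T5.continuous_mtrans v)
  have hsub : (Γ : Set G) ⊆ {g : G | mtrans g v ∈ V} := by
    intro g hg
    rw [Set.mem_ofPred_eq, hV]
    have hv' := (hV v).mp hv
    refine ⟨hS g hg v hv'.1, fun w hw => ?_⟩
    have hw' : mtrans g⁻¹ w ∈ S := hS g⁻¹ (Γ.inv_mem hg) w hw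
    have e1 : w = mtrans g (mtrans g⁻¹ w) := by
      rw [T5.mtrans_mtrans, mul_inv_cancel, T5.mtrans_one]
    have e2 : ∀ x, B (mtrans g v) w x = B v (mtrans g⁻¹ w) (g⁻¹ • x) := by
      intro x
      conv_lhs => rw [e1]
      exact hBinv g hg v hv'.1 _ hw' x
    simp only [e2]
    rw [T5.int_smul μ hμ (fun x => B v (mtrans g⁻¹ w) x) g⁻¹, hv'.2 _ hw']
    congr 1
    rw [← T5.int_smul μ hμ (fun x => v x * (mtrans g⁻¹ w) x) g⁻¹]
    congr with x
    simp [mtrans]
  exact closure_minimal hsub hpre (hΓ g)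

end Pool.Agent.Helper33.Lap
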