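import Mathlib
import Pool.Agent.Helper33.Lap.Defs
import Pool.Agent.Helper33.Lap.Eigen

set_option linter.unusedSectionVars false

open MeasureTheory Module Filter Topology

namespace Pool.Agent.Helper33.Lap

namespace T5

variable {M : Type} [MetricSpace M] [CompactSpace M] [Nonempty M]
variable {G : Type} [Group G] [TopologicalSpace G] [IsTopologicalGroup G] [CompactSpace G]
  [T2Space G] [SecondCountableTopology G] [MeasurableSpace G] [BorelSpace G]
  [MulAction G M] [ContinuousSMul G M] [IsIsometricSMul G M]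

/-! ### translation as a linear map -/

theorem mtrans_apply (g : G) (u : C(M, ℝ)) (x : M) : mtrans g u x = u (g⁻¹ • x) := rfl

theorem cont_mtrans (u : C(M, ℝ)) : Continuous (fun g : G => mtrans g u) := by
  have : (fun g : G => mtrans g u) = ContinuousMap.curry
      ⟨fun p : G × M => u (p.1⁻¹ • p.2), by fun_prop⟩ := by
    ext g x; rfl
  rw [this]
  exact ContinuousMap.continuous _

theorem mtr_mtr (g h : G) (u : C(M, ℝ)) : mtrans g (mtrans h u) = mtrans (g * h) u := by
  ext x; simp [mtrans, mul_inv_rev, mul_smul]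

theorem mtr_one (u : C(M, ℝ)) : mtrans (1 : G) u = u := by
  ext x; simp [mtrans]

theorem norm_mtrans_le (g : G) (u : C(M, ℝ)) : ‖mtrans g u‖ ≤ ‖u‖ := by
  rw [ContinuousMap.norm_le _ (norm_nonneg _)]
  intro x
  exact u.norm_coe_le_norm _

/-- translation as an algebra homomorphism -/
noncomputable def mtA (g : G) : C(M, ℝ) →ₐ[ℝ] C(M, ℝ) where
  toFun u := mtrans g u
  map_one' := by ext x; rfl
  map_mul' u v := by ext x; rfl
  map_zero' := by ext x; rfl
  map_add' u v := by ext x; rfl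
  commutes' r := by ext x; rfl

/-- convolution -/
noncomputable def conv (ν : Measure G) (φ : C(G, ℝ)) (u : C(M, ℝ)) : C(M, ℝ) :=
  ∫ g, φ g • mtrans g u ∂ν

theorem conv_integrable (ν : Measure G) [IsFiniteMeasure ν] (φ : C(G, ℝ)) (u : C(M, ℝ)) :
    Integrable (fun g => φ g • mtrans g u) ν := by
  have hc : Continuous fun g : G => φ g • mtrans g u := φ.continuous.smul (cont_mtrans u)
  exact hc.integrable_of_hasCompactSupport (HasCompactSupport.of_compactSpace _)

theorem conv_apply (ν : Measure G) [IsFiniteMeasure ν] (φ : C(G, ℝ)) (u : C(M, ℝ)) (x : M) :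
    conv ν φ u x = ∫ g, φ g * u (g⁻¹ • x) ∂ν := by
  have := (ContinuousMap.evalCLM ℝ x : C(M, ℝ) →L[ℝ] ℝ).integral_comp_comm (conv_integrable ν φ u)
  exact this.symm

theorem conv_add_left (ν : Measure G) [IsFiniteMeasure ν] (φ φ' : C(G, ℝ)) (u : C(M, ℝ)) :
    conv ν (φ + φ') u = conv ν φ u + conv ν φ' u := by
  unfold conv
  rw [← integral_add (conv_integrable ν φ u) (conv_integrable ν φ' u)]
  congr with g
  simp [add_mul]

theorem conv_smul_left (ν : Measure G) [IsFiniteMeasure ν] (c : ℝ) (φ : C(G, ℝ)) (u : C(M, ℝ)) :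
    conv ν (c • φ) u = c • conv ν φ u := by
  unfold conv
  rw [← integral_smul]
  congr with g
  simp [mul_assoc]

theorem conv_add_right (ν : Measure G) [IsFiniteMeasure ν] (φ : C(G, ℝ)) (u v : C(M, ℝ)) :
    conv ν φ (u + v) = conv ν φ u + conv ν φ v := by
  unfold conv
  rw [← integral_add (conv_integrable ν φ u) (conv_integrable ν φ v)]
  congr with g
  simp [mtrans, mul_add]

theorem conv_smul_right (ν : Measure G) [IsFiniteMeasure ν] (c : ℝ) (φ : C(G, ℝ)) (u : C(M, ℝ)) :
    conv ν φ (c • u) = c • conv ν φ u := by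
  unfold conv
  rw [← integral_smul]
  congr with g
  simp [mtrans]
  ring

theorem norm_conv_le (ν : Measure G) [IsProbabilityMeasure ν] (φ : C(G, ℝ)) (u : C(M, ℝ)) :
    ‖conv ν φ u‖ ≤ ‖φ‖ * ‖u‖ := by
  unfold conv
  have h : ∀ g, ‖φ g • mtrans g u‖ ≤ ‖φ‖ * ‖u‖ := by
    intro g
    rw [norm_smul]
    exact mul_le_mul (φ.norm_coe_le_norm g) (norm_mtrans_le g u) (norm_nonneg _) (norm_nonneg _)
  have := norm_integral_le_of_norm_le_const (μ := ν) (Eventually.of_forall h)
  simpa using this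

/-- convolution as a continuous linear map in the first variable -/
noncomputable def convL (ν : Measure G) [IsProbabilityMeasure ν] (u : C(M, ℝ)) :
    C(G, ℝ) →L[ℝ] C(M, ℝ) :=
  LinearMap.mkContinuous
    { toFun := fun φ => conv ν φ u
      map_add' := fun φ φ' => conv_add_left ν φ φ' u
      map_smul' := fun c φ => conv_smul_left ν c φ u } ‖u‖ (fun φ => by
        rw [mul_comm]; exact norm_conv_le ν φ u)

/-- convolution as a continuous linear map in the second variable -/
noncomputable def convR (ν : Measure G) [IsProbabilityMeasure ν] (φ : C(G, ℝ)) :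
    C(M, ℝ) →L[ℝ] C(M, ℝ) :=
  LinearMap.mkContinuous
    { toFun := fun u => conv ν φ u
      map_add' := fun u v => conv_add_right ν φ u v
      map_smul' := fun c u => conv_smul_right ν c φ u } ‖φ‖ (fun u => norm_conv_le ν φ u)

theorem convL_apply (ν : Measure G) [IsProbabilityMeasure ν] (u : C(M, ℝ)) (φ : C(G, ℝ)) :
    convL ν u φ = conv ν φ u := rfl

theorem convR_apply (ν : Measure G) [IsProbabilityMeasure ν] (φ : C(G, ℝ)) (u : C(M, ℝ)) :
    convR ν φ u = conv ν φ u := rfl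

theorem mtrans_conv (ν : Measure G) [IsFiniteMeasure ν] [ν.IsMulLeftInvariant] (h : G)
    (φ : C(G, ℝ)) (u : C(M, ℝ)) : mtrans h (conv ν φ u) = conv ν (ltrans h φ) u := by
  ext x
  rw [mtrans_apply, conv_apply, conv_apply]
  rw [← integral_mul_left_eq_self (μ := ν) (fun g : G => φ g * u (g⁻¹ • h⁻¹ • x)) h⁻¹]
  congr with g
  show φ (h⁻¹ * g) * u ((h⁻¹ * g)⁻¹ • h⁻¹ • x) = (ltrans h φ) g * u (g⁻¹ • x)
  simp [ltrans, mul_inv_rev, mul_smul]

/-! ### G-finite functions form a subalgebra -/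

theorem GFinite.add {u v : C(M, ℝ)} (hu : GFinite G u) (hv : GFinite G v) : GFinite G (u + v) := by
  obtain ⟨V, h1, h2, h3⟩ := hu
  obtain ⟨W, k1, k2, k3⟩ := hv
  refine ⟨V ⊔ W, inferInstance, Submodule.add_mem_sup h2 k2, ?_⟩
  intro g w hw
  obtain ⟨a, ha, b, hb, rfl⟩ := Submodule.mem_sup.mp hw
  have : mtrans g (a + b) = mtrans g a + mtrans g b := map_add (mtA g) a b
  rw [this]
  exact Submodule.add_mem_sup (h3 g a ha) (k3 g b hb)

theorem GFinite.mul {u v : C(M, ℝ)} (hu : GFinite G u) (hv : GFinite G v) : GFinite G (u * v) := by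
  obtain ⟨V, h1, h2, h3⟩ := hu
  obtain ⟨W, k1, k2, k3⟩ := hv
  refine ⟨V * W, ?_, Submodule.mul_mem_mul h2 k2, ?_⟩
  · have a1 : V.FG := (Submodule.fg_iff_finiteDimensional V).mpr h1
    have a2 : W.FG := (Submodule.fg_iff_finiteDimensional W).mpr k1
    exact (Submodule.fg_iff_finiteDimensional _).mp (a1.mul a2)
  · intro g w hw
    induction hw using Submodule.mul_induction_on' with
    | mem_mul_mem a ha b hb =>
      have : mtrans g (a * b) = mtrans g a * mtrans g b := map_mul (mtA g) a b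
      rw [this]
      exact Submodule.mul_mem_mul (h3 g a ha) (k3 g b hb)
    | add x _ y _ hx hy =>
      have : mtrans g (x + y) = mtrans g x + mtrans g y := map_add (mtA g) x y
      rw [this]
      exact Submodule.add_mem _ hx hy

theorem GFinite.const (c : ℝ) : GFinite G (algebraMap ℝ C(M, ℝ) c) := by
  refine ⟨Submodule.span ℝ {1}, inferInstance, ?_, ?_⟩
  · rw [Algebra.algebraMap_eq_smul_one]
    exact Submodule.smul_mem _ _ (Submodule.mem_span_singleton_self _)
  · intro g v hv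
    obtain ⟨a, rfl⟩ := Submodule.mem_span_singleton.mp hv
    have h1 : mtrans g (a • (1 : C(M, ℝ))) = a • 1 := by
      have := map_smul (mtA g) a (1 : C(M, ℝ))
      rw [map_one] at this
      exact this
    rw [h1]
    exact Submodule.smul_mem _ _ (Submodule.mem_span_singleton_self _)

variable (M G) in
/-- The subalgebra of `G`-finite functions. -/
noncomputable def gfin : Subalgebra ℝ C(M, ℝ) where
  carrier := {u | GFinite G u}
  mul_mem' := fun hu hv => GFinite.mul hu hv
  add_mem' := fun hu hv => GFinite.add hu hv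
  algebraMap_mem' := fun c => GFinite.const c

theorem mem_gfin {u : C(M, ℝ)} : u ∈ gfin M G ↔ GFinite G u := Iff.rfl

/-- Left finite functions form a subspace. -/
noncomputable def lfin : Submodule ℝ C(G, ℝ) where
  carrier := {f | LeftFinite f}
  add_mem' := by
    rintro u v ⟨V, h1, h2, h3⟩ ⟨W, k1, k2, k3⟩
    refine ⟨V ⊔ W, inferInstance, Submodule.add_mem_sup h2 k2, ?_⟩
    intro g w hw
    obtain ⟨a, ha, b, hb, rfl⟩ := Submodule.mem_sup.mp hw
    have : ltrans g (a + b) = ltrans g a + ltrans g b := by ext x; rfl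
    rw [this]
    exact Submodule.add_mem_sup (h3 g a ha) (k3 g b hb)
  zero_mem' := ⟨⊥, inferInstance, Submodule.zero_mem _, by
    intro g v hv
    rw [Submodule.mem_bot] at hv ⊢
    rw [hv]; ext x; rfl⟩
  smul_mem' := by
    rintro c u ⟨V, h1, h2, h3⟩
    exact ⟨V, h1, V.smul_mem c h2, h3⟩

/-- convolution with a left finite function is `G`-finite -/
theorem gfinite_conv (ν : Measure G) [IsProbabilityMeasure ν] [ν.IsMulLeftInvariant]
    {φ : C(G, ℝ)} (hφ : LeftFinite φ) (u : C(M, ℝ)) : GFinite G (conv ν φ u) := by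
  obtain ⟨V, h1, h2, h3⟩ := hφ
  refine ⟨V.map (convL ν u).toLinearMap, inferInstance, ⟨φ, h2, rfl⟩, ?_⟩
  rintro g _ ⟨ψ, hψ, rfl⟩
  refine ⟨ltrans g ψ, h3 g ψ hψ, ?_⟩
  show conv ν (ltrans g ψ) u = mtrans g (conv ν ψ u)
  rw [mtrans_conv]

/-- approximate identity -/
theorem exists_approx (ν : Measure G) [IsProbabilityMeasure ν] [ν.IsOpenPosMeasure]
    (u : C(M, ℝ)) (ε : ℝ) (hε : 0 < ε) : ∃ φ : C(G, ℝ), ‖conv ν φ u - u‖ ≤ ε := by
  have hU : {g : G | ‖mtrans g u - u‖ < ε} ∈ 𝓝 (1 : G) := by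
    have hc : Continuous fun g : G => ‖mtrans g u - u‖ := ((cont_mtrans u).sub continuous_const).norm
    have ho : IsOpen {g : G | ‖mtrans g u - u‖ < ε} := isOpen_lt hc continuous_const
    refine ho.mem_nhds ?_
    show ‖mtrans (1 : G) u - u‖ < ε
    rw [mtr_one, sub_self, norm_zero]
    exact hε
  obtain ⟨U, hUsub, hUo, h1U⟩ := mem_nhds_iff.mp hU
  obtain ⟨f, hf0, hf1, hf01⟩ := exists_continuous_zero_one_of_isClosed (s := Uᶜ) (t := {(1 : G)})
    hUo.isClosed_compl isClosed_singleton (by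
      rw [Set.disjoint_singleton_right]; exact fun h => h h1U)
  have hfpos : 0 < ∫ g, f g ∂ν := by
    refine f.continuous.integral_pos_of_hasCompactSupport_nonneg_nonzero
      (HasCompactSupport.of_compactSpace _) (fun g => (hf01 g).1) (x := 1) ?_
    rw [hf1 rfl]
    exact one_ne_zero
  set I := ∫ g, f g ∂ν with hI
  refine ⟨I⁻¹ • f, ?_⟩
  have hfi : Integrable (fun g => f g) ν :=
    f.continuous.integrable_of_hasCompactSupport (HasCompactSupport.of_compactSpace _)
  have e : conv ν (I⁻¹ • f) u - u = ∫ g, (I⁻¹ * f g) • (mtrans g u - u) ∂ν := by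
    have e1 : ∀ g, (I⁻¹ * f g) • (mtrans g u - u) = (I⁻¹ • f) g • mtrans g u - (I⁻¹ * f g) • u := by
      intro g; rw [smul_sub]; rfl
    simp only [e1]
    rw [integral_sub (conv_integrable ν _ u) ((hfi.const_mul _).smul_const u)]
    congr 1
    rw [integral_smul_const, integral_const_mul, ← hI, inv_mul_cancel₀ hfpos.ne', one_smul]
  rw [e]
  have hb : ∀ g, ‖(I⁻¹ * f g) • (mtrans g u - u)‖ ≤ (I⁻¹ * f g) * ε := by
    intro g
    rw [norm_smul, Real.norm_eq_abs, abs_of_nonneg (mul_nonneg (inv_nonneg.mpr hfpos.le) (hf01 g).1)]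
    by_cases hg : g ∈ U
    · exact mul_le_mul_of_nonneg_left (le_of_lt (hUsub hg))
        (mul_nonneg (inv_nonneg.mpr hfpos.le) (hf01 g).1)
    · have : f g = 0 := hf0 hg
      simp [this]
  refine (norm_integral_le_of_norm_le ((hfi.const_mul _).mul_const ε) (Eventually.of_forall hb)).trans ?_
  rw [integral_mul_const, integral_const_mul, ← hI, inv_mul_cancel₀ hfpos.ne', one_mul]

/-- `G`-finite functions are dense. -/
theorem gfin_dense (ν : Measure G) [IsProbabilityMeasure ν] [ν.IsMulLeftInvariant]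
    [ν.IsOpenPosMeasure] (hPW : Dense {f : C(G, ℝ) | LeftFinite f}) (u : C(M, ℝ)) (ε : ℝ)
    (hε : 0 < ε) : ∃ v : C(M, ℝ), GFinite G v ∧ ‖v - u‖ ≤ ε := by
  obtain ⟨φ, hφ⟩ := exists_approx ν u (ε / 2) (by positivity)
  obtain ⟨ψ, hψ, hd⟩ := Metric.dense_iff.mp hPW φ (ε / (2 * (1 + ‖u‖))) (by positivity)
  refine ⟨conv ν ψ u, gfinite_conv ν hd u, ?_⟩
  have h1 : conv ν ψ u - conv ν φ u = conv ν (ψ - φ) u := by
    have := map_sub (convL ν u) ψ φ
    simpa [convL_apply] using this.symm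
  have h2 : ‖conv ν ψ u - conv ν φ u‖ ≤ ε / 2 := by
    rw [h1]
    refine (norm_conv_le ν _ u).trans ?_
    rw [Metric.mem_ball, dist_eq_norm] at hψ
    have h3 : 0 ≤ ‖u‖ := norm_nonneg u
    calc ‖ψ - φ‖ * ‖u‖ ≤ (ε / (2 * (1 + ‖u‖))) * ‖u‖ := mul_le_mul_of_nonneg_right hψ.le h3
      _ ≤ (ε / (2 * (1 + ‖u‖))) * (1 + ‖u‖) := mul_le_mul_of_nonneg_left (by linarith) (by positivity)
      _ = ε / 2 := by field_simp
  calc ‖conv ν ψ u - u‖ = ‖(conv ν ψ u - conv ν φ u) + (conv ν φ u - u)‖ := by congr 1; abel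
    _ ≤ ‖conv ν ψ u - conv ν φ u‖ + ‖conv ν φ u - u‖ := norm_add_le _ _
    _ ≤ ε / 2 + ε / 2 := add_le_add h2 hφ
    _ = ε := by ring

end T5

end Pool.Agent.Helper33.Lap
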