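import Mathlib
import Pool.Agent.Helper33.Lap.Conv

set_option linter.unusedSectionVars false

open MeasureTheory Module Filter Topology

namespace Pool.Agent.Helper33.Lap

namespace T5

variable {M : Type} [MetricSpace M] [CompactSpace M] [Nonempty M]
variable {G : Type} [Group G] [TopologicalSpace G] [IsTopologicalGroup G] [CompactSpace G]
  [T2Space G] [SecondCountableTopology G] [MeasurableSpace G] [BorelSpace G]
  [MulAction G M] [ContinuousSMul G M] [IsIsometricSMul G M]

/-- a finite family of `G`-finite functions lies in a finite dimensional stable subspace -/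
theorem exists_common (s : Set C(M, ℝ)) (hs : s.Finite) (h : ∀ u ∈ s, GFinite G u) :
    ∃ W : Submodule ℝ C(M, ℝ), FiniteDimensional ℝ W ∧ s ⊆ W ∧ ∀ g : G, ∀ v ∈ W, mtrans g v ∈ W := by
  induction s, hs using Set.Finite.induction_on with
  | empty =>
    refine ⟨⊥, inferInstance, Set.empty_subset _, ?_⟩
    intro g v hv
    rw [Submodule.mem_bot] at hv ⊢
    rw [hv]; ext x; rfl
  | insert _ _ ih =>
    rename_i a t _ _
    obtain ⟨W, h1, h2, h3⟩ := ih (fun u hu => h u (Set.mem_insert_of_mem _ hu))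
    obtain ⟨V, k1, k2, k3⟩ := h a (Set.mem_insert _ _)
    refine ⟨V ⊔ W, inferInstance, ?_, ?_⟩
    · intro u hu
      rcases Set.mem_insert_iff.mp hu with rfl | hu
      · exact Submodule.mem_sup_left k2
      · exact Submodule.mem_sup_right (h2 hu)
    · intro g w hw
      obtain ⟨a, ha, b, hb, rfl⟩ := Submodule.mem_sup.mp hw
      have : mtrans g (a + b) = mtrans g a + mtrans g b := map_add (mtA g) a b
      rw [this]
      exact Submodule.add_mem_sup (k3 g a ha) (h3 g b hb)

/-- convolution preserves finite dimensional stable subspaces -/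
theorem conv_mem (ν : Measure G) [IsProbabilityMeasure ν] (φ : C(G, ℝ)) (V : Submodule ℝ C(M, ℝ))
    [FiniteDimensional ℝ V] (hV : ∀ g : G, ∀ v ∈ V, mtrans g v ∈ V) (u : C(M, ℝ)) (hu : u ∈ V) :
    conv ν φ u ∈ V := by
  have hc : IsClosed (V : Set C(M, ℝ)) := V.closed_of_finiteDimensional
  have hconv : Convex ℝ (V : Set C(M, ℝ)) := V.convex
  exact hconv.integral_mem hc (Eventually.of_forall fun g => V.smul_mem _ (hV g u hu))
    (conv_integrable ν φ u)

/-- for `f` in a finite dimensional stable subspace there is a left finite `φ` with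
`conv φ f = f` -/
theorem exists_unit (ν : Measure G) [IsProbabilityMeasure ν] [ν.IsMulLeftInvariant]
    [ν.IsOpenPosMeasure] (hPW : Dense {f : C(G, ℝ) | LeftFinite f}) (f : C(M, ℝ))
    (hf : GFinite G f) : ∃ φ : C(G, ℝ), LeftFinite φ ∧ conv ν φ f = f := by
  obtain ⟨V, h1, h2, h3⟩ := hf
  set R : Submodule ℝ C(M, ℝ) := (lfin (G := G)).map (convL ν f).toLinearMap with hR
  have hRV : R ≤ V := by
    rintro _ ⟨φ, _, rfl⟩
    exact conv_mem ν φ V h3 f h2
  have hRf : FiniteDimensional ℝ R := Submodule.finiteDimensional_of_le hRV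
  have hRc : IsClosed (R : Set C(M, ℝ)) := R.closed_of_finiteDimensional
  have hmem : f ∈ closure (R : Set C(M, ℝ)) := by
    rw [Metric.mem_closure_iff]
    intro ε hε
    obtain ⟨φ, hφ⟩ := exists_approx ν f (ε / 3) (by positivity)
    obtain ⟨ψ, hψ, hd⟩ := Metric.dense_iff.mp hPW φ (ε / (3 * (1 + ‖f‖))) (by positivity)
    refine ⟨conv ν ψ f, ⟨ψ, hd, rfl⟩, ?_⟩
    have h1 : conv ν ψ f - conv ν φ f = conv ν (ψ - φ) f := by
      have := map_sub (convL ν f) ψ φ
      simpa [convL_apply] using this.symm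
    have h2 : ‖conv ν ψ f - conv ν φ f‖ ≤ ε / 3 := by
      rw [h1]
      refine (norm_conv_le ν _ f).trans ?_
      rw [Metric.mem_ball, dist_eq_norm] at hψ
      have h3 : 0 ≤ ‖f‖ := norm_nonneg f
      calc ‖ψ - φ‖ * ‖f‖ ≤ (ε / (3 * (1 + ‖f‖))) * ‖f‖ := mul_le_mul_of_nonneg_right hψ.le h3
        _ ≤ (ε / (3 * (1 + ‖f‖))) * (1 + ‖f‖) := mul_le_mul_of_nonneg_left (by linarith) (by positivity)
        _ = ε / 3 := by field_simp
    rw [dist_comm, dist_eq_norm]
    calc ‖conv ν ψ f - f‖ = ‖(conv ν ψ f - conv ν φ f) + (conv ν φ f - f)‖ := by congr 1; abel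
      _ ≤ ‖conv ν ψ f - conv ν φ f‖ + ‖conv ν φ f - f‖ := norm_add_le _ _
      _ ≤ ε / 3 + ε / 3 := add_le_add h2 hφ
      _ < ε := by linarith
  rw [hRc.closure_eq] at hmem
  obtain ⟨φ, hφ, hφf⟩ := hmem
  exact ⟨φ, hφ, hφf⟩

/-- convolution with a left finite function has finite rank -/
theorem finite_rank (ν : Measure G) [IsProbabilityMeasure ν] [ν.IsMulLeftInvariant]
    (htrans : ∀ x y : M, ∃ g : G, g • x = y) (φ : C(G, ℝ)) (hφ : LeftFinite φ) :
    FiniteDimensional ℝ (LinearMap.range (convR (M := M) ν φ).toLinearMap) := by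
  obtain ⟨V, h1, h2, h3⟩ := hφ
  obtain ⟨x₀⟩ := ‹Nonempty M›
  have hne : Nonempty M := ⟨x₀⟩
  let β : C(M, ℝ) →ₗ[ℝ] (V →ₗ[ℝ] ℝ) :=
    { toFun := fun u =>
        { toFun := fun ξ => conv ν (ξ : C(G, ℝ)) u x₀
          map_add' := fun ξ η => by
            have := conv_add_left ν (ξ : C(G, ℝ)) (η : C(G, ℝ)) u
            show conv ν ((ξ : C(G, ℝ)) + (η : C(G, ℝ))) u x₀ = _
            rw [this]; rfl
          map_smul' := fun c ξ => by
            have := conv_smul_left ν c (ξ : C(G, ℝ)) u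
            show conv ν (c • (ξ : C(G, ℝ))) u x₀ = _
            rw [this]; rfl }
      map_add' := fun u v => by
        ext ξ
        show conv ν (ξ : C(G, ℝ)) (u + v) x₀ = _
        rw [conv_add_right]; rfl
      map_smul' := fun c u => by
        ext ξ
        show conv ν (ξ : C(G, ℝ)) (c • u) x₀ = _
        rw [conv_smul_right]; rfl }
  have hker : LinearMap.ker β ≤ LinearMap.ker (convR (M := M) ν φ).toLinearMap := by
    intro u hu
    rw [LinearMap.mem_ker] at hu ⊢
    ext y
    obtain ⟨h, rfl⟩ := htrans x₀ y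
    have e1 : conv ν φ u (h • x₀) = conv ν (ltrans h⁻¹ φ) u x₀ := by
      rw [← mtrans_conv, mtrans_apply, inv_inv]
    show conv ν φ u (h • x₀) = 0
    rw [e1]
    have := LinearMap.congr_fun hu ⟨ltrans h⁻¹ φ, h3 h⁻¹ φ h2⟩
    exact this
  -- factor through the quotient
  have hrb : FiniteDimensional ℝ (LinearMap.range β) := inferInstance
  have hq : FiniteDimensional ℝ (C(M, ℝ) ⧸ LinearMap.ker β) :=
    Module.Finite.equiv β.quotKerEquivRange.symm
  let L : (C(M, ℝ) ⧸ LinearMap.ker β) →ₗ[ℝ] C(M, ℝ) :=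
    (LinearMap.ker β).liftQ (convR (M := M) ν φ).toLinearMap hker
  have hrange : LinearMap.range (convR (M := M) ν φ).toLinearMap = LinearMap.range L := by
    rw [Submodule.range_liftQ]
  rw [hrange]
  infer_instance

/-- A finite dimensional stable subspace separating points generates the `G`-finite functions. -/
theorem adjoin_eq (ν : Measure G) [IsProbabilityMeasure ν] [ν.IsMulLeftInvariant]
    [ν.IsOpenPosMeasure] (hPW : Dense {f : C(G, ℝ) | LeftFinite f})
    (htrans : ∀ x y : M, ∃ g : G, g • x = y)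
    (W : Submodule ℝ C(M, ℝ)) [FiniteDimensional ℝ W] (hW : ∀ g : G, ∀ v ∈ W, mtrans g v ∈ W)
    (hsep : ∀ x y : M, (∀ w ∈ W, w x = w y) → x = y) :
    ∃ A : Subalgebra ℝ C(M, ℝ), A.FG ∧ ∀ u, u ∈ A ↔ GFinite G u := by
  obtain ⟨t, ht⟩ : (W : Submodule ℝ C(M, ℝ)).FG := (Submodule.fg_iff_finiteDimensional W).mpr inferInstance
  set A : Subalgebra ℝ C(M, ℝ) := Algebra.adjoin ℝ (t : Set C(M, ℝ)) with hA
  have hWA : (W : Set C(M, ℝ)) ⊆ A := by
    intro w hw
    have : W ≤ Subalgebra.toSubmodule A := by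
      rw [← ht, Submodule.span_le]
      exact Algebra.subset_adjoin
    exact this hw
  have hAg : A ≤ gfin M G := by
    rw [hA, Algebra.adjoin_le_iff]
    intro u hu
    have huW : u ∈ W := by rw [← ht]; exact Submodule.subset_span hu
    exact ⟨W, inferInstance, huW, hW⟩
  have hAst : ∀ g : G, ∀ u ∈ A, mtrans g u ∈ A := by
    intro g u hu
    have h1 : A.map (mtA g) ≤ A := by
      rw [hA, AlgHom.map_adjoin, Algebra.adjoin_le_iff]
      rintro _ ⟨u, hu, rfl⟩
      have huW : u ∈ W := by rw [← ht]; exact Submodule.subset_span hu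
      exact hWA (hW g u huW)
    exact h1 ⟨u, hu, rfl⟩
  have hdense : A.topologicalClosure = ⊤ := by
    apply ContinuousMap.subalgebra_topologicalClosure_eq_top_of_separatesPoints
    intro x y hxy
    by_contra hcon
    push Not at hcon
    apply hxy
    apply hsep
    intro w hw
    by_contra hne
    exact hne (hcon w ⟨w, hWA hw, rfl⟩)
  refine ⟨A, ⟨t, rfl⟩, fun u => ⟨fun h => hAg h, fun h => ?_⟩⟩
  obtain ⟨φ, hφ, hφu⟩ := exists_unit ν hPW u h
  -- image of A under convolution
  have hfr := finite_rank (M := M) ν htrans φ hφ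
  set Q : Submodule ℝ C(M, ℝ) := (Subalgebra.toSubmodule A).map (convR (M := M) ν φ).toLinearMap with hQ
  have hQf : FiniteDimensional ℝ Q :=
    Submodule.finiteDimensional_of_le (S₂ := LinearMap.range (convR (M := M) ν φ).toLinearMap)
      (LinearMap.map_le_range)
  have hQc : IsClosed (Q : Set C(M, ℝ)) := Q.closed_of_finiteDimensional
  have hQA : (Q : Set C(M, ℝ)) ⊆ A := by
    rintro _ ⟨p, hp, rfl⟩
    -- p lies in a finite dimensional stable subspace of A
    obtain ⟨V, k1, k2, k3⟩ := hAg hp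
    have hV' : ∀ g : G, ∀ v ∈ V ⊓ Subalgebra.toSubmodule A, mtrans g v ∈ V ⊓ Subalgebra.toSubmodule A :=
      fun g v hv => ⟨k3 g v hv.1, hAst g v hv.2⟩
    have hfd : FiniteDimensional ℝ (V ⊓ Subalgebra.toSubmodule A : Submodule ℝ C(M, ℝ)) :=
      Submodule.finiteDimensional_of_le inf_le_left
    exact (conv_mem ν φ (V ⊓ Subalgebra.toSubmodule A) hV' p ⟨k2, hp⟩).2
  have hmem : u ∈ closure (Q : Set C(M, ℝ)) := by
    have h1 : u ∈ closure (A : Set C(M, ℝ)) := by
      have : u ∈ A.topologicalClosure := by rw [hdense]; trivial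
      exact this
    have h2 := map_mem_closure (convR (M := M) ν φ).continuous h1 (t := (Q : Set C(M, ℝ)))
      (fun p hp => ⟨p, hp, rfl⟩)
    rw [convR_apply, hφu] at h2
    exact h2
  rw [hQc.closure_eq] at hmem
  exact hQA hmem

/-- Passing from local to global separation. -/
theorem exists_sep (ν : Measure G) [IsProbabilityMeasure ν] [ν.IsMulLeftInvariant]
    [ν.IsOpenPosMeasure] (hPW : Dense {f : C(G, ℝ) | LeftFinite f})
    (htrans : ∀ x y : M, ∃ g : G, g • x = y)
    (W : Submodule ℝ C(M, ℝ)) [FiniteDimensional ℝ W] (hW : ∀ g : G, ∀ v ∈ W, mtrans g v ∈ W)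
    (x₀ : M) (hloc : ∀ᶠ y in 𝓝 x₀, (∀ w ∈ W, w y = w x₀) → y = x₀) :
    ∃ W' : Submodule ℝ C(M, ℝ), FiniteDimensional ℝ W' ∧ (∀ g : G, ∀ v ∈ W', mtrans g v ∈ W') ∧
      ∀ x y : M, (∀ w ∈ W', w x = w y) → x = y := by
  obtain ⟨r, hr, hball⟩ := Metric.eventually_nhds_iff.mp hloc
  have hloc' : ∀ x y : M, dist x y < r → (∀ w ∈ W, w x = w y) → x = y := by
    intro x y hxy h
    obtain ⟨g, hg⟩ := htrans y x₀
    have h1 := hball (y := g • x) (by rw [← hg, dist_smul]; exact hxy) (by
      intro w hw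
      rw [← hg]
      have := h _ (hW g⁻¹ w hw)
      rw [mtrans_apply, mtrans_apply, inv_inv] at this
      exact this)
    rw [← hg] at h1
    exact smul_left_cancel g h1
  -- the compact set of far pairs
  set K : Set (M × M) := {p | r ≤ dist p.1 p.2} with hK
  have hKc : IsCompact K := (isClosed_le continuous_const (by fun_prop)).isCompact
  have hcover : K ⊆ ⋃ u : {u : C(M, ℝ) // GFinite G u}, {p : M × M | u.1 p.1 ≠ u.1 p.2} := by
    intro p hp
    have hne : p.1 ≠ p.2 := by
      intro h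
      rw [hK, Set.mem_ofPred_eq, h, dist_self] at hp
      linarith
    have hfc : Continuous fun x : M => dist x p.1 := by fun_prop
    obtain ⟨v, hv, hvd⟩ := gfin_dense ν hPW (⟨fun x => dist x p.1, hfc⟩ : C(M, ℝ))
      (dist p.2 p.1 / 3) (by have := dist_pos.mpr hne.symm; positivity)
    refine Set.mem_iUnion.mpr ⟨⟨v, hv⟩, ?_⟩
    intro heq
    have e1 := (ContinuousMap.norm_coe_le_norm (v - (⟨fun x => dist x p.1, hfc⟩ : C(M, ℝ))) p.1).trans hvd
    have e2 := (ContinuousMap.norm_coe_le_norm (v - (⟨fun x => dist x p.1, hfc⟩ : C(M, ℝ))) p.2).trans hvd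
    simp only [ContinuousMap.sub_apply, ContinuousMap.coe_mk, dist_self, sub_zero,
      Real.norm_eq_abs] at e1 e2
    have heq' : v p.1 = v p.2 := heq
    rw [← heq'] at e2
    have hpos := dist_pos.mpr hne.symm
    rw [abs_le] at e1 e2
    linarith [e1.1, e1.2, e2.1, e2.2]
  obtain ⟨t, ht⟩ := hKc.elim_finite_subcover _ (fun u =>
    isOpen_ne_fun (u.1.continuous.comp continuous_fst) (u.1.continuous.comp continuous_snd)) hcover
  obtain ⟨W₂, k1, k2, k3⟩ := exists_common (G := G) (Subtype.val '' (t : Set {u : C(M, ℝ) // GFinite G u}))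
    (t.finite_toSet.image _) (by rintro _ ⟨u, _, rfl⟩; exact u.2)
  refine ⟨W ⊔ W₂, inferInstance, ?_, ?_⟩
  · intro g w hw
    obtain ⟨a, ha, b, hb, rfl⟩ := Submodule.mem_sup.mp hw
    have : mtrans g (a + b) = mtrans g a + mtrans g b := map_add (mtA g) a b
    rw [this]
    exact Submodule.add_mem_sup (hW g a ha) (k3 g b hb)
  · intro x y h
    by_cases hxy : dist x y < r
    · exact hloc' x y hxy fun w hw => h w (Submodule.mem_sup_left hw)
    · exfalso
      have hmem := ht (show (x, y) ∈ K from not_lt.mp hxy)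
      simp only [Set.mem_iUnion] at hmem
      obtain ⟨u, hu, hne⟩ := hmem
      exact hne (h u.1 (Submodule.mem_sup_right (k2 ⟨u, hu, rfl⟩)))

end T5

end Pool.Agent.Helper33.Lap
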