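import Mathlib
import Pool.Agent.Helper33.Lap.Alg

set_option linter.unusedSectionVars false

open MeasureTheory Module Filter Topology
open scoped NNReal

namespace Pool.Agent.Helper33.Lap

namespace T5

/-- A bounded measurable function orthogonal to all continuous functions vanishes. -/
theorem ae_zero_of_forall {G : Type} [TopologicalSpace G] [CompactSpace G] [T2Space G]
    [MeasurableSpace G] [BorelSpace G] (ν : Measure G) [IsFiniteMeasure ν] [ν.WeaklyRegular]
    (u : G → ℝ) (hu : Measurable u) (C : ℝ) (hC : ∀ g, |u g| ≤ C)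
    (h : ∀ φ : C(G, ℝ), ∫ g, φ g * u g ∂ν = 0) : u =ᵐ[ν] 0 := by
  have hui : Integrable u ν := Integrable.of_bound hu.aestronglyMeasurable C (Eventually.of_forall hC)
  have hC0 : 0 ≤ C ∨ IsEmpty G := by
    rcases isEmpty_or_nonempty G with h | ⟨⟨g⟩⟩
    · exact Or.inr h
    · exact Or.inl ((abs_nonneg _).trans (hC g))
  rcases hC0 with hC0 | hE
  swap
  · exact Eventually.of_forall fun g => (hE.false g).elim
  have hu2i : Integrable (fun g => u g * u g) ν :=
    hui.bdd_mul hu.aestronglyMeasurable (Eventually.of_forall hC)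
  have hle : ∫ g, u g * u g ∂ν ≤ 0 := by
    apply le_of_forall_pos_le_add
    intro ε hε
    obtain ⟨φ, hφ, hφi⟩ := hui.exists_boundedContinuous_integral_sub_le
      (ε := ε / (1 + C)) (by positivity)
    have h0 := h φ.toContinuousMap
    have hφu : Integrable (fun g => φ g * u g) ν :=
      hφi.mul_bdd (c := C) hu.aestronglyMeasurable (Eventually.of_forall hC)
    have e1 : ∫ g, u g * u g ∂ν = ∫ g, (u g - φ g) * u g ∂ν := by
      have : ∀ g, (u g - φ g) * u g = u g * u g - φ g * u g := fun g => by ring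
      simp only [this]
      rw [integral_sub hu2i hφu]
      have h0' : ∫ g, φ g * u g ∂ν = 0 := h0
      rw [h0', sub_zero]
    rw [e1, zero_add]
    calc ∫ g, (u g - φ g) * u g ∂ν ≤ ∫ g, ‖u g - φ g‖ * C ∂ν := by
          refine integral_mono ?_ ((hui.sub hφi).norm.mul_const C) ?_
          · exact (hui.sub hφi).mul_bdd (c := C) hu.aestronglyMeasurable (Eventually.of_forall hC)
          · intro g
            show (u g - φ g) * u g ≤ ‖u g - φ g‖ * C
            calc (u g - φ g) * u g ≤ |(u g - φ g) * u g| := le_abs_self _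
              _ = |u g - φ g| * |u g| := abs_mul _ _
              _ ≤ ‖u g - φ g‖ * C := mul_le_mul_of_nonneg_left (hC g) (abs_nonneg _)
      _ = (∫ g, ‖u g - φ g‖ ∂ν) * C := integral_mul_const _ _
      _ ≤ (ε / (1 + C)) * C := mul_le_mul_of_nonneg_right hφ hC0
      _ ≤ (ε / (1 + C)) * (1 + C) := mul_le_mul_of_nonneg_left (by linarith) (by positivity)
      _ = ε := by field_simp
  have hge : 0 ≤ ∫ g, u g * u g ∂ν := integral_nonneg fun g => mul_self_nonneg _
  have h0 : ∫ g, u g * u g ∂ν = 0 := le_antisymm hle hge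
  rw [integral_eq_zero_iff_of_nonneg (fun g => mul_self_nonneg _) hu2i] at h0
  filter_upwards [h0] with g hg
  have : u g * u g = 0 := hg
  exact mul_self_eq_zero.mp this

/-- Rademacher with a parameter: one point of differentiability for almost all parameters. -/
theorem rad_point {G : Type} [TopologicalSpace G] [MeasurableSpace G] [BorelSpace G]
    [SecondCountableTopology G]
    (ν : Measure G) [IsFiniteMeasure ν]
    {E : Type} [NormedAddCommGroup E] [NormedSpace ℝ E] [FiniteDimensional ℝ E]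
    [MeasurableSpace E] [BorelSpace E]
    (H : G → E → E) (hH : Continuous (Function.uncurry H)) (C : ℝ≥0) (z₁ : E) (ρ : ℝ) (hρ : 0 < ρ)
    (hL : ∀ g, LipschitzOnWith C (H g) (Metric.ball z₁ ρ)) :
    ∃ z₀ ∈ Metric.ball z₁ ρ, ∀ᵐ g ∂ν, DifferentiableAt ℝ (H g) z₀ := by
  have hm : MeasurableSet {p : G × E | p.2 ∈ Metric.ball z₁ ρ → DifferentiableAt ℝ (H p.1) p.2} := by
    have h1 : MeasurableSet {p : G × E | DifferentiableAt ℝ (H p.1) p.2} :=
      measurableSet_of_differentiableAt_with_param ℝ hH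
    have h2 : MeasurableSet {p : G × E | p.2 ∈ Metric.ball z₁ ρ} :=
      measurable_snd Metric.isOpen_ball.measurableSet
    have h3 : {p : G × E | p.2 ∈ Metric.ball z₁ ρ → DifferentiableAt ℝ (H p.1) p.2} =
        {p : G × E | p.2 ∈ Metric.ball z₁ ρ}ᶜ ∪ {p : G × E | DifferentiableAt ℝ (H p.1) p.2} := by
      ext p
      simp only [Set.mem_ofPred_eq, Set.mem_union, Set.mem_compl_iff, imp_iff_not_or]
    rw [h3]
    exact h2.compl.union h1
  have h1 : ∀ᵐ g ∂ν, ∀ᵐ z ∂(Measure.addHaar : Measure E),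
      z ∈ Metric.ball z₁ ρ → DifferentiableAt ℝ (H g) z := by
    refine Eventually.of_forall fun g => ?_
    filter_upwards [(hL g).ae_differentiableWithinAt_of_mem (μ := Measure.addHaar)] with z hz hzb
    exact (hz hzb).differentiableAt (Metric.isOpen_ball.mem_nhds hzb)
  rw [Measure.ae_ae_comm hm] at h1
  by_contra hcon
  push Not at hcon
  have h2 : ∀ᵐ z ∂(Measure.addHaar : Measure E), z ∉ Metric.ball z₁ ρ := by
    filter_upwards [h1] with z hz hzb
    refine hcon z hzb ?_
    filter_upwards [hz] with g hg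
    exact not_not.mpr (hg hzb)
  have h3 : (Measure.addHaar : Measure E) (Metric.ball z₁ ρ) = 0 := by
    rw [ae_iff] at h2
    have e : {a : E | ¬ a ∉ Metric.ball z₁ ρ} = Metric.ball z₁ ρ := by
      ext a; exact not_not
    rw [e] at h2
    exact h2
  exact (Metric.measure_ball_pos (Measure.addHaar : Measure E) z₁ hρ).ne' h3

/-- radial retraction onto a closed ball -/
noncomputable def retr {E : Type} [NormedAddCommGroup E] [NormedSpace ℝ E] (z₁ : E) (ρ : ℝ) (z : E) : E :=
  z₁ + (ρ / max ρ ‖z - z₁‖) • (z - z₁)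

theorem retr_cont {E : Type} [NormedAddCommGroup E] [NormedSpace ℝ E] (z₁ : E) {ρ : ℝ} (hρ : 0 < ρ) :
    Continuous (retr z₁ ρ) := by
  unfold retr
  have h : ∀ z : E, max ρ ‖z - z₁‖ ≠ 0 := fun z => (lt_max_of_lt_left hρ).ne'
  have h1 : Continuous fun z : E => ρ / max ρ ‖z - z₁‖ :=
    Continuous.div continuous_const (by fun_prop) h
  fun_prop

theorem retr_mem {E : Type} [NormedAddCommGroup E] [NormedSpace ℝ E] (z₁ : E) {ρ : ℝ} (hρ : 0 < ρ)
    (z : E) : retr z₁ ρ z ∈ Metric.closedBall z₁ ρ := by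
  have hm : 0 < max ρ ‖z - z₁‖ := lt_max_of_lt_left hρ
  rw [mem_closedBall_iff_norm]
  unfold retr
  rw [add_sub_cancel_left, norm_smul, Real.norm_eq_abs, abs_of_pos (div_pos hρ hm), div_mul_eq_mul_div,
    div_le_iff₀ hm]
  exact mul_le_mul_of_nonneg_left (le_max_right _ _) hρ.le

theorem retr_eq {E : Type} [NormedAddCommGroup E] [NormedSpace ℝ E] (z₁ : E) {ρ : ℝ} (hρ : 0 < ρ)
    {z : E} (hz : z ∈ Metric.ball z₁ ρ) : retr z₁ ρ z = z := by
  rw [mem_ball_iff_norm] at hz
  unfold retr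
  rw [max_eq_left hz.le, div_self hρ.ne', one_smul, add_sub_cancel]

/-- Finitely many functions, differentiable at `z₀`, separate `z₀` from nearby points when the
common kernel of the derivatives of a family is zero. -/
theorem local_sep {E : Type} [NormedAddCommGroup E] [NormedSpace ℝ E] [FiniteDimensional ℝ E]
    (R : Set (E → ℝ)) (z₀ : E) (hR : ∀ w ∈ R, DifferentiableAt ℝ w z₀)
    (hker : ∀ v : E, (∀ w ∈ R, fderiv ℝ w z₀ v = 0) → v = 0) :
    ∃ s : Set (E → ℝ), s.Finite ∧ s ⊆ R ∧ ∀ᶠ z in 𝓝 z₀, (∀ w ∈ s, w z = w z₀) → z = z₀ := by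
  classical
  set T : Set (E →L[ℝ] ℝ) := (fun w => fderiv ℝ w z₀) '' R with hT
  obtain ⟨s', hs', hspan⟩ :=
    (Submodule.fg_span_iff_fg_span_finset_subset T).mp (IsNoetherian.noetherian (Submodule.span ℝ T))
  have hex : ∀ t ∈ (s' : Set (E →L[ℝ] ℝ)), ∃ w : E → ℝ, w ∈ R ∧ fderiv ℝ w z₀ = t := fun t ht => hs' ht
  choose! f hf using hex
  refine ⟨f '' s', s'.finite_toSet.image _, ?_, ?_⟩
  · rintro _ ⟨t, ht, rfl⟩
    exact (hf t ht).1
  have hΦ : HasFDerivAt (fun z => fun t : s' => f t z)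
      (ContinuousLinearMap.pi fun t : s' => (t : E →L[ℝ] ℝ)) z₀ := by
    rw [hasFDerivAt_pi]
    intro t
    have h1 := hf t t.2
    have h2 := (hR _ h1.1).hasFDerivAt
    rw [h1.2] at h2
    exact h2
  have hinj : Function.Injective (ContinuousLinearMap.pi fun t : s' => (t : E →L[ℝ] ℝ)) := by
    rw [injective_iff_map_eq_zero]
    intro v hv
    apply hker
    intro w hw
    have h1 : fderiv ℝ w z₀ ∈ Submodule.span ℝ (s' : Set (E →L[ℝ] ℝ)) := by
      rw [← hspan]
      exact Submodule.subset_span ⟨w, hw, rfl⟩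
    generalize fderiv ℝ w z₀ = t₀ at h1
    induction h1 using Submodule.span_induction with
    | mem t ht => exact congrFun hv ⟨t, ht⟩
    | zero => rfl
    | add x y _ _ hx hy => rw [_root_.add_apply, hx, hy, add_zero]
    | smul a x _ hx => rw [_root_.smul_apply, hx, smul_zero]
  have hanti : ∃ C, AntilipschitzWith C (ContinuousLinearMap.pi fun t : s' => (t : E →L[ℝ] ℝ)) := by
    obtain ⟨C, _, hC⟩ := (LinearMap.injective_iff_antilipschitz
      (ContinuousLinearMap.pi fun t : s' => (t : E →L[ℝ] ℝ)).toLinearMap).mp hinj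
    exact ⟨C, hC⟩
  have hev := hΦ.eventually_ne (c := fun t : s' => f t z₀) hanti
  rw [eventually_nhdsWithin_iff] at hev
  filter_upwards [hev] with z hz hall
  by_contra hne
  exact hz hne (funext fun t => hall _ ⟨t, t.2, rfl⟩)

variable {M : Type} [MetricSpace M] [CompactSpace M] [Nonempty M]
variable {G : Type} [Group G] [TopologicalSpace G] [IsTopologicalGroup G] [CompactSpace G]
  [T2Space G] [SecondCountableTopology G] [MeasurableSpace G] [BorelSpace G]
  [MulAction G M] [ContinuousSMul G M] [IsIsometricSMul G M]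

/-- The Rademacher argument. -/
theorem exists_loc (ν : Measure G) [IsProbabilityMeasure ν] [ν.IsMulLeftInvariant]
    [ν.IsOpenPosMeasure] [ν.WeaklyRegular] (hPW : Dense {f : C(G, ℝ) | LeftFinite f})
    (htrans : ∀ x y : M, ∃ g : G, g • x = y)
    {E : Type} [NormedAddCommGroup E] [NormedSpace ℝ E] [FiniteDimensional ℝ E]
    (ψ : OpenPartialHomeomorph M E) (K : ℝ) (hK : 0 < K) (hne : ψ.source.Nonempty)
    (hψ : ∀ y ∈ ψ.source, ∀ z ∈ ψ.source, dist y z ≤ K * ‖ψ y - ψ z‖ ∧ ‖ψ y - ψ z‖ ≤ K * dist y z) :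
    ∃ W : Submodule ℝ C(M, ℝ), FiniteDimensional ℝ W ∧ (∀ g : G, ∀ v ∈ W, mtrans g v ∈ W) ∧
      ∃ x₀ : M, ∀ᶠ y in 𝓝 x₀, (∀ w ∈ W, w y = w x₀) → y = x₀ := by
  classical
  let _ : MeasurableSpace E := borel E
  have _ : BorelSpace E := ⟨rfl⟩
  obtain ⟨x₁, hx₁⟩ := hne
  set z₁ := ψ x₁ with hz₁
  have hz₁t : z₁ ∈ ψ.target := ψ.map_source hx₁
  obtain ⟨ρ, hρ, hball⟩ := Metric.nhds_basis_closedBall.mem_iff.mp (ψ.open_target.mem_nhds hz₁t)
  set b : E → M := fun z => ψ.symm (retr z₁ ρ z) with hb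
  have hbc : Continuous b :=
    ψ.continuousOn_symm.comp_continuous (retr_cont z₁ hρ) (fun z => hball (retr_mem z₁ hρ z))
  have hbe : ∀ z ∈ Metric.ball z₁ ρ, b z = ψ.symm z := by
    intro z hz
    simp only [hb, retr_eq z₁ hρ hz]
  have hbs : ∀ z ∈ Metric.ball z₁ ρ, b z ∈ ψ.source ∧ ψ (b z) = z := by
    intro z hz
    have hzt : z ∈ ψ.target := hball (Metric.ball_subset_closedBall hz)
    rw [hbe z hz]
    exact ⟨ψ.map_target hzt, ψ.right_inv hzt⟩
  have hbL : ∀ z ∈ Metric.ball z₁ ρ, ∀ z' ∈ Metric.ball z₁ ρ, dist (b z) (b z') ≤ K * ‖z - z'‖ := by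
    intro z hz z' hz'
    obtain ⟨h1, h2⟩ := hbs z hz
    obtain ⟨h3, h4⟩ := hbs z' hz'
    have := (hψ _ h1 _ h3).1
    rwa [h2, h4] at this
  obtain ⟨F, CF, hFL, hFe⟩ : ∃ F : M → E, ∃ CF : ℝ≥0,
      LipschitzWith CF F ∧ Set.EqOn ψ F ψ.source := by
    have h1 : LipschitzOnWith K.toNNReal ψ ψ.source := by
      apply LipschitzOnWith.of_dist_le_mul
      intro y hy z hz
      rw [dist_eq_norm, Real.coe_toNNReal _ hK.le]
      exact (hψ y hy z hz).2
    obtain ⟨F, h2, h3⟩ := h1.extend_finite_dimension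
    exact ⟨F, _, h2, h3⟩
  set H : G → E → E := fun g z => F (g⁻¹ • b z) with hH
  have hHc : Continuous (Function.uncurry H) := hFL.continuous.comp (by fun_prop)
  have hHL : ∀ g, LipschitzOnWith (CF * K.toNNReal) (H g) (Metric.ball z₁ ρ) := by
    intro g
    apply LipschitzOnWith.of_dist_le_mul
    intro z hz z' hz'
    calc dist (F (g⁻¹ • b z)) (F (g⁻¹ • b z')) ≤ CF * dist (g⁻¹ • b z) (g⁻¹ • b z') :=
          hFL.dist_le_mul _ _
      _ = CF * dist (b z) (b z') := by rw [dist_smul]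
      _ ≤ CF * (K * ‖z - z'‖) := mul_le_mul_of_nonneg_left (hbL z hz z' hz') CF.2
      _ = ↑(CF * K.toNNReal) * dist z z' := by
          rw [NNReal.coe_mul, Real.coe_toNNReal _ hK.le, dist_eq_norm]; ring
  obtain ⟨z₀, hz₀, hdiff⟩ := rad_point ν H hHc _ z₁ ρ hρ hHL
  set D : G → (E →L[ℝ] E) := fun g => fderiv ℝ (H g) z₀ with hD
  have hDm : Measurable D :=
    (measurable_fderiv_with_param ℝ hHc).comp (measurable_id.prodMk measurable_const)
  have hDb : ∀ g, ‖D g‖ ≤ ↑(CF * K.toNNReal) := fun g =>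
    norm_fderiv_le_of_lipschitzOn ℝ (Metric.isOpen_ball.mem_nhds hz₀) (hHL g)
  -- coordinates
  let B := Module.finBasis ℝ E
  let ℓ : Fin (finrank ℝ E) → (E →L[ℝ] ℝ) := fun j => (B.coord j).toContinuousLinearMap
  let f : Fin (finrank ℝ E) → C(M, ℝ) := fun j =>
    ⟨fun x => ℓ j (F x), (ℓ j).continuous.comp hFL.continuous⟩
  have hHgc : ∀ g, Continuous (H g) := fun g => hHc.comp (by fun_prop : Continuous fun z : E => (g, z))
  have hHzc : ∀ z, Continuous (fun g => H g z) := fun z =>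
    hHc.comp (by fun_prop : Continuous fun g : G => (g, z))
  have hder : ∀ (φ : C(G, ℝ)) j, Integrable (fun g => φ g • (ℓ j).comp (D g)) ν ∧
      HasFDerivAt (fun z => conv ν φ (f j) (b z)) (∫ g, φ g • (ℓ j).comp (D g) ∂ν) z₀ := by
    intro φ j
    have hlc : ∀ z, Continuous fun g => φ g * ℓ j (H g z) := fun z =>
      φ.continuous.mul ((ℓ j).continuous.comp (hHzc z))
    have key := hasFDerivAt_integral_of_dominated_loc_of_lip (μ := ν)
      (F := fun z g => φ g * ℓ j (H g z)) (F' := fun g => φ g • (ℓ j).comp (D g)) (x₀ := z₀)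
      (bound := fun _ => ‖φ‖ * ‖ℓ j‖ * ↑(CF * K.toNNReal)) (s := Metric.ball z₁ ρ)
      (Metric.isOpen_ball.mem_nhds hz₀)
      (Eventually.of_forall fun z => (hlc z).aestronglyMeasurable)
      ((hlc z₀).integrable_of_hasCompactSupport (HasCompactSupport.of_compactSpace _))
      (by
        have h1 : Measurable fun g => (ℓ j).comp (D g) :=
          ((ContinuousLinearMap.compL ℝ E E ℝ (ℓ j)).continuous.measurable).comp hDm
        exact (φ.continuous.measurable.smul h1).aestronglyMeasurable)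
      (Eventually.of_forall fun g => by
        apply LipschitzOnWith.of_dist_le_mul
        intro z hz z' hz'
        have h1 := (hHL g).dist_le_mul z hz z' hz'
        have h2 : dist (φ g * ℓ j (H g z)) (φ g * ℓ j (H g z')) ≤
            ‖φ‖ * (‖ℓ j‖ * (↑(CF * K.toNNReal) * dist z z')) := by
          rw [dist_eq_norm, ← mul_sub, ← map_sub, norm_mul]
          refine mul_le_mul (φ.norm_coe_le_norm g) ?_ (norm_nonneg _) (norm_nonneg _)
          refine ((ℓ j).le_opNorm _).trans (mul_le_mul_of_nonneg_left ?_ (norm_nonneg _))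
          rw [← dist_eq_norm]
          exact h1
        refine h2.trans (le_of_eq ?_)
        rw [Real.coe_nnabs, abs_of_nonneg (by positivity)]
        ring)
      (integrable_const _)
      (by
        filter_upwards [hdiff] with g hg
        exact ((ℓ j).hasFDerivAt.comp z₀ hg.hasFDerivAt).const_mul (φ g))
    refine ⟨key.1, ?_⟩
    have e : (fun z => conv ν φ (f j) (b z)) = fun z => ∫ g, φ g * ℓ j (H g z) ∂ν := by
      ext z
      rw [conv_apply]
      rfl
    rw [e]
    exact key.2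
  -- the family of functions
  set R : Set (E → ℝ) := {w | ∃ φ : C(G, ℝ), LeftFinite φ ∧ ∃ j, w = fun z => conv ν φ (f j) (b z)} with hR
  have hRd : ∀ w ∈ R, DifferentiableAt ℝ w z₀ := by
    rintro _ ⟨φ, _, j, rfl⟩
    exact (hder φ j).2.differentiableAt
  have hker : ∀ v : E, (∀ w ∈ R, fderiv ℝ w z₀ v = 0) → v = 0 := by
    intro v hv
    by_contra hv0
    have h1 : ∀ j, (fun g => ℓ j (D g v)) =ᵐ[ν] 0 := by
      intro j
      have hum : Measurable fun g => ℓ j (D g v) :=
        (ℓ j).continuous.measurable.comp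
          (((ContinuousLinearMap.apply ℝ E v).continuous.measurable).comp hDm)
      have hub : ∀ g, |ℓ j (D g v)| ≤ ‖ℓ j‖ * (↑(CF * K.toNNReal) * ‖v‖) := by
        intro g
        rw [← Real.norm_eq_abs]
        refine ((ℓ j).le_opNorm _).trans (mul_le_mul_of_nonneg_left ?_ (norm_nonneg _))
        exact (D g).le_of_opNorm_le (hDb g) v
      refine ae_zero_of_forall ν _ hum _ hub ?_
      set C := ‖ℓ j‖ * (↑(CF * K.toNNReal) * ‖v‖) with hC
      have hui : Integrable (fun g => ℓ j (D g v)) ν :=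
        Integrable.of_bound hum.aestronglyMeasurable C (Eventually.of_forall hub)
      have hint : ∀ φ : C(G, ℝ), Integrable (fun g => φ g * ℓ j (D g v)) ν := fun φ =>
        hui.bdd_mul φ.continuous.aestronglyMeasurable (Eventually.of_forall φ.norm_coe_le_norm)
      let Λ : C(G, ℝ) →L[ℝ] ℝ := LinearMap.mkContinuous
        { toFun := fun φ => ∫ g, φ g * ℓ j (D g v) ∂ν
          map_add' := fun φ φ' => by
            rw [← integral_add (hint φ) (hint φ')]
            congr with g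
            simp [add_mul]
          map_smul' := fun c φ => by
            rw [RingHom.id_apply, ← integral_smul]
            congr with g
            simp [mul_assoc] } C (fun φ => by
              have := norm_integral_le_of_norm_le_const (μ := ν) (f := fun g => φ g * ℓ j (D g v))
                (C := ‖φ‖ * C) (Eventually.of_forall fun g => by
                  rw [norm_mul]
                  exact mul_le_mul (φ.norm_coe_le_norm g) (hub g) (norm_nonneg _) (norm_nonneg _))
              rw [probReal_univ, mul_one, mul_comm] at this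
              exact this)
      have hΛ : ∀ φ ∈ {f : C(G, ℝ) | LeftFinite f}, Λ φ = 0 := by
        intro φ hφ
        have h2 := hv _ ⟨φ, hφ, j, rfl⟩
        rw [(hder φ j).2.fderiv] at h2
        rw [ContinuousLinearMap.integral_apply (hder φ j).1] at h2
        exact h2
      intro φ
      have hcl : closure {f : C(G, ℝ) | LeftFinite f} ⊆ {φ | Λ φ = 0} :=
        closure_minimal hΛ (isClosed_eq Λ.continuous continuous_const)
      rw [hPW.closure_eq] at hcl
      exact hcl (Set.mem_univ φ)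
    have h2 : ∀ᵐ g ∂ν, D g v = 0 := by
      have h3 : ∀ᵐ g ∂ν, ∀ j, ℓ j (D g v) = 0 := by
        rw [ae_all_iff]
        intro j
        exact h1 j
      filter_upwards [h3] with g hg
      exact (B.forall_coord_eq_zero_iff).mp hg
    -- the open set
    have hOo : IsOpen {g : G | g⁻¹ • b z₀ ∈ ψ.source} :=
      ψ.open_source.preimage (by fun_prop : Continuous fun g : G => g⁻¹ • b z₀)
    have hOn : {g : G | g⁻¹ • b z₀ ∈ ψ.source}.Nonempty := by
      obtain ⟨h, hh⟩ := htrans (b z₀) x₁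
      refine ⟨h⁻¹, ?_⟩
      show (h⁻¹)⁻¹ • b z₀ ∈ ψ.source
      rw [inv_inv, hh]
      exact hx₁
    have hOpos : 0 < ν {g : G | g⁻¹ • b z₀ ∈ ψ.source} := hOo.measure_pos ν hOn
    obtain ⟨g, hgO, hgd, hg0⟩ : ∃ g : G, g⁻¹ • b z₀ ∈ ψ.source ∧ DifferentiableAt ℝ (H g) z₀ ∧
        D g v = 0 := by
      by_contra hcon
      push Not at hcon
      have h4 : ∀ᵐ g ∂ν, g ∉ {g : G | g⁻¹ • b z₀ ∈ ψ.source} := by
        filter_upwards [h2, hdiff] with g hg1 hg2 hg3
        exact hcon g hg3 hg2 hg1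
      have h5 : ν {g : G | g⁻¹ • b z₀ ∈ ψ.source} = 0 := by
        rw [ae_iff] at h4
        have e : {a : G | ¬ a ∉ {g : G | g⁻¹ • b z₀ ∈ ψ.source}} = {g : G | g⁻¹ • b z₀ ∈ ψ.source} := by
          ext a; exact not_not
        rw [e] at h4
        exact h4
      exact hOpos.ne' h5
    -- lower bound
    have hlow : ∀ᶠ z in 𝓝 z₀, ‖z - z₀‖ ≤ K * (K * ‖H g z - H g z₀‖) := by
      have c1 : ∀ᶠ z in 𝓝 z₀, g⁻¹ • b z ∈ ψ.source :=
        (by fun_prop : Continuous fun z => g⁻¹ • b z).continuousAt.eventually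
          (ψ.open_source.mem_nhds hgO)
      have c2 : ∀ᶠ z in 𝓝 z₀, z ∈ Metric.ball z₁ ρ := Metric.isOpen_ball.mem_nhds hz₀
      filter_upwards [c1, c2] with z hz1 hz2
      obtain ⟨a1, a2⟩ := hbs z hz2
      obtain ⟨a3, a4⟩ := hbs z₀ hz₀
      have k1 := (hψ _ a1 _ a3).2
      rw [a2, a4] at k1
      have k2 := (hψ _ hz1 _ hgO).1
      rw [dist_smul, hFe hz1, hFe hgO] at k2
      exact k1.trans (mul_le_mul_of_nonneg_left k2 hK.le)
    have hlo := hgd.hasFDerivAt.isLittleO
    have hbd := hlo.bound (c := 1 / (2 * (K * K))) (by positivity)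
    have htend : Tendsto (fun t : ℝ => z₀ + t • v) (𝓝[≠] 0) (𝓝 z₀) := by
      have h6 : Continuous fun t : ℝ => z₀ + t • v := by fun_prop
      have h7 := h6.tendsto 0
      rw [zero_smul, add_zero] at h7
      exact h7.mono_left nhdsWithin_le_nhds
    obtain ⟨t, ⟨ht1, ht2⟩, ht3⟩ :=
      ((htend.eventually (hlow.and hbd)).and self_mem_nhdsWithin).exists
    have ht0 : t ≠ 0 := ht3
    rw [add_sub_cancel_left] at ht1 ht2
    have hD0 : (fderiv ℝ (H g) z₀) (t • v) = 0 := by
      rw [map_smul]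
      have : (fderiv ℝ (H g) z₀) v = 0 := hg0
      rw [this, smul_zero]
    rw [hD0, sub_zero] at ht2
    have hpos : 0 < ‖t • v‖ := norm_pos_iff.mpr (smul_ne_zero ht0 hv0)
    have : ‖t • v‖ ≤ K * (K * (1 / (2 * (K * K)) * ‖t • v‖)) :=
      ht1.trans (mul_le_mul_of_nonneg_left (mul_le_mul_of_nonneg_left ht2 hK.le) hK.le)
    have e : K * (K * (1 / (2 * (K * K)) * ‖t • v‖)) = ‖t • v‖ / 2 := by field_simp
    rw [e] at this
    linarith
  obtain ⟨s, hsf, hsR, hsep⟩ := local_sep R z₀ hRd hker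
  have hex : ∀ w ∈ s, ∃ U : C(M, ℝ), GFinite G U ∧ w = fun z => U (b z) := by
    intro w hw
    obtain ⟨φ, hφ, j, rfl⟩ := hsR hw
    exact ⟨conv ν φ (f j), gfinite_conv ν hφ _, rfl⟩
  choose! U hU using hex
  obtain ⟨W, hW1, hW2, hW3⟩ := exists_common (G := G) (U '' s) (hsf.image _)
    (by rintro _ ⟨w, hw, rfl⟩; exact (hU w hw).1)
  obtain ⟨hx₀, hψx₀⟩ := hbs z₀ hz₀
  refine ⟨W, hW1, hW3, b z₀, ?_⟩
  have hca : ContinuousAt ψ (b z₀) := ψ.continuousAt hx₀
  have c1 : ∀ᶠ y in 𝓝 (b z₀), (∀ w ∈ s, w (ψ y) = w z₀) → ψ y = z₀ := by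
    have := hca.tendsto
    rw [hψx₀] at this
    exact this.eventually hsep
  have c2 : ∀ᶠ y in 𝓝 (b z₀), ψ y ∈ Metric.ball z₁ ρ := by
    have := hca.tendsto
    rw [hψx₀] at this
    exact this.eventually (Metric.isOpen_ball.mem_nhds hz₀)
  have c3 : ∀ᶠ y in 𝓝 (b z₀), y ∈ ψ.source := ψ.open_source.mem_nhds hx₀
  filter_upwards [c1, c2, c3] with y hy1 hy2 hy3 hall
  have hby : b (ψ y) = y := by rw [hbe _ hy2, ψ.left_inv hy3]
  have : ψ y = z₀ := by
    apply hy1
    intro w hw
    have e1 := (hU w hw).2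
    have e2 := hall (U w) (hW2 ⟨w, hw, rfl⟩)
    have e3 : w (ψ y) = U w (b (ψ y)) := congrFun e1 _
    have e4 : w z₀ = U w (b z₀) := congrFun e1 _
    rw [e3, e4, hby]
    exact e2
  rw [← hby, this]

end T5

variable {M : Type} [MetricSpace M] [CompactSpace M] [Nonempty M]
variable {G : Type} [Group G] [TopologicalSpace G] [IsTopologicalGroup G] [CompactSpace G]
  [T2Space G] [SecondCountableTopology G] [MeasurableSpace G] [BorelSpace G]
  [MulAction G M] [ContinuousSMul G M] [IsIsometricSMul G M]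

theorem exists_fg_gfinite (hPW : Dense {f : C(G, ℝ) | LeftFinite f})
    (htrans : ∀ x y : M, ∃ g : G, g • x = y)
    {E : Type} [NormedAddCommGroup E] [NormedSpace ℝ E] [FiniteDimensional ℝ E]
    (ψ : OpenPartialHomeomorph M E) (K : ℝ) (hK : 0 < K) (hne : ψ.source.Nonempty)
    (hψ : ∀ y ∈ ψ.source, ∀ z ∈ ψ.source, dist y z ≤ K * ‖ψ y - ψ z‖ ∧ ‖ψ y - ψ z‖ ≤ K * dist y z) :
    ∃ A : Subalgebra ℝ C(M, ℝ), A.FG ∧ ∀ u, u ∈ A ↔ GFinite G u := by
  let ν : Measure G := Measure.haarMeasure ⊤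
  have hν : IsProbabilityMeasure ν := ⟨by
    have := Measure.haarMeasure_self (K₀ := (⊤ : TopologicalSpace.PositiveCompacts G))
    simpa using this⟩
  obtain ⟨W, hW1, hW2, x₀, hloc⟩ := T5.exists_loc ν hPW htrans ψ K hK hne hψ
  obtain ⟨W', k1, k2, k3⟩ := T5.exists_sep ν hPW htrans W hW2 x₀ hloc
  exact T5.adjoin_eq ν hPW htrans W' k2 k3

end Pool.Agent.Helper33.Lap
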