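import Mathlib

/-! # The isometry group of a compact metric space is a compact topological group -/

set_option linter.unusedSectionVars false

namespace Pool.Agent.Helper33.Lap

section iso
variable {M : Type} [MetricSpace M] [CompactSpace M]

/-- topology of uniform convergence -/
instance isoTop : TopologicalSpace (M ≃ᵢ M) :=
  TopologicalSpace.induced (fun g => (⟨g, g.continuous⟩ : C(M, M))) inferInstance

/-- the underlying continuous map -/
def isoMap (g : M ≃ᵢ M) : C(M, M) := ⟨g, g.continuous⟩

@[simp] lemma isoMap_apply (g : M ≃ᵢ M) (x : M) : isoMap g x = g x := rfl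

lemma isInducing_isoMap : Topology.IsInducing (isoMap : (M ≃ᵢ M) → C(M, M)) := ⟨rfl⟩

lemma isoMap_injective : Function.Injective (isoMap : (M ≃ᵢ M) → C(M, M)) := by
  intro g h hgh
  ext x
  exact congrArg (fun f : C(M, M) => f x) hgh

lemma isEmbedding_isoMap : Topology.IsEmbedding (isoMap : (M ≃ᵢ M) → C(M, M)) :=
  ⟨isInducing_isoMap, isoMap_injective⟩

lemma dist_isoMap_inv_le (g h : M ≃ᵢ M) : dist (isoMap g⁻¹) (isoMap h⁻¹) ≤
    dist (isoMap g) (isoMap h) := by
  rw [ContinuousMap.dist_le dist_nonneg]
  intro x
  have h1 : dist (isoMap g⁻¹ x) (isoMap h⁻¹ x) = dist (h (g⁻¹ x)) (g (g⁻¹ x)) := by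
    rw [← h.dist_eq]
    congr 1
    show h (h.symm x) = g (g.symm x)
    rw [IsometryEquiv.apply_symm_apply, IsometryEquiv.apply_symm_apply]
  rw [h1, dist_comm]
  exact ContinuousMap.dist_apply_le_dist (f := isoMap g) (g := isoMap h) (g⁻¹ x)

lemma continuous_isoMap_inv : Continuous fun g : M ≃ᵢ M => isoMap g⁻¹ := by
  rw [continuous_iff_continuousAt]
  intro g
  refine Metric.tendsto_nhds.mpr fun ε hε => ?_
  have h1 : Filter.Tendsto (fun h : M ≃ᵢ M => isoMap h) (nhds g) (nhds (isoMap g)) :=
    isInducing_isoMap.continuous.continuousAt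
  filter_upwards [Metric.tendsto_nhds.mp h1 ε hε] with h hh
  exact lt_of_le_of_lt (dist_isoMap_inv_le h g) hh

instance isoTopGroup : IsTopologicalGroup (M ≃ᵢ M) where
  continuous_mul := by
    rw [isInducing_isoMap.continuous_iff]
    have h : Continuous fun p : (M ≃ᵢ M) × (M ≃ᵢ M) => (isoMap p.1).comp (isoMap p.2) :=
      ContinuousMap.continuous_comp'.comp
        ((isInducing_isoMap.continuous.comp continuous_snd).prodMk
          (isInducing_isoMap.continuous.comp continuous_fst))
    exact h
  continuous_inv := by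
    rw [isInducing_isoMap.continuous_iff]
    exact continuous_isoMap_inv

instance isoT2 : T2Space (M ≃ᵢ M) := isEmbedding_isoMap.t2Space

instance isoSecond : SecondCountableTopology (M ≃ᵢ M) :=
  isEmbedding_isoMap.secondCountableTopology

lemma isCompact_lip : IsCompact {f : C(M, M) | LipschitzWith 1 f} := by
  refine ArzelaAscoli.isCompact_of_equicontinuous _ ?_ ?_
  · have h1 : ContinuousMap.toFun '' {f : C(M, M) | LipschitzWith 1 f} =
        {f : M → M | LipschitzWith 1 f} := by
      ext f
      constructor
      · rintro ⟨g, hg, rfl⟩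
        exact hg
      · intro hf
        exact ⟨⟨f, hf.continuous⟩, hf, rfl⟩
    rw [h1]
    refine IsClosed.isCompact ?_
    have h2 : {f : M → M | LipschitzWith 1 f} =
        ⋂ (x : M) (y : M), {f : M → M | dist (f x) (f y) ≤ dist x y} := by
      ext f
      simp [lipschitzWith_iff_dist_le_mul]
    rw [h2]
    refine isClosed_iInter fun x => isClosed_iInter fun y => isClosed_le (by fun_prop) (by fun_prop)
  · intro x
    refine Metric.equicontinuousAt_iff.mpr fun ε hε => ⟨ε, hε, fun y hy f => ?_⟩
    have := f.2.dist_le_mul x y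
    rw [dist_comm] at hy
    refine lt_of_le_of_lt this ?_
    simpa using hy

instance isoCompact : CompactSpace (M ≃ᵢ M) := by
  let E : (M ≃ᵢ M) → C(M, M) × C(M, M) := fun g => (isoMap g, isoMap g⁻¹)
  have hE : Topology.IsInducing E := by
    refine isInducing_isoMap.of_comp (f := E) (g := Prod.fst) ?_ continuous_fst
    exact isInducing_isoMap.continuous.prodMk continuous_isoMap_inv
  have hrange : Set.range E = ({f : C(M, M) | LipschitzWith 1 f} ×ˢ
      {f : C(M, M) | LipschitzWith 1 f}) ∩
      ({p | p.1.comp p.2 = ContinuousMap.id M} ∩ {p | p.2.comp p.1 = ContinuousMap.id M}) := by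
    ext ⟨a, b⟩
    constructor
    · rintro ⟨g, hg⟩
      obtain ⟨rfl, rfl⟩ := Prod.ext_iff.mp hg
      refine ⟨⟨g.isometry.lipschitz, g⁻¹.isometry.lipschitz⟩, ?_, ?_⟩
      · ext x
        exact g.apply_symm_apply x
      · ext x
        exact g.symm_apply_apply x
    · rintro ⟨⟨ha, hb⟩, hab, hba⟩
      have hab' : ∀ x, a (b x) = x := fun x => congrArg (fun f : C(M, M) => f x) hab
      have hba' : ∀ x, b (a x) = x := fun x => congrArg (fun f : C(M, M) => f x) hba
      have hiso : Isometry a := by
        refine Isometry.of_dist_eq fun x y => le_antisymm ?_ ?_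
        · simpa using ha.dist_le_mul x y
        · have := hb.dist_le_mul (a x) (a y)
          rw [hba', hba'] at this
          simpa using this
      refine ⟨⟨⟨a, b, hba', hab'⟩, hiso⟩, ?_⟩
      rfl
  have hcomp1 : Continuous fun p : C(M, M) × C(M, M) => p.1.comp p.2 :=
    ContinuousMap.continuous_comp'.comp (continuous_snd.prodMk continuous_fst)
  have hcomp2 : Continuous fun p : C(M, M) × C(M, M) => p.2.comp p.1 :=
    ContinuousMap.continuous_comp'.comp (continuous_fst.prodMk continuous_snd)
  refine isCompact_univ_iff.mp (hE.isCompact_iff.mpr ?_)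
  rw [Set.image_univ, hrange]
  exact (isCompact_lip.prod isCompact_lip).inter_right
    ((isClosed_eq hcomp1 continuous_const).inter (isClosed_eq hcomp2 continuous_const))

instance isoAction : MulAction (M ≃ᵢ M) M where
  smul g x := g x
  one_smul _ := rfl
  mul_smul _ _ _ := rfl

instance isoContSMul : ContinuousSMul (M ≃ᵢ M) M where
  continuous_smul := by
    have h : Continuous fun p : C(M, M) × M => p.1 p.2 := by fun_prop
    exact h.comp ((isInducing_isoMap.continuous.comp continuous_fst).prodMk continuous_snd)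

end iso

end Pool.Agent.Helper33.Lap
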