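import Mathlib
import Pool.Agent.Helper33.Lap.Defs

/-! # Peter–Weyl: left finite functions are dense -/

open MeasureTheory Module

set_option linter.unusedSectionVars false

namespace Pool.Agent.Helper33.Lap

section ker
variable {X : Type} [TopologicalSpace X] [CompactSpace X]
  {H : Type} [NormedAddCommGroup H] [InnerProductSpace ℝ H]

/-- the operator `f ↦ (x ↦ ⟪κ x, f⟫)` -/
noncomputable def kerOp (κ : C(X, H)) : H →L[ℝ] C(X, ℝ) :=
  LinearMap.mkContinuous
    { toFun := fun f => ⟨fun x => inner ℝ (κ x) f, by fun_prop⟩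
      map_add' := fun f g => by ext x; simp [inner_add_right]
      map_smul' := fun c f => by ext x; simp [inner_smul_right] } ‖κ‖ (fun f => by
        rw [ContinuousMap.norm_le _ (by positivity)]
        intro x
        calc ‖(inner ℝ (κ x) f : ℝ)‖ ≤ ‖κ x‖ * ‖f‖ := norm_inner_le_norm _ _
          _ ≤ ‖κ‖ * ‖f‖ := by gcongr; exact κ.norm_coe_le_norm x)

@[simp] lemma kerOp_apply (κ : C(X, H)) (f : H) (x : X) : kerOp κ f x = inner ℝ (κ x) f := rfl

theorem isCompactOperator_kerOp (κ : C(X, H)) : IsCompactOperator (kerOp κ) := by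
  have hcl := isClosed_setOfPred_isCompactOperator (𝕜₁ := ℝ) (𝕜₂ := ℝ) (σ₁₂ := RingHom.id ℝ)
    (M₁ := H) (M₂ := C(X, ℝ))
  suffices h : kerOp κ ∈ closure {f : H →L[ℝ] C(X, ℝ) | IsCompactOperator f} by
    rw [hcl.closure_eq] at h
    exact h
  refine (SeminormedAddCommGroup.mem_closure_iff (E := H →L[ℝ] C(X, ℝ))).mpr fun ε hε => ?_
  have hc : IsCompact (Set.range κ) := isCompact_range κ.continuous
  obtain ⟨t, htfin, ht⟩ := Metric.totallyBounded_iff.mp hc.totallyBounded (ε / 2) (half_pos hε)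
  let S := Submodule.span ℝ t
  have : FiniteDimensional ℝ S := FiniteDimensional.span_of_finite ℝ htfin
  let P : H →L[ℝ] H := S.subtypeL.comp S.orthogonalProjectionOnto
  refine ⟨(kerOp κ).comp P, ?_, ?_⟩
  · show IsCompactOperator (((kerOp κ).comp S.subtypeL) ∘ S.orthogonalProjectionOnto)
    exact (isCompactOperator_of_locallyCompactSpace_dom S.orthogonalProjectionOnto).clm_comp
      ((kerOp κ).comp S.subtypeL)
  · refine lt_of_le_of_lt ?_ (half_lt_self hε)
    refine ContinuousLinearMap.opNorm_le_bound _ (half_pos hε).le fun f => ?_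
    rw [ContinuousMap.norm_le _ (by positivity)]
    intro x
    have hx : κ x ∈ ⋃ y ∈ t, Metric.ball y (ε / 2) := ht (Set.mem_range_self x)
    simp only [Set.mem_iUnion, Metric.mem_ball, exists_prop] at hx
    obtain ⟨y, hyt, hy⟩ := hx
    have h1 : ((kerOp κ - (kerOp κ).comp P) f) x = inner ℝ (κ x - y) (f - P f) := by
      have h0 : inner ℝ y (f - P f) = 0 := by
        have := S.sub_starProjection_mem_orthogonal f
        exact (Submodule.mem_orthogonal _ _).mp this y (Submodule.subset_span hyt)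
      rw [inner_sub_left, h0, sub_zero, inner_sub_right]
      rfl
    rw [h1]
    have h2 : ‖f - P f‖ ≤ ‖f‖ := by
      have h3 : inner ℝ (f - P f) (P f) = (0 : ℝ) := by
        have := S.sub_starProjection_mem_orthogonal f
        rw [real_inner_comm]
        exact (Submodule.mem_orthogonal _ _).mp this (P f) (Subtype.mem _)
      have h4 : ‖f - P f‖ * ‖f - P f‖ ≤ ‖f - P f‖ * ‖f‖ := by
        rw [← real_inner_self_eq_norm_mul_norm, inner_sub_right, h3, sub_zero]
        exact real_inner_le_norm _ _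
      rcases (norm_nonneg (f - P f)).eq_or_lt with h5 | h5
      · rw [← h5]; exact norm_nonneg _
      · exact le_of_mul_le_mul_left h4 h5
    calc ‖(inner ℝ (κ x - y) (f - P f) : ℝ)‖ ≤ ‖κ x - y‖ * ‖f - P f‖ := norm_inner_le_norm _ _
      _ ≤ ε / 2 * ‖f‖ := by
        gcongr
        rw [← dist_eq_norm]; exact hy.le

end ker

section alg
variable {G : Type} [Group G] [TopologicalSpace G] [IsTopologicalGroup G]

/-- The algebra of left finite functions. -/
def leftFiniteAlg (G : Type) [Group G] [TopologicalSpace G] [IsTopologicalGroup G] :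
    Subalgebra ℝ C(G, ℝ) where
  carrier := {f | LeftFinite f}
  mul_mem' := by
    rintro f h ⟨V, hV, hf, hVg⟩ ⟨W, hW, hh, hWg⟩
    refine ⟨V * W, ?_, Submodule.mul_mem_mul hf hh, ?_⟩
    · exact Module.Finite.iff_fg.mpr
        ((Module.Finite.iff_fg.mp hV).mul (Module.Finite.iff_fg.mp hW))
    · intro g v hv
      refine Submodule.mul_induction_on hv ?_ ?_
      · intro a ha b hb
        exact Submodule.mul_mem_mul (hVg g a ha) (hWg g b hb)
      · intro a b ha hb
        exact Submodule.add_mem _ ha hb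
  add_mem' := by
    rintro f h ⟨V, hV, hf, hVg⟩ ⟨W, hW, hh, hWg⟩
    refine ⟨V ⊔ W, inferInstance, Submodule.add_mem_sup hf hh, ?_⟩
    intro g v hv
    obtain ⟨a, ha, b, hb, rfl⟩ := Submodule.mem_sup.mp hv
    exact Submodule.add_mem_sup (hVg g a ha) (hWg g b hb)
  algebraMap_mem' := by
    intro r
    refine ⟨Submodule.span ℝ {algebraMap ℝ C(G, ℝ) r}, inferInstance,
      Submodule.mem_span_singleton_self _, ?_⟩
    intro g v hv
    obtain ⟨c, rfl⟩ := Submodule.mem_span_singleton.mp hv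
    refine Submodule.mem_span_singleton.mpr ⟨c, ?_⟩
    ext x
    rfl

lemma mem_leftFiniteAlg {f : C(G, ℝ)} : f ∈ leftFiniteAlg G ↔ LeftFinite f := Iff.rfl

end alg

section haar
variable {G : Type} [Group G] [TopologicalSpace G] [IsTopologicalGroup G] [CompactSpace G]
  [T2Space G] [SecondCountableTopology G] [MeasurableSpace G] [BorelSpace G]
  (μ : Measure G) [μ.IsHaarMeasure]

/-- the `L²`-valued kernel `x ↦ (y ↦ φ(x⁻¹y))` -/
noncomputable def kap (φ : C(G, ℝ)) : C(G, Lp ℝ 2 μ) :=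
  ⟨fun x => ContinuousMap.toLp 2 μ ℝ
    ((ContinuousMap.curry ⟨fun p : G × G => φ (p.1⁻¹ * p.2), by fun_prop⟩ : C(G, C(G, ℝ))) x),
    by fun_prop⟩

/-- `T f (x) = ∫ φ(x⁻¹y) f(y) dy` -/
noncomputable def opT (φ : C(G, ℝ)) : Lp ℝ 2 μ →L[ℝ] C(G, ℝ) := kerOp (kap μ φ)

/-- the embedding of continuous functions in `L²` -/
noncomputable def emb : C(G, ℝ) →L[ℝ] Lp ℝ 2 μ := ContinuousMap.toLp 2 μ ℝ

/-- `R = ι ∘ T` -/
noncomputable def opR (φ : C(G, ℝ)) : Lp ℝ 2 μ →L[ℝ] Lp ℝ 2 μ := (emb μ).comp (opT μ φ)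

lemma inner_emb (f h : C(G, ℝ)) : inner ℝ (emb μ f) (emb μ h) = ∫ x, f x * h x ∂μ := by
  unfold emb
  rw [ContinuousMap.inner_toLp]
  congr 1
  ext x
  simp [mul_comm]

lemma opT_emb (φ f : C(G, ℝ)) (x : G) : opT μ φ (emb μ f) x = ∫ y, φ (x⁻¹ * y) * f y ∂μ := by
  show inner ℝ (emb μ _) (emb μ f) = _
  rw [inner_emb]
  rfl

lemma isCompact_opR (φ : C(G, ℝ)) : IsCompactOperator (opR μ φ) :=
  (isCompactOperator_kerOp (kap μ φ)).clm_comp (emb μ)

lemma symm_opR (φ : C(G, ℝ)) (hφ : ∀ x, φ x⁻¹ = φ x) : (opR μ φ).IsSymmetric := by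
  have hd : DenseRange (emb μ : C(G, ℝ) → Lp ℝ 2 μ) :=
    ContinuousMap.toLp_denseRange ℝ μ ℝ (by norm_num)
  have hc : IsClosed {p : Lp ℝ 2 μ × Lp ℝ 2 μ | inner ℝ (opR μ φ p.1) p.2 =
      (inner ℝ p.1 (opR μ φ p.2) : ℝ)} := isClosed_eq (by fun_prop) (by fun_prop)
  intro u v
  refine hd.induction_on₂ (p := fun u v => inner ℝ (opR μ φ u) v = (inner ℝ u (opR μ φ v) : ℝ))
    hc ?_ u v
  intro f h
  show inner ℝ (emb μ (opT μ φ (emb μ f))) (emb μ h) =
    (inner ℝ (emb μ f) (emb μ (opT μ φ (emb μ h))) : ℝ)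
  rw [inner_emb, inner_emb]
  simp_rw [opT_emb]
  have h1 : ∀ x, (∫ y, φ (x⁻¹ * y) * f y ∂μ) * h x = ∫ y, φ (x⁻¹ * y) * f y * h x ∂μ := fun x =>
    (integral_mul_const _ _).symm
  have h2 : ∀ x, f x * (∫ y, φ (x⁻¹ * y) * h y ∂μ) = ∫ y, f x * (φ (x⁻¹ * y) * h y) ∂μ := fun x =>
    (integral_const_mul _ _).symm
  simp_rw [h1, h2]
  rw [integral_integral_swap]
  · congr 1
    ext y
    congr 1
    ext x
    rw [← hφ (x⁻¹ * y), mul_inv_rev, inv_inv]
    ring
  · have hcont : Continuous (Function.uncurry fun x y => φ (x⁻¹ * y) * f y * h x) := by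
      simp only [Function.uncurry_def]
      fun_prop
    exact hcont.integrable_of_hasCompactSupport (HasCompactSupport.of_compactSpace _)

lemma opT_ltrans (φ f : C(G, ℝ)) (g : G) :
    opT μ φ (emb μ (ltrans g f)) = ltrans g (opT μ φ (emb μ f)) := by
  ext x
  show _ = opT μ φ (emb μ f) (g⁻¹ * x)
  rw [opT_emb, opT_emb]
  rw [← integral_mul_left_eq_self _ g]
  congr 1
  ext y
  show φ (x⁻¹ * (g * y)) * f (g⁻¹ * (g * y)) = _
  rw [mul_inv_rev, inv_inv, inv_mul_cancel_left, mul_assoc]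

lemma opT_mem (φ : C(G, ℝ)) (hφ : ∀ x, φ x⁻¹ = φ x) (u : Lp ℝ 2 μ) :
    opT μ φ u ∈ (leftFiniteAlg G).topologicalClosure := by
  let A : Submodule ℝ C(G, ℝ) := Subalgebra.toSubmodule (leftFiniteAlg G)
  have hle : (⨆ c, End.eigenspace ((opR μ φ : Lp ℝ 2 μ →L[ℝ] Lp ℝ 2 μ) : End ℝ (Lp ℝ 2 μ)) c) ≤
      A.comap (opT μ φ).toLinearMap := by
    refine iSup_le fun c => ?_
    intro v hv
    have hv' : emb μ (opT μ φ v) = c • v := End.mem_eigenspace_iff.mp hv
    show LeftFinite (opT μ φ v)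
    by_cases hc : c = 0
    · rw [hc, zero_smul] at hv'
      have h0 : opT μ φ v = 0 := by
        apply ContinuousMap.toLp_injective (𝕜 := ℝ) (p := 2) μ
        rw [map_zero]
        exact hv'
      rw [h0]
      exact (leftFiniteAlg G).zero_mem
    · have := ContinuousLinearMap.finite_dimensional_eigenspace (isCompact_opR μ φ) c hc
      refine ⟨(End.eigenspace (opR μ φ).toLinearMap c).map (opT μ φ).toLinearMap,
        inferInstance, Submodule.mem_map_of_mem hv, ?_⟩
      rintro g _ ⟨w, hw, rfl⟩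
      have hw' : emb μ (opT μ φ w) = c • w := End.mem_eigenspace_iff.mp hw
      have h1 : opT μ φ (emb μ (ltrans g (opT μ φ w))) = c • ltrans g (opT μ φ w) := by
        rw [opT_ltrans, hw', map_smul]
        rfl
      refine ⟨c⁻¹ • emb μ (ltrans g (opT μ φ w)), ?_, ?_⟩
      · refine End.mem_eigenspace_iff.mpr ?_
        show emb μ (opT μ φ (c⁻¹ • emb μ (ltrans g (opT μ φ w)))) = _
        rw [map_smul, h1, smul_smul, inv_mul_cancel₀ hc, one_smul, smul_smul,
          mul_inv_cancel₀ hc, one_smul]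
      · show opT μ φ (c⁻¹ • emb μ (ltrans g (opT μ φ w))) = _
        rw [map_smul, h1, smul_smul, inv_mul_cancel₀ hc, one_smul]
        rfl
  have hbot := ContinuousLinearMap.orthogonalComplement_iSup_eigenspaces_eq_bot
    (isCompact_opR μ φ) (symm_opR μ φ hφ)
  rw [← Submodule.topologicalClosure_eq_top_iff] at hbot
  have hu : u ∈ closure ((⨆ c, End.eigenspace
      ((opR μ φ : Lp ℝ 2 μ →L[ℝ] Lp ℝ 2 μ) : End ℝ (Lp ℝ 2 μ)) c : Submodule ℝ (Lp ℝ 2 μ)) :
      Set (Lp ℝ 2 μ)) := by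
    rw [← Submodule.topologicalClosure_coe, hbot]
    trivial
  have h1 : opT μ φ u ∈ closure (opT μ φ '' _) := image_closure_subset_closure_image
    (opT μ φ).continuous (Set.mem_image_of_mem _ hu)
  refine closure_mono ?_ h1
  rintro _ ⟨v, hv, rfl⟩
  exact hle hv

end haar

section pw
variable {G : Type} [Group G] [TopologicalSpace G] [IsTopologicalGroup G] [CompactSpace G]
  [T2Space G] [SecondCountableTopology G]

theorem dense_leftFinite : Dense {f : C(G, ℝ) | LeftFinite f} := by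
  borelize G
  let μ : Measure G := Measure.haar
  have hsep : (leftFiniteAlg G).topologicalClosure.SeparatesPoints := by
    intro a b hab
    have hV : ({a⁻¹ * b}ᶜ : Set G) ∈ nhds (1 : G) := by
      refine isOpen_compl_singleton.mem_nhds ?_
      intro h
      exact hab (inv_mul_eq_one.mp (Set.mem_singleton_iff.mp h).symm)
    obtain ⟨U, hUo, hU1, hUU⟩ := exists_open_nhds_one_mul_subset hV
    obtain ⟨ψ, hψ0, hψ1, -⟩ := exists_continuous_zero_one_of_isClosed
      (s := Uᶜ) (t := {(1 : G)}) hUo.isClosed_compl isClosed_singleton (by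
        rw [Set.disjoint_singleton_right]
        exact fun h => h hU1)
    let φ : C(G, ℝ) := ⟨fun x => ψ x * ψ x⁻¹, by fun_prop⟩
    have hφ : ∀ x, φ x⁻¹ = φ x := fun x => by
      show ψ x⁻¹ * ψ (x⁻¹)⁻¹ = ψ x * ψ x⁻¹
      rw [inv_inv, mul_comm]
    have hφ1 : φ 1 = 1 := by
      show ψ 1 * ψ 1⁻¹ = 1
      rw [inv_one, hψ1 rfl]
      simp
    have hφU : ∀ x, φ x ≠ 0 → x ∈ U ∧ x⁻¹ ∈ U := by
      intro x hx
      constructor
      · by_contra h
        exact hx (by show ψ x * ψ x⁻¹ = 0; rw [hψ0 h]; simp)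
      · by_contra h
        exact hx (by show ψ x * ψ x⁻¹ = 0; rw [hψ0 h]; simp)
    let f : C(G, ℝ) := ⟨fun y => φ (a⁻¹ * y), by fun_prop⟩
    refine ⟨opT μ φ (emb μ f), ⟨_, opT_mem μ φ hφ (emb μ f), rfl⟩, ?_⟩
    have hb : opT μ φ (emb μ f) b = 0 := by
      rw [opT_emb]
      have : ∀ y, φ (b⁻¹ * y) * f y = 0 := by
        intro y
        by_contra h
        have h1 := (hφU _ (left_ne_zero_of_mul h)).2
        have h2 := (hφU (a⁻¹ * y) (right_ne_zero_of_mul h)).1
        have h3 := hUU (Set.mul_mem_mul h2 h1)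
        apply h3
        rw [Set.mem_singleton_iff]
        group
      simp [this]
    have ha : 0 < opT μ φ (emb μ f) a := by
      rw [opT_emb]
      refine Continuous.integral_pos_of_hasCompactSupport_nonneg_nonzero (x := a) (by fun_prop)
        (HasCompactSupport.of_compactSpace _) (fun y => mul_self_nonneg _) ?_
      show φ (a⁻¹ * a) * φ (a⁻¹ * a) ≠ 0
      rw [inv_mul_cancel, hφ1]
      norm_num
    show opT μ φ (emb μ f) a ≠ opT μ φ (emb μ f) b
    rw [hb]
    exact ha.ne'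
  have h1 := ContinuousMap.subalgebra_topologicalClosure_eq_top_of_separatesPoints _ hsep
  have h2 : (leftFiniteAlg G).topologicalClosure = ⊤ := by
    rw [← h1]
    refine le_antisymm (Subalgebra.le_topologicalClosure _) ?_
    exact Subalgebra.topologicalClosure_minimal le_rfl (Subalgebra.isClosed_topologicalClosure _)
  rw [dense_iff_closure_eq]
  have h3 := congrArg (fun A : Subalgebra ℝ C(G, ℝ) => (A : Set C(G, ℝ))) h2
  simpa [Subalgebra.topologicalClosure_coe] using! h3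

end pw

end Pool.Agent.Helper33.Lap
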