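import Mathlib

/-! # Riemannian part: charts, volume, gradient, curves, isometries (helper47 for helper33) -/

open scoped Manifold ContDiff ENNReal Topology NNReal
open MeasureTheory Bundle Module Set Filter Metric Manifold

set_option linter.unusedSectionVars false

namespace Pool.Agent.Helper33.Lap

section mfd
variable {E : Type} [NormedAddCommGroup E] [NormedSpace ℝ E] [FiniteDimensional ℝ E]
  {M : Type} [MetricSpace M] [ChartedSpace E M] [IsManifold 𝓘(ℝ, E) ∞ M]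
  [RiemannianBundle (fun x : M => TangentSpace 𝓘(ℝ, E) x)]
  [IsContMDiffRiemannianBundle 𝓘(ℝ, E) ∞ E (fun x : M => TangentSpace 𝓘(ℝ, E) x)]
  [IsRiemannianManifold 𝓘(ℝ, E) M]

instance tangent_fin (x : M) : FiniteDimensional ℝ (TangentSpace 𝓘(ℝ, E) x) :=
  inferInstanceAs (FiniteDimensional ℝ E)

/-- The Riemannian gradient. -/
noncomputable def grad (f : M → ℝ) (x : M) : TangentSpace 𝓘(ℝ, E) x :=
  letI : CompleteSpace (TangentSpace 𝓘(ℝ, E) x) := FiniteDimensional.complete ℝ _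
  (InnerProductSpace.toDual ℝ (TangentSpace 𝓘(ℝ, E) x)).symm (mfderiv 𝓘(ℝ, E) 𝓘(ℝ, ℝ) f x)

theorem grad_inner (f : M → ℝ) (x : M) (v : TangentSpace 𝓘(ℝ, E) x) :
    (inner ℝ (grad (E := E) f x) v : ℝ) = mfderiv 𝓘(ℝ, E) 𝓘(ℝ, ℝ) f x v := by
  unfold grad
  simp
  rfl

instance tangent_cont : IsContinuousRiemannianBundle E (fun x : M => TangentSpace 𝓘(ℝ, E) x) := by
  obtain ⟨g, hg, h⟩ := IsContMDiffRiemannianBundle.exists_contMDiff (IB := 𝓘(ℝ, E)) (n := ∞)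
    (F := E) (E := fun x : M => TangentSpace 𝓘(ℝ, E) x)
  exact ⟨g, hg.continuous, h⟩

/-! ### continuity of `⟨grad f, grad h⟩` -/

/-- derivative in the trivialization at `x₀` -/
noncomputable def Dco (f : M → ℝ) (x₀ y : M) : E →L[ℝ] ℝ :=
  ContinuousLinearMap.comp (mfderiv 𝓘(ℝ, E) 𝓘(ℝ, ℝ) f y : TangentSpace 𝓘(ℝ, E) y →L[ℝ] ℝ)
      ((trivializationAt E (TangentSpace 𝓘(ℝ, E)) x₀).symmL ℝ y : E →L[ℝ] TangentSpace 𝓘(ℝ, E) y)

theorem continuousAt_Dco (f : C^∞⟮𝓘(ℝ, E), M; ℝ⟯) (x₀ : M) :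
    ContinuousAt (fun y : M => Dco (E := E) f x₀ y) x₀ := by
  have h1 : ContMDiffAt 𝓘(ℝ, E) 𝓘(ℝ, ℝ) ∞ f x₀ := f.contMDiff x₀
  have h2 := (h1.mfderiv_const (m := 0) (by simp)).continuousAt
  convert! h2 using 2 with y
  ext v
  simp [inTangentCoordinates, ContinuousLinearMap.inCoordinates, Dco]
  rfl

theorem continuous_inner_grad (f h : C^∞⟮𝓘(ℝ, E), M; ℝ⟯) :
    Continuous fun x => (inner ℝ (grad (E := E) f x) (grad (E := E) h x) : ℝ) := by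
  rw [continuous_iff_continuousAt]
  intro x₀
  obtain ⟨g, g_cont, hg⟩ := IsContinuousRiemannianBundle.exists_continuous (F := E)
    (E := fun x : M => TangentSpace 𝓘(ℝ, E) x)
  let e := trivializationAt E (TangentSpace 𝓘(ℝ, E)) x₀
  let g' : M → E →L[ℝ] E →L[ℝ] ℝ := fun y ↦
    ContinuousLinearMap.inCoordinates E (TangentSpace 𝓘(ℝ, E)) (E →L[ℝ] ℝ)
      (fun x : M ↦ TangentSpace 𝓘(ℝ, E) x →L[ℝ] ℝ) x₀ y x₀ y (g y)
  have hg' : ContinuousAt g' x₀ := by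
    have W := g_cont.continuousAt (x := x₀)
    simp only [continuousAt_hom_bundle] at W
    exact W.2
  have hx₀ : x₀ ∈ e.baseSet := FiberBundle.mem_baseSet_trivializationAt' x₀
  have hgy : ∀ y ∈ e.baseSet, ∀ v w : E, g' y v w = inner ℝ (e.symmL ℝ y v) (e.symmL ℝ y w) := by
    intro y hy v w
    rw [hg]
    simp only [g']
    rw [inCoordinates_apply_eq₂ hy hy (Set.mem_univ _)]
    simp only [Trivialization.symmL_apply _ hy]
    simp [e]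
  have hequiv : ∀ y ∈ e.baseSet, ∃ A : E ≃L[ℝ] (E →L[ℝ] ℝ), (A : E →L[ℝ] (E →L[ℝ] ℝ)) = g' y := by
    intro y hy
    have hinj : Function.Injective (g' y) := by
      rw [injective_iff_map_eq_zero]
      intro v hv
      have h1 : (inner ℝ (e.symmL ℝ y v) (e.symmL ℝ y v) : ℝ) = 0 := by
        rw [← hgy y hy, hv]; rfl
      have h2 : e.symmL ℝ y v = 0 := inner_self_eq_zero.1 h1
      rw [← e.continuousLinearMapAt_symmL (R := ℝ) hy v, h2, map_zero]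
    have hdim : finrank ℝ E = finrank ℝ (E →L[ℝ] ℝ) := by
      rw [← (LinearMap.toContinuousLinearMap : (E →ₗ[ℝ] ℝ) ≃ₗ[ℝ] E →L[ℝ] ℝ).finrank_eq]
      exact (Subspace.dual_finrank_eq (K := ℝ) (V := E)).symm
    let L : E ≃ₗ[ℝ] (E →L[ℝ] ℝ) := LinearEquiv.ofInjectiveOfFinrankEq (g' y).toLinearMap hinj hdim
    refine ⟨L.toContinuousLinearEquiv, ?_⟩
    ext v w
    rfl
  have key : ∀ᶠ y in 𝓝 x₀, (inner ℝ (grad (E := E) f y) (grad (E := E) h y) : ℝ) =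
      Dco (E := E) h x₀ y ((g' y).inverse (Dco (E := E) f x₀ y)) := by
    filter_upwards [e.open_baseSet.mem_nhds hx₀] with y hy
    obtain ⟨A, hA⟩ := hequiv y hy
    have hs : ∀ a : TangentSpace 𝓘(ℝ, E) y, e.symmL ℝ y (e.continuousLinearMapAt ℝ y a) = a := by
      intro a
      exact e.symmL_continuousLinearMapAt hy a
    let u : E := e.continuousLinearMapAt ℝ y (grad (E := E) f y)
    have hu : g' y u = Dco (E := E) f x₀ y := by
      ext w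
      rw [hgy y hy, hs, grad_inner]
      rfl
    have hu' : (g' y).inverse (Dco (E := E) f x₀ y) = u := by
      rw [← hu, ← hA, ContinuousLinearMap.inverse_equiv]
      simp
    rw [hu', real_inner_comm, grad_inner]
    show _ = mfderiv 𝓘(ℝ, E) 𝓘(ℝ, ℝ) h y (e.symmL ℝ y u)
    rw [hs]
  refine ContinuousAt.congr ?_ (key.mono fun y hy => hy.symm)
  refine (continuousAt_Dco h x₀).clm_apply (ContinuousAt.clm_apply ?_ (continuousAt_Dco f x₀))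
  obtain ⟨A, hA⟩ := hequiv x₀ hx₀
  have h1 : ContinuousAt (ContinuousLinearMap.inverse : (E →L[ℝ] (E →L[ℝ] ℝ)) → _) (g' x₀) := by
    rw [← hA]
    have _ : CompleteSpace E := FiniteDimensional.complete ℝ E
    exact (contDiffAt_map_inverse (n := 0) A).continuousAt
  exact ContinuousAt.comp (f := g') (x := x₀) h1 hg'

theorem continuous_norm_grad (f : C^∞⟮𝓘(ℝ, E), M; ℝ⟯) :
    Continuous fun x => ‖grad (E := E) f x‖ := by
  have h := (continuous_inner_grad f f).sqrt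
  refine h.congr fun x => ?_
  rw [norm_eq_sqrt_real_inner]

/-! ### curves -/

theorem continuous_speed {γ : ℝ → M} (hγ : ContMDiff 𝓘(ℝ, ℝ) 𝓘(ℝ, E) 1 γ) :
    Continuous fun t : ℝ => ‖(mfderiv 𝓘(ℝ, ℝ) 𝓘(ℝ, E) γ t (1 : ℝ) : TangentSpace 𝓘(ℝ, E) (γ t))‖ := by
  have h1 := hγ.continuous_tangentMap (le_refl _)
  have h2 : Continuous (fun t : ℝ => (⟨t, (1 : ℝ)⟩ : TangentBundle 𝓘(ℝ, ℝ) ℝ)) := by
    have h0 : Continuous (fun t : ℝ => ((t, (1 : ℝ)) : ModelProd ℝ ℝ)) :=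
      continuous_id.prodMk continuous_const
    exact (tangentBundleModelSpaceHomeomorph 𝓘(ℝ, ℝ)).symm.continuous.comp h0
  have h3 : Continuous (fun t : ℝ => (⟨γ t, (mfderiv 𝓘(ℝ, ℝ) 𝓘(ℝ, E) γ t (1 : ℝ) :
      TangentSpace 𝓘(ℝ, E) (γ t))⟩ : TotalSpace E (fun x : M => TangentSpace 𝓘(ℝ, E) x))) :=
    h1.comp h2
  have h4 := (Continuous.inner_bundle h3 h3).sqrt
  refine h4.congr fun x => ?_
  rw [norm_eq_sqrt_real_inner]

theorem abs_sub_le_curve (f : C^∞⟮𝓘(ℝ, E), M; ℝ⟯) {γ : ℝ → M}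
    (hγ : ContMDiff 𝓘(ℝ, ℝ) 𝓘(ℝ, E) 1 γ) :
    |f (γ 0) - f (γ 1)| ≤ ∫ t in Icc (0 : ℝ) 1,
      ‖(mfderiv 𝓘(ℝ, ℝ) 𝓘(ℝ, E) γ t (1 : ℝ) : TangentSpace 𝓘(ℝ, E) (γ t))‖ * ‖grad (E := E) f (γ t)‖ := by
  have hf1 : ContMDiff 𝓘(ℝ, E) 𝓘(ℝ, ℝ) 1 f := f.contMDiff.of_le (by exact_mod_cast le_top)
  have hg : ContDiff ℝ 1 (f ∘ γ) := by
    rw [← contMDiff_iff_contDiff]
    exact hf1.comp hγ
  have hd : ∀ t, deriv (f ∘ γ) t = inner ℝ (grad (E := E) f (γ t))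
      (mfderiv 𝓘(ℝ, ℝ) 𝓘(ℝ, E) γ t (1 : ℝ) : TangentSpace 𝓘(ℝ, E) (γ t)) := by
    intro t
    rw [grad_inner]
    have h1 : mfderiv 𝓘(ℝ, ℝ) 𝓘(ℝ, ℝ) (f ∘ γ) t =
        (mfderiv 𝓘(ℝ, E) 𝓘(ℝ, ℝ) f (γ t)) ∘L (mfderiv 𝓘(ℝ, ℝ) 𝓘(ℝ, E) γ t) := by
      apply mfderiv_comp
      · exact f.contMDiff.mdifferentiable (by simp) _
      · exact hγ.mdifferentiable one_ne_zero _
    have h2 : mfderiv 𝓘(ℝ, ℝ) 𝓘(ℝ, ℝ) (f ∘ γ) t (1 : ℝ) =
        (mfderiv 𝓘(ℝ, E) 𝓘(ℝ, ℝ) f (γ t)) ((mfderiv 𝓘(ℝ, ℝ) 𝓘(ℝ, E) γ t) (1 : ℝ)) :=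
      congr($h1 (1 : ℝ))
    rw [← h2, mfderiv_eq_fderiv]
    rfl
  have hint : ∫ t in (0 : ℝ)..1, deriv (f ∘ γ) t = (f ∘ γ) 1 - (f ∘ γ) 0 := by
    apply intervalIntegral.integral_deriv_eq_sub
    · intro t _
      exact (hg.differentiable one_ne_zero) t
    · exact (hg.continuous_deriv le_rfl).intervalIntegrable _ _
  have hcs : Continuous fun t : ℝ => ‖(mfderiv 𝓘(ℝ, ℝ) 𝓘(ℝ, E) γ t (1 : ℝ) :
      TangentSpace 𝓘(ℝ, E) (γ t))‖ * ‖grad (E := E) f (γ t)‖ :=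
    (continuous_speed hγ).mul ((continuous_norm_grad f).comp hγ.continuous)
  calc |f (γ 0) - f (γ 1)| = ‖∫ t in (0 : ℝ)..1, deriv (f ∘ γ) t‖ := by
        rw [hint, Real.norm_eq_abs, abs_sub_comm]; rfl
    _ ≤ ∫ t in (0 : ℝ)..1, ‖(mfderiv 𝓘(ℝ, ℝ) 𝓘(ℝ, E) γ t (1 : ℝ) :
      TangentSpace 𝓘(ℝ, E) (γ t))‖ * ‖grad (E := E) f (γ t)‖ := by
        apply intervalIntegral.norm_integral_le_of_norm_le zero_le_one
        · filter_upwards with t _
          rw [hd, Real.norm_eq_abs, mul_comm]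
          exact abs_real_inner_le_norm _ _
        · exact hcs.intervalIntegrable _ _
    _ = _ := by
        rw [intervalIntegral.integral_of_le zero_le_one, integral_Icc_eq_integral_Ioc]

theorem exists_curve_measure (x y : M) : ∃ ν : @Measure M (borel M),
    ν Set.univ ≤ ENNReal.ofReal (2 * dist x y) ∧
    ∀ f : C^∞⟮𝓘(ℝ, E), M; ℝ⟯, |f x - f y| ≤ ∫ p, ‖grad (E := E) f p‖ ∂ν := by
  let _ : MeasurableSpace M := borel M
  have _ : BorelSpace M := ⟨rfl⟩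
  rcases eq_or_ne x y with rfl | hxy
  · refine ⟨0, by simp, fun f => by simp⟩
  have hlt : riemannianEDist 𝓘(ℝ, E) x y < ENNReal.ofReal (2 * dist x y) := by
    rw [← IsRiemannianManifold.out (I := 𝓘(ℝ, E)) x y, edist_dist]
    apply (ENNReal.ofReal_lt_ofReal_iff (by have := dist_pos.2 hxy; positivity)).2
    have := dist_pos.2 hxy
    linarith
  obtain ⟨γ, hγx, hγy, hγ, hlen, -⟩ :=
    exists_lt_locally_constant_of_riemannianEDist_lt hlt zero_lt_one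
  have hsp := continuous_speed hγ
  let s : ℝ → ℝ≥0 := fun t => ‖(mfderiv 𝓘(ℝ, ℝ) 𝓘(ℝ, E) γ t (1 : ℝ) : TangentSpace 𝓘(ℝ, E) (γ t))‖₊
  have hs : Continuous s := by
    exact continuous_induced_rng.2 hsp
  have hmγ : Measurable γ := hγ.continuous.measurable
  refine ⟨Measure.map γ ((volume.restrict (Icc (0 : ℝ) 1)).withDensity fun t => (s t : ℝ≥0∞)), ?_, ?_⟩
  · rw [Measure.map_apply hmγ MeasurableSet.univ, preimage_univ, withDensity_apply _ MeasurableSet.univ,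
      Measure.restrict_univ]
    refine le_trans (le_of_eq ?_) hlen.le
    rw [pathELength_eq_lintegral_mfderiv_Icc]
    rfl
  · intro f
    rw [integral_map hmγ.aemeasurable (continuous_norm_grad f).aestronglyMeasurable,
      integral_withDensity_eq_integral_smul hs.measurable]
    have := abs_sub_le_curve f hγ
    rw [hγx, hγy] at this
    exact this

/-! ### isometries -/

theorem edist_le_of_norm_mfderiv (φ : M → M) (hs : ContMDiff 𝓘(ℝ, E) 𝓘(ℝ, E) ∞ φ)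
    (hφ : ∀ (p : M) (v : TangentSpace 𝓘(ℝ, E) p), ‖mfderiv 𝓘(ℝ, E) 𝓘(ℝ, E) φ p v‖ = ‖v‖)
    (x y : M) : edist (φ x) (φ y) ≤ edist x y := by
  rw [IsRiemannianManifold.out (I := 𝓘(ℝ, E)) x y, IsRiemannianManifold.out (I := 𝓘(ℝ, E)) (φ x) (φ y)]
  apply le_of_forall_gt (fun r hr ↦ ?_)
  obtain ⟨γ, h0, h1, hγ, hlen⟩ := exists_lt_of_riemannianEDist_lt hr
  have hcomp : ContMDiffOn 𝓘(ℝ, ℝ) 𝓘(ℝ, E) 1 (φ ∘ γ) (Icc 0 1) :=
    (hs.of_le (by exact_mod_cast le_top)).comp_contMDiffOn hγ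
  have h2 : riemannianEDist 𝓘(ℝ, E) (φ x) (φ y) ≤ pathELength 𝓘(ℝ, E) (φ ∘ γ) 0 1 :=
    riemannianEDist_le_pathELength hcomp (by simp [h0]) (by simp [h1]) zero_le_one
  refine h2.trans_lt (lt_of_le_of_lt (le_of_eq ?_) hlen)
  rw [pathELength_eq_lintegral_mfderivWithin_Icc, pathELength_eq_lintegral_mfderivWithin_Icc]
  apply setLIntegral_congr_fun measurableSet_Icc (fun t ht ↦ ?_)
  have h3 : mfderivWithin 𝓘(ℝ, ℝ) 𝓘(ℝ, E) (φ ∘ γ) (Icc 0 1) t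
      = (mfderiv 𝓘(ℝ, E) 𝓘(ℝ, E) φ (γ t)) ∘L (mfderivWithin 𝓘(ℝ, ℝ) 𝓘(ℝ, E) γ (Icc 0 1) t) := by
    apply mfderiv_comp_mfderivWithin
    · exact (hs.mdifferentiable (by simp)) _
    · exact hγ.mdifferentiableOn one_ne_zero _ ht
    · rw [uniqueMDiffWithinAt_iff_uniqueDiffWithinAt]
      exact uniqueDiffOn_Icc zero_lt_one _ ht
  have h4 : mfderivWithin 𝓘(ℝ, ℝ) 𝓘(ℝ, E) (φ ∘ γ) (Icc 0 1) t 1
      = (mfderiv 𝓘(ℝ, E) 𝓘(ℝ, E) φ (γ t)) ((mfderivWithin 𝓘(ℝ, ℝ) 𝓘(ℝ, E) γ (Icc 0 1) t) 1) :=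
    congr($h3 1)
  rw [h4]
  have h5 := hφ (γ t) ((mfderivWithin 𝓘(ℝ, ℝ) 𝓘(ℝ, E) γ (Icc 0 1) t) 1)
  rw [← ofReal_norm, ← ofReal_norm]
  congr 1

theorem norm_mfderiv_symm (φ : M ≃ₘ^∞⟮𝓘(ℝ, E), 𝓘(ℝ, E)⟯ M)
    (hφ : ∀ (p : M) (v : TangentSpace 𝓘(ℝ, E) p), ‖mfderiv 𝓘(ℝ, E) 𝓘(ℝ, E) φ p v‖ = ‖v‖)
    (p : M) (v : TangentSpace 𝓘(ℝ, E) p) :
    ‖mfderiv 𝓘(ℝ, E) 𝓘(ℝ, E) φ.symm p v‖ = ‖v‖ := by
  have h2 := hφ (φ.symm p) (mfderiv 𝓘(ℝ, E) 𝓘(ℝ, E) φ.symm p v)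
  rw [← h2]
  have h3 : mfderiv 𝓘(ℝ, E) 𝓘(ℝ, E) (φ ∘ φ.symm) p =
      (mfderiv 𝓘(ℝ, E) 𝓘(ℝ, E) φ (φ.symm p)) ∘L (mfderiv 𝓘(ℝ, E) 𝓘(ℝ, E) φ.symm p) := by
    apply mfderiv_comp
    · exact φ.contMDiff.mdifferentiable (by simp) _
    · exact φ.symm.contMDiff.mdifferentiable (by simp) _
  have h5 : mfderiv 𝓘(ℝ, E) 𝓘(ℝ, E) (φ ∘ φ.symm) p v =
      (mfderiv 𝓘(ℝ, E) 𝓘(ℝ, E) φ (φ.symm p)) ((mfderiv 𝓘(ℝ, E) 𝓘(ℝ, E) φ.symm p) v) :=
    congr($h3 v)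
  have h4 : (φ ∘ φ.symm : M → M) = id := by
    ext x; simp
  have h6 : ∀ g : M → M, g = id → ‖mfderiv 𝓘(ℝ, E) 𝓘(ℝ, E) g p v‖ = ‖v‖ := by
    rintro _ rfl
    rw [mfderiv_id]
    rfl
  rw [← h6 _ h4, h5]

theorem isometry_of_norm_mfderiv (φ : M ≃ₘ^∞⟮𝓘(ℝ, E), 𝓘(ℝ, E)⟯ M)
    (hφ : ∀ (p : M) (v : TangentSpace 𝓘(ℝ, E) p), ‖mfderiv 𝓘(ℝ, E) 𝓘(ℝ, E) φ p v‖ = ‖v‖) :
    Isometry φ := by
  intro x y
  apply le_antisymm
  · exact edist_le_of_norm_mfderiv φ φ.contMDiff hφ x y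
  · have h1 := edist_le_of_norm_mfderiv φ.symm φ.symm.contMDiff (norm_mfderiv_symm φ hφ) (φ x) (φ y)
    simpa using h1

theorem inner_grad_comp (φ : M ≃ₘ^∞⟮𝓘(ℝ, E), 𝓘(ℝ, E)⟯ M)
    (hφ : ∀ (p : M) (v : TangentSpace 𝓘(ℝ, E) p), ‖mfderiv 𝓘(ℝ, E) 𝓘(ℝ, E) φ p v‖ = ‖v‖)
    (f h : C^∞⟮𝓘(ℝ, E), M; ℝ⟯) (x : M) :
    (inner ℝ (grad (E := E) (f ∘ φ) x) (grad (E := E) (h ∘ φ) x) : ℝ) =
      inner ℝ (grad (E := E) f (φ x)) (grad (E := E) h (φ x)) := by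
  let A : TangentSpace 𝓘(ℝ, E) x →ₗᵢ[ℝ] TangentSpace 𝓘(ℝ, E) (φ x) :=
    ⟨(mfderiv 𝓘(ℝ, E) 𝓘(ℝ, E) φ x : TangentSpace 𝓘(ℝ, E) x →L[ℝ] TangentSpace 𝓘(ℝ, E) (φ x)),
      hφ x⟩
  have hsurj : Function.Surjective A := by
    have h1 : Function.Injective A := A.injective
    have h2 : finrank ℝ (TangentSpace 𝓘(ℝ, E) x) = finrank ℝ (TangentSpace 𝓘(ℝ, E) (φ x)) := rfl
    exact (LinearMap.injective_iff_surjective_of_finrank_eq_finrank (f := A.toLinearMap) h2).1 h1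
  have key : ∀ k : C^∞⟮𝓘(ℝ, E), M; ℝ⟯, A (grad (E := E) (k ∘ φ) x) = grad (E := E) k (φ x) := by
    intro k
    apply ext_inner_right ℝ
    intro w
    obtain ⟨v, rfl⟩ := hsurj w
    rw [A.inner_map_map, grad_inner, grad_inner]
    have h3 : mfderiv 𝓘(ℝ, E) 𝓘(ℝ, ℝ) (k ∘ φ) x =
      (mfderiv 𝓘(ℝ, E) 𝓘(ℝ, ℝ) k (φ x)) ∘L (mfderiv 𝓘(ℝ, E) 𝓘(ℝ, E) φ x) := by
      apply mfderiv_comp
      · exact k.contMDiff.mdifferentiable (by simp) _
      · exact φ.contMDiff.mdifferentiable (by simp) _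
    exact congr($h3 v)
  rw [← key, ← key, A.inner_map_map]

/-! ### bi-Lipschitz charts -/

section chart
attribute [local instance] normedAddCommGroupTangentSpaceVectorSpace
attribute [local instance] normedSpaceTangentSpaceVectorSpace

set_option backward.isDefEq.respectTransparency false in
theorem chart_upper (x : M) : ∃ C > (0 : ℝ≥0), ∃ r > 0,
    ball (extChartAt 𝓘(ℝ, E) x x) r ⊆ (extChartAt 𝓘(ℝ, E) x).target ∧
    ∀ y ∈ (extChartAt 𝓘(ℝ, E) x).source, ∀ z ∈ (extChartAt 𝓘(ℝ, E) x).source,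
    extChartAt 𝓘(ℝ, E) x y ∈ ball (extChartAt 𝓘(ℝ, E) x x) r →
    extChartAt 𝓘(ℝ, E) x z ∈ ball (extChartAt 𝓘(ℝ, E) x x) r →
    edist y z ≤ C * edist (extChartAt 𝓘(ℝ, E) x y) (extChartAt 𝓘(ℝ, E) x z) := by
  rcases eventually_enorm_mfderivWithin_symm_extChartAt_lt 𝓘(ℝ, E) x with ⟨C, C_pos, hC⟩
  obtain ⟨r, r_pos, hr⟩ : ∃ r > 0,
      ball (extChartAt 𝓘(ℝ, E) x x) r ∩ range 𝓘(ℝ, E) ⊆ (extChartAt 𝓘(ℝ, E) x).target ∩
        {y | ‖mfderiv[range 𝓘(ℝ, E)] (extChartAt 𝓘(ℝ, E) x).symm y‖ₑ < C} :=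
    mem_nhdsWithin_iff.1 (inter_mem (extChartAt_target_mem_nhdsWithin x) hC)
  have hrange : range 𝓘(ℝ, E) = (univ : Set E) := by simp
  rw [hrange, inter_univ] at hr
  refine ⟨C, C_pos, r, r_pos, fun w hw => (hr hw).1, ?_⟩
  intro y hy z hz hyr hzr
  rw [IsRiemannianManifold.out (I := 𝓘(ℝ, E)) y z]
  let η := ContinuousAffineMap.lineMap (R := ℝ) (extChartAt 𝓘(ℝ, E) x y) (extChartAt 𝓘(ℝ, E) x z)
  set γ := (extChartAt 𝓘(ℝ, E) x).symm ∘ η
  have hη : Icc 0 1 ⊆ ⇑η ⁻¹' ((extChartAt 𝓘(ℝ, E) x).target ∩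
        {y | ‖mfderiv[range 𝓘(ℝ, E)] (extChartAt 𝓘(ℝ, E) x).symm y‖ₑ < C}) := by
    simp only [← image_subset_iff, ContinuousAffineMap.coe_lineMap_eq,
     ← segment_eq_image_lineMap, η]
    rw [hrange]
    apply Subset.trans _ hr
    exact (convex_ball _ _).segment_subset hyr hzr
  simp only [preimage_inter, subset_inter_iff] at hη
  have η_smooth : CMDiff[Icc 0 1] 1 η := by
    apply ContMDiff.contMDiffOn
    rw [contMDiff_iff_contDiff]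
    exact ContinuousAffineMap.contDiff _
  have : riemannianEDist 𝓘(ℝ, E) y z ≤ pathELength 𝓘(ℝ, E) γ 0 1 := by
    apply riemannianEDist_le_pathELength _ _ _ zero_le_one
    · exact (contMDiffOn_extChartAt_symm x).comp η_smooth hη.1
    · simp only [γ, η, ContinuousAffineMap.coe_lineMap_eq, Function.comp_apply,
        AffineMap.lineMap_apply_zero]
      exact (extChartAt 𝓘(ℝ, E) x).left_inv hy
    · simp only [γ, η, ContinuousAffineMap.coe_lineMap_eq, Function.comp_apply,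
        AffineMap.lineMap_apply_one]
      exact (extChartAt 𝓘(ℝ, E) x).left_inv hz
  apply this.trans
  rw [← lintegral_fderiv_lineMap_eq_edist, pathELength_eq_lintegral_mfderivWithin_Icc,
    ← lintegral_const_mul' _ _ ENNReal.coe_ne_top]
  apply setLIntegral_mono' measurableSet_Icc (fun t ht ↦ ?_)
  have : mfderiv[Icc 0 1] γ t =
      (mfderiv[range 𝓘(ℝ, E)] (extChartAt 𝓘(ℝ, E) x).symm (η t)) ∘L (mfderiv[Icc 0 1] η t) := by
    apply mfderivWithin_comp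
    · exact mdifferentiableWithinAt_extChartAt_symm (hη.1 ht)
    · exact η_smooth.mdifferentiableOn one_ne_zero t ht
    · exact hη.1.trans (preimage_mono (extChartAt_target_subset_range x))
    · rw [uniqueMDiffWithinAt_iff_uniqueDiffWithinAt]
      exact uniqueDiffOn_Icc zero_lt_one t ht
  have : mfderiv[Icc 0 1] γ t 1 =
      (mfderiv[range 𝓘(ℝ, E)] (extChartAt 𝓘(ℝ, E) x).symm (η t)) (mfderiv[Icc 0 1] η t 1) :=
    congr($this 1)
  rw [this]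
  apply (ContinuousLinearMap.le_opENorm _ _).trans
  gcongr
  · exact (hη.2 ht).le
  · simp only [mfderivWithin_eq_fderivWithin]
    exact le_of_eq rfl

set_option backward.isDefEq.respectTransparency false in
theorem chart_lower (x : M) : ∃ C > (0 : ℝ≥0), ∃ r > 0,
    ball x r ⊆ (extChartAt 𝓘(ℝ, E) x).source ∧
    ∀ y ∈ ball x r, ∀ z ∈ ball x r,
    edist (extChartAt 𝓘(ℝ, E) x y) (extChartAt 𝓘(ℝ, E) x z) ≤ C * edist y z := by
  rcases eventually_enorm_mfderiv_extChartAt_lt 𝓘(ℝ, E) x with ⟨C, C_pos, hC⟩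
  obtain ⟨ρ, ρ_pos, hρ⟩ : ∃ ρ > 0, ball x ρ ⊆
      {y | ‖mfderiv% (extChartAt 𝓘(ℝ, E) x) y‖ₑ < C} ∩ (extChartAt 𝓘(ℝ, E) x).source :=
    Metric.mem_nhds_iff.1 (Filter.inter_mem hC (extChartAt_source_mem_nhds (I := 𝓘(ℝ, E)) x))
  refine ⟨C, C_pos, ρ / 4, by positivity, fun w hw => (hρ (ball_subset_ball (by linarith) hw)).2, ?_⟩
  intro y hy z hz
  have hyz : edist y z < ENNReal.ofReal (ρ / 2) := by
    rw [edist_dist]
    apply (ENNReal.ofReal_lt_ofReal_iff (by positivity)).2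
    have h1 := dist_triangle_right y z x
    rw [mem_ball] at hy hz
    linarith
  suffices H : edist (extChartAt 𝓘(ℝ, E) x y) (extChartAt 𝓘(ℝ, E) x z) / C ≤ edist y z by
    rw [ENNReal.div_le_iff_le_mul (Or.inl (by exact_mod_cast C_pos.ne'))
      (Or.inl ENNReal.coe_ne_top)] at H
    rwa [mul_comm]
  apply le_of_forall_gt
  intro c hc
  have hc' : riemannianEDist 𝓘(ℝ, E) y z < min c (ENNReal.ofReal (ρ / 2)) := by
    rw [← IsRiemannianManifold.out (I := 𝓘(ℝ, E)) y z]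
    exact lt_min hc hyz
  rcases exists_lt_locally_constant_of_riemannianEDist_lt hc' zero_lt_one
    with ⟨γ, hγx, hγy, γ_smooth, hγ, -⟩
  -- the path stays in the ball
  have hball : ∀ t ∈ Icc (0 : ℝ) 1, γ t ∈ ball x ρ := by
    intro t ht
    have h1 : edist y (γ t) < ENNReal.ofReal (ρ / 2) := by
      rw [IsRiemannianManifold.out (I := 𝓘(ℝ, E)) y (γ t)]
      calc riemannianEDist 𝓘(ℝ, E) y (γ t) ≤ pathELength 𝓘(ℝ, E) γ 0 t :=
            riemannianEDist_le_pathELength γ_smooth.contMDiffOn hγx rfl ht.1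
        _ ≤ pathELength 𝓘(ℝ, E) γ 0 1 := pathELength_mono le_rfl ht.2
        _ < _ := hγ.trans_le (min_le_right _ _)
    rw [edist_dist] at h1
    have h2 := (ENNReal.ofReal_lt_ofReal_iff (by positivity)).1 h1
    rw [mem_ball] at hy ⊢
    have h3 := dist_triangle (γ t) y x
    rw [dist_comm] at h2
    linarith
  have hsrc : ∀ t ∈ Icc (0 : ℝ) 1, γ t ∈ (chartAt E x).source := by
    intro t ht
    have := (hρ (hball t ht)).2
    rwa [extChartAt_source] at this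
  let γ' := extChartAt 𝓘(ℝ, E) x ∘ γ
  have hC1 : CMDiff[Icc 0 1] 1 γ' :=
    contMDiffOn_extChartAt.comp (I' := 𝓘(ℝ, E)) (t := (chartAt E x).source)
      γ_smooth.contMDiffOn (fun t' ht' ↦ hsrc t' ht')
  have : edist (extChartAt 𝓘(ℝ, E) x y) (extChartAt 𝓘(ℝ, E) x z) ≤ C * pathELength 𝓘(ℝ, E) γ 0 1 := by
    rw [edist_comm, edist_eq_enorm_sub, show extChartAt 𝓘(ℝ, E) x y = γ' 0 by simp [γ', hγx],
      show extChartAt 𝓘(ℝ, E) x z = γ' 1 by simp [γ', hγy]]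
    calc
      ‖γ' 1 - γ' 0‖ₑ
    _ ≤ ∫⁻ t' in Icc 0 1, ‖derivWithin γ' (Icc 0 1) t'‖ₑ := by
      apply enorm_sub_le_lintegral_derivWithin_Icc_of_contDiffOn_Icc _ zero_le_one
      rwa [← contMDiffOn_iff_contDiffOn]
    _ = ∫⁻ t' in Icc 0 1, ‖mfderiv[Icc 0 1] γ' t' 1‖ₑ := by
      simp_rw [← fderivWithin_derivWithin, mfderivWithin_eq_fderivWithin]
      rfl
    _ ≤ ∫⁻ t' in Icc 0 1, C * ‖mfderiv[Icc 0 1] γ t' 1‖ₑ := by
      apply setLIntegral_mono' measurableSet_Icc (fun t' ht' ↦ ?_)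
      have : mfderiv[Icc 0 1] γ' t' =
          (mfderiv% (extChartAt 𝓘(ℝ, E) x) (γ t')) ∘L (mfderiv[Icc 0 1] γ t') := by
        apply mfderiv_comp_mfderivWithin
        · refine mdifferentiableAt_extChartAt (hsrc t' ht')
        · exact (γ_smooth.mdifferentiable one_ne_zero).mdifferentiableOn _ ht'
        · rw [uniqueMDiffWithinAt_iff_uniqueDiffWithinAt]
          exact uniqueDiffOn_Icc zero_lt_one _ ht'
      have : mfderiv[Icc 0 1] γ' t' 1 =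
          (mfderiv% (extChartAt 𝓘(ℝ, E) x) (γ t')) (mfderiv[Icc 0 1] γ t' 1) :=
        congr($this 1)
      rw [this]
      apply (ContinuousLinearMap.le_opENorm _ _).trans
      gcongr
      exact (hρ (hball t' ht')).1.le
    _ = C * pathELength 𝓘(ℝ, E) γ 0 1 := by
      rw [lintegral_const_mul' _ _ ENNReal.coe_ne_top,
          pathELength_eq_lintegral_mfderivWithin_Icc]
  calc edist (extChartAt 𝓘(ℝ, E) x y) (extChartAt 𝓘(ℝ, E) x z) / C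
      ≤ (C * pathELength 𝓘(ℝ, E) γ 0 1) / C := by gcongr
    _ = pathELength 𝓘(ℝ, E) γ 0 1 := by
        rw [mul_comm, ENNReal.mul_div_cancel_right (by exact_mod_cast C_pos.ne') ENNReal.coe_ne_top]
    _ < min c (ENNReal.ofReal (ρ / 2)) := hγ
    _ ≤ c := min_le_left _ _

end chart

variable (E) in
theorem exists_bilipschitz_chart (x : M) : ∃ (ψ : OpenPartialHomeomorph M E) (K : ℝ), 0 < K ∧
    x ∈ ψ.source ∧ ∀ y ∈ ψ.source, ∀ z ∈ ψ.source,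
      dist y z ≤ K * ‖ψ y - ψ z‖ ∧ ‖ψ y - ψ z‖ ≤ K * dist y z := by
  obtain ⟨C₁, hC₁, r₁, hr₁, h1a, h1⟩ := chart_upper (E := E) x
  obtain ⟨C₂, hC₂, r₂, hr₂, h2a, h2⟩ := chart_lower (E := E) x
  let e := chartAt E x
  have hext : ∀ y, extChartAt 𝓘(ℝ, E) x y = e y := by intro y; simp [e]
  have hsrc : (extChartAt 𝓘(ℝ, E) x).source = e.source := by simp [e]
  have hU : IsOpen (e.source ∩ e ⁻¹' (ball (e x) r₁)) :=
    e.continuousOn.isOpen_inter_preimage e.open_source isOpen_ball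
  refine ⟨e.restrOpen ((e.source ∩ e ⁻¹' (ball (e x) r₁)) ∩ ball x r₂) (hU.inter isOpen_ball),
    max C₁ C₂, lt_max_of_lt_left (by exact_mod_cast hC₁), ?_, ?_⟩
  · simp [e, hr₁, hr₂]
  · intro y hy z hz
    rw [OpenPartialHomeomorph.restrOpen_source] at hy hz
    have key1 := h1 y (by rw [hsrc]; exact hy.1) z (by rw [hsrc]; exact hz.1)
      (by rw [hext, hext]; exact hy.2.1.2) (by rw [hext, hext]; exact hz.2.1.2)
    have key2 := h2 y hy.2.2 z hz.2.2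
    rw [hext, hext] at key1 key2
    have k1 : dist y z ≤ C₁ * ‖e y - e z‖ := by
      rw [← dist_eq_norm]
      rw [edist_nndist, edist_nndist] at key1
      exact_mod_cast key1
    have k2 : ‖e y - e z‖ ≤ C₂ * dist y z := by
      rw [← dist_eq_norm]
      rw [edist_nndist, edist_nndist] at key2
      exact_mod_cast key2
    constructor
    · calc dist y z ≤ C₁ * ‖e y - e z‖ := k1
        _ ≤ max (C₁ : ℝ) C₂ * ‖e y - e z‖ := by gcongr; exact le_max_left _ _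
    · calc ‖e y - e z‖ ≤ C₂ * dist y z := k2
        _ ≤ max (C₁ : ℝ) C₂ * dist y z := by gcongr; exact le_max_right _ _

variable [MeasurableSpace M] [BorelSpace M]

variable (E M) in
/-- Riemannian volume, up to a constant factor -/
noncomputable def vol : Measure M := Measure.hausdorffMeasure (finrank ℝ E : ℝ)

theorem vol_nhds (x : M) : ∃ U ∈ 𝓝 x, (vol E M) U < ⊤ := by
  obtain ⟨ψ, K, hK, hx, hψ⟩ := exists_bilipschitz_chart E x
  have ht : ψ.target ∈ 𝓝 (ψ x) := ψ.open_target.mem_nhds (ψ.map_source hx)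
  obtain ⟨r, hr, hb⟩ := Metric.mem_nhds_iff.1 ht
  let _ : MeasurableSpace E := borel E
  have _ : BorelSpace E := ⟨rfl⟩
  refine ⟨ψ.source ∩ ψ ⁻¹' ball (ψ x) r, ?_, ?_⟩
  · exact (ψ.continuousOn.isOpen_inter_preimage ψ.open_source isOpen_ball).mem_nhds
      ⟨hx, by simp [hr]⟩
  · have himg : ψ.source ∩ ψ ⁻¹' ball (ψ x) r = ψ.symm '' (ball (ψ x) r) := by
      ext y
      constructor
      · rintro ⟨h1, h2⟩
        exact ⟨ψ y, h2, ψ.left_inv h1⟩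
      · rintro ⟨w, hw, rfl⟩
        refine ⟨ψ.map_target (hb hw), ?_⟩
        rw [mem_preimage, ψ.right_inv (hb hw)]
        exact hw
    have hlip : LipschitzOnWith K.toNNReal ψ.symm (ball (ψ x) r) := by
      apply LipschitzOnWith.of_dist_le_mul
      intro w hw w' hw'
      have := (hψ _ (ψ.map_target (hb hw)) _ (ψ.map_target (hb hw'))).1
      rw [ψ.right_inv (hb hw), ψ.right_inv (hb hw')] at this
      rw [Real.coe_toNNReal K hK.le, dist_eq_norm]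
      exact this
    rw [himg]
    have h1 := hlip.hausdorffMeasure_image_le (d := (finrank ℝ E : ℝ)) (by positivity)
    refine h1.trans_lt ?_
    have h2 : (Measure.hausdorffMeasure (finrank ℝ E : ℝ) : Measure E) (ball (ψ x) r) < ⊤ :=
      measure_ball_lt_top
    apply ENNReal.mul_lt_top _ h2
    apply ENNReal.rpow_lt_top_of_nonneg (by positivity) ENNReal.coe_ne_top

theorem vol_finite [CompactSpace M] : IsFiniteMeasure (vol E M) := by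
  constructor
  have : ∀ x ∈ (univ : Set M), ∃ U ∈ 𝓝[univ] x, (vol E M) U < ⊤ := by
    intro x _
    rw [nhdsWithin_univ]
    exact vol_nhds x
  exact IsCompact.measure_lt_top_of_nhdsWithin isCompact_univ this

theorem vol_openPos : (vol E M).IsOpenPosMeasure := by
  constructor
  intro U hU hne h0
  obtain ⟨x, hx⟩ := hne
  obtain ⟨ψ, K, hK, hxs, hψ⟩ := exists_bilipschitz_chart E x
  let _ : MeasurableSpace E := borel E
  have _ : BorelSpace E := ⟨rfl⟩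
  have himg : IsOpen (ψ '' (ψ.source ∩ U)) :=
    ψ.isOpen_image_of_subset_source (ψ.open_source.inter hU) inter_subset_left
  have hlip : LipschitzOnWith K.toNNReal ψ (ψ.source ∩ U) := by
    apply LipschitzOnWith.of_dist_le_mul
    intro w hw w' hw'
    rw [Real.coe_toNNReal K hK.le, dist_eq_norm]
    exact (hψ _ hw.1 _ hw'.1).2
  have h1 := hlip.hausdorffMeasure_image_le (d := (finrank ℝ E : ℝ)) (by positivity)
  have h2 : (Measure.hausdorffMeasure (finrank ℝ E : ℝ) : Measure M) (ψ.source ∩ U) = 0 :=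
    measure_mono_null inter_subset_right h0
  rw [h2, mul_zero] at h1
  have h3 : 0 < (Measure.hausdorffMeasure (finrank ℝ E : ℝ) : Measure E) (ψ '' (ψ.source ∩ U)) :=
    himg.measure_pos _ ⟨ψ x, x, ⟨hxs, hx⟩, rfl⟩
  exact absurd h1 (not_le.2 h3)

end mfd

end Pool.Agent.Helper33.Lap
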