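import Mathlib
import Pool.Agent.Helper33.Lap.Riem
import Pool.Agent.Helper33.Lap.Abstract
import Pool.Agent.Helper33.Lap.Eigen
import Pool.Agent.Helper33.Lap.Finite
import Pool.Agent.Helper33.Lap.PeterWeyl
import Pool.Agent.Helper33.Lap.Iso

/-! # Laplacian subalgebras: assembling the proof -/

open scoped Manifold ContDiff ENNReal
open MeasureTheory Bundle Module

set_option linter.unusedSectionVars false

namespace Pool.Agent.Helper33.Lap

variable {E : Type} [NormedAddCommGroup E] [NormedSpace ℝ E] [FiniteDimensional ℝ E]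
  {M : Type} [MetricSpace M] [ChartedSpace E M] [IsManifold 𝓘(ℝ, E) ∞ M]
  [RiemannianBundle (fun x : M => TangentSpace 𝓘(ℝ, E) x)]
  [IsContMDiffRiemannianBundle 𝓘(ℝ, E) ∞ E (fun x : M => TangentSpace 𝓘(ℝ, E) x)]
  [IsRiemannianManifold 𝓘(ℝ, E) M] [MeasurableSpace M] [BorelSpace M]

/-- `Δ f = h`, in weak form -/
def IsLaplacian (f h : C^∞⟮𝓘(ℝ, E), M; ℝ⟯) : Prop :=
  ∀ φ : C^∞⟮𝓘(ℝ, E), M; ℝ⟯,
    ∫ x, inner ℝ (grad (E := E) f x) (grad (E := E) φ x) ∂(vol E M) =
      ∫ x, h x * φ x ∂(vol E M)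

variable (E M) in
/-- finite sums of eigenfunctions -/
noncomputable def algebraicFunctions : Submodule ℝ C^∞⟮𝓘(ℝ, E), M; ℝ⟯ :=
  Submodule.span ℝ {f | ∃ c : ℝ, IsLaplacian f (c • f)}

variable (E M) in
/-- the group of Riemannian isometries is transitive -/
def IsHomogeneous : Prop := ∀ x y : M, ∃ φ : M ≃ₘ^∞⟮𝓘(ℝ, E), 𝓘(ℝ, E)⟯ M,
  (∀ (p : M) (v : TangentSpace 𝓘(ℝ, E) p), ‖mfderiv 𝓘(ℝ, E) 𝓘(ℝ, E) φ p v‖ = ‖v‖) ∧ φ x = y

/-! ### linearity of the gradient -/

theorem grad_add (f h : C^∞⟮𝓘(ℝ, E), M; ℝ⟯) (x : M) :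
    grad (E := E) (f + h : C^∞⟮𝓘(ℝ, E), M; ℝ⟯) x = grad (E := E) f x + grad (E := E) h x := by
  refine ext_inner_right ℝ fun v => ?_
  rw [inner_add_left, grad_inner, grad_inner, grad_inner]
  have h1 := mfderiv_add (I := 𝓘(ℝ, E)) (f := (f : M → ℝ)) (g := (h : M → ℝ)) (z := x)
    (f.contMDiff.mdifferentiable (by simp) x) (h.contMDiff.mdifferentiable (by simp) x)
  exact congrArg (fun L : TangentSpace 𝓘(ℝ, E) x →L[ℝ] ℝ => L v) h1

theorem grad_smul (c : ℝ) (f : C^∞⟮𝓘(ℝ, E), M; ℝ⟯) (x : M) :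
    grad (E := E) (c • f : C^∞⟮𝓘(ℝ, E), M; ℝ⟯) x = c • grad (E := E) f x := by
  refine ext_inner_right ℝ fun v => ?_
  rw [real_inner_smul_left, grad_inner, grad_inner]
  have h1 := const_smul_mfderiv (I := 𝓘(ℝ, E)) (f := (f : M → ℝ)) (z := x)
    (f.contMDiff.mdifferentiable (by simp) x) c
  exact congrArg (fun L : TangentSpace 𝓘(ℝ, E) x →L[ℝ] ℝ => L v) h1

theorem grad_zero (x : M) : grad (E := E) (0 : C^∞⟮𝓘(ℝ, E), M; ℝ⟯) x = 0 := by
  have := grad_smul (E := E) (0 : ℝ) (0 : C^∞⟮𝓘(ℝ, E), M; ℝ⟯) x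
  rwa [zero_smul, zero_smul] at this

section lin

theorem inner_grad_integrable [CompactSpace M] (f h : C^∞⟮𝓘(ℝ, E), M; ℝ⟯) :
    Integrable (fun x => (inner ℝ (grad (E := E) f x) (grad (E := E) h x) : ℝ)) (vol E M) := by
  have := vol_finite (E := E) (M := M)
  exact (continuous_inner_grad f h).integrable_of_hasCompactSupport
    (HasCompactSupport.of_compactSpace _)

theorem mul_integrable [CompactSpace M] (f h : C^∞⟮𝓘(ℝ, E), M; ℝ⟯) :
    Integrable (fun x => f x * h x) (vol E M) := by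
  have := vol_finite (E := E) (M := M)
  exact (f.contMDiff.continuous.mul h.contMDiff.continuous).integrable_of_hasCompactSupport
    (HasCompactSupport.of_compactSpace _)

theorem IsLaplacian.add [CompactSpace M] {f h f' h' : C^∞⟮𝓘(ℝ, E), M; ℝ⟯} (H : IsLaplacian f h)
    (H' : IsLaplacian f' h') : IsLaplacian (f + f') (h + h') := by
  intro φ
  simp only [grad_add, inner_add_left]
  rw [integral_add (inner_grad_integrable f φ) (inner_grad_integrable f' φ), H φ, H' φ,
    ← integral_add (mul_integrable h φ) (mul_integrable h' φ)]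
  congr 1; ext x
  change h x * φ x + h' x * φ x = (h x + h' x) * φ x
  ring

theorem IsLaplacian.smul {f h : C^∞⟮𝓘(ℝ, E), M; ℝ⟯} (c : ℝ) (H : IsLaplacian f h) :
    IsLaplacian (c • f) (c • h) := by
  intro φ
  simp only [grad_smul, real_inner_smul_left]
  rw [integral_const_mul, H φ, ← integral_const_mul]
  congr 1; ext x
  change c * (h x * φ x) = (c * h x) * φ x
  ring

theorem IsLaplacian.zero : IsLaplacian (0 : C^∞⟮𝓘(ℝ, E), M; ℝ⟯) 0 := by
  intro φ
  simp only [grad_zero, inner_zero_left, integral_zero]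
  rw [eq_comm]
  convert integral_zero M ℝ using 2
  ext x
  change (0 : ℝ) * _ = 0
  ring

variable (E M) in
/-- the eigenspaces -/
noncomputable def eig [CompactSpace M] (c : ℝ) : Submodule ℝ C^∞⟮𝓘(ℝ, E), M; ℝ⟯ where
  carrier := {f | IsLaplacian f (c • f)}
  add_mem' := by
    intro f f' hf hf'
    have := IsLaplacian.add hf hf'
    rw [← smul_add] at this
    exact this
  zero_mem' := by
    change IsLaplacian 0 (c • 0)
    rw [smul_zero]; exact IsLaplacian.zero
  smul_mem' := by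
    intro t f hf
    have := IsLaplacian.smul t hf
    change IsLaplacian (t • f) (c • t • f)
    rw [smul_comm]; exact this

theorem isLaplacian_sum [CompactSpace M] (F : Finset ℝ) (f : ℝ → C^∞⟮𝓘(ℝ, E), M; ℝ⟯)
    (hf : ∀ c, f c ∈ eig E M c) : IsLaplacian (∑ c ∈ F, f c) (∑ c ∈ F, c • f c) := by
  classical
  induction F using Finset.induction_on with
  | empty => simpa using IsLaplacian.zero
  | insert a s ha ih =>
    rw [Finset.sum_insert ha, Finset.sum_insert ha]
    exact IsLaplacian.add (hf a) ih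

/-- components of elements of a Laplacian subalgebra -/
theorem component_mem [CompactSpace M] (A : Submodule ℝ C^∞⟮𝓘(ℝ, E), M; ℝ⟯)
    (hΔ : ∀ f ∈ A, ∀ h : C^∞⟮𝓘(ℝ, E), M; ℝ⟯, IsLaplacian f h → h ∈ A) (F : Finset ℝ) :
    ∀ (f : ℝ → C^∞⟮𝓘(ℝ, E), M; ℝ⟯), (∀ c, f c ∈ eig E M c) → ∑ c ∈ F, f c ∈ A → ∀ c ∈ F, f c ∈ A := by
  classical
  induction F using Finset.induction_on with
  | empty => intro f _ _ c hc; simp at hc
  | insert a s ha ih =>
    intro f hf hsum
    have h1 : ∑ c ∈ insert a s, c • f c ∈ A := hΔ _ hsum _ (isLaplacian_sum _ f hf)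
    have h2 : ∑ c ∈ s, (c - a) • f c ∈ A := by
      have h3 := A.sub_mem h1 (A.smul_mem a hsum)
      rw [Finset.sum_insert ha, Finset.sum_insert ha, smul_add, Finset.smul_sum] at h3
      have h4 : a • f a + ∑ c ∈ s, c • f c - (a • f a + ∑ c ∈ s, a • f c) =
          ∑ c ∈ s, (c - a) • f c := by
        rw [add_sub_add_left_eq_sub, ← Finset.sum_sub_distrib]
        apply Finset.sum_congr rfl
        intro c _
        rw [sub_smul]
      rwa [h4] at h3
    have h5 := ih (fun c => (c - a) • f c) (fun c => (eig E M c).smul_mem _ (hf c)) h2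
    have h6 : ∀ c ∈ s, f c ∈ A := by
      intro c hc
      have hca : c - a ≠ 0 := by
        rw [sub_ne_zero]; rintro rfl; exact ha hc
      have := A.smul_mem (c - a)⁻¹ (h5 c hc)
      rwa [smul_smul, inv_mul_cancel₀ hca, one_smul] at this
    intro c hc
    rw [Finset.mem_insert] at hc
    rcases hc with rfl | hc
    · rw [Finset.sum_insert ha] at hsum
      have := A.sub_mem hsum (A.sum_mem h6)
      rwa [add_sub_cancel_right] at this
    · exact h6 c hc

end lin

end Pool.Agent.Helper33.Lap
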