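import Mathlib
import Pool.Agent.Helper33.Lap.Final

/-! # The isometry group and the smooth functions -/

open scoped Manifold ContDiff ENNReal Topology
open MeasureTheory Bundle Module

set_option linter.unusedSectionVars false

namespace Pool.Agent.Helper33.Lap

variable {E : Type} [NormedAddCommGroup E] [NormedSpace ℝ E] [FiniteDimensional ℝ E]
  {M : Type} [MetricSpace M] [ChartedSpace E M] [IsManifold 𝓘(ℝ, E) ∞ M]
  [RiemannianBundle (fun x : M => TangentSpace 𝓘(ℝ, E) x)]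
  [IsContMDiffRiemannianBundle 𝓘(ℝ, E) ∞ E (fun x : M => TangentSpace 𝓘(ℝ, E) x)]
  [IsRiemannianManifold 𝓘(ℝ, E) M] [CompactSpace M]

/-- smooth functions as continuous functions -/
noncomputable def toC : C^∞⟮𝓘(ℝ, E), M; ℝ⟯ →ₐ[ℝ] C(M, ℝ) where
  toFun f := ⟨f, f.contMDiff.continuous⟩
  map_one' := rfl
  map_mul' _ _ := rfl
  map_zero' := rfl
  map_add' _ _ := rfl
  commutes' _ := rfl

theorem toC_apply (f : C^∞⟮𝓘(ℝ, E), M; ℝ⟯) (x : M) : toC f x = f x := rfl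

theorem toC_injective : Function.Injective (toC : C^∞⟮𝓘(ℝ, E), M; ℝ⟯ →ₐ[ℝ] C(M, ℝ)) := by
  intro f g h
  ext x
  exact congrArg (fun u : C(M, ℝ) => u x) h

variable (E M) in
/-- the space of smooth functions inside the continuous functions -/
noncomputable def Sm : Submodule ℝ C(M, ℝ) := LinearMap.range (toC (E := E) (M := M)).toLinearMap

theorem toC_mem (f : C^∞⟮𝓘(ℝ, E), M; ℝ⟯) : toC f ∈ Sm E M := ⟨f, rfl⟩

variable (E) in
open Classical in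
/-- the gradient pairing -/
noncomputable def Bf (u v : C(M, ℝ)) : C(M, ℝ) :=
  if h : u ∈ Sm E M ∧ v ∈ Sm E M then
    ⟨fun x => inner ℝ (grad (E := E) u x) (grad (E := E) v x), by
      obtain ⟨⟨f, rfl⟩, ⟨g, rfl⟩⟩ := h
      exact continuous_inner_grad f g⟩
  else 0

theorem Bf_apply (f g : C^∞⟮𝓘(ℝ, E), M; ℝ⟯) (x : M) :
    Bf E (toC f) (toC g) x = inner ℝ (grad (E := E) f x) (grad (E := E) g x) := by
  unfold Bf
  rw [dif_pos ⟨toC_mem f, toC_mem g⟩]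
  rfl

theorem mtrans_mul_act {G : Type} [Group G] [TopologicalSpace G] [MulAction G M]
    [ContinuousSMul G M] (g h : G) (u : C(M, ℝ)) : mtrans (g * h) u = mtrans g (mtrans h u) := by
  ext x
  simp [mtrans, mul_smul]

theorem mtrans_one_act {G : Type} [Group G] [TopologicalSpace G] [MulAction G M]
    [ContinuousSMul G M] (u : C(M, ℝ)) : mtrans (1 : G) u = u := by
  ext x
  simp [mtrans]

variable (E M) in
/-- isometries preserving smooth functions and the gradient pairing -/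
noncomputable def Gam : Subgroup (M ≃ᵢ M) where
  carrier := {g | (∀ u ∈ Sm E M, mtrans g u ∈ Sm E M) ∧ (∀ u ∈ Sm E M, mtrans g⁻¹ u ∈ Sm E M) ∧
    ∀ u ∈ Sm E M, ∀ v ∈ Sm E M, ∀ x, Bf E (mtrans g u) (mtrans g v) x = Bf E u v (g⁻¹ • x)}
  one_mem' := by
    refine ⟨fun u hu => by rwa [mtrans_one_act], fun u hu => ?_, fun u hu v hv x => ?_⟩
    · rw [inv_one, mtrans_one_act]; exact hu
    · rw [mtrans_one_act, mtrans_one_act, inv_one, one_smul]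
  mul_mem' := by
    rintro g h ⟨g1, g2, g3⟩ ⟨h1, h2, h3⟩
    refine ⟨fun u hu => ?_, fun u hu => ?_, fun u hu v hv x => ?_⟩
    · rw [mtrans_mul_act]; exact g1 _ (h1 _ hu)
    · rw [mul_inv_rev, mtrans_mul_act]; exact h2 _ (g2 _ hu)
    · rw [mtrans_mul_act, mtrans_mul_act, g3 _ (h1 _ hu) _ (h1 _ hv), h3 _ hu _ hv, mul_inv_rev,
        mul_smul]
  inv_mem' := by
    rintro g ⟨g1, g2, g3⟩
    refine ⟨g2, fun u hu => ?_, fun u hu v hv x => ?_⟩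
    · rw [inv_inv]; exact g1 _ hu
    · have := g3 _ (g2 _ hu) _ (g2 _ hv) (g • x)
      rw [← mtrans_mul_act, ← mtrans_mul_act, mul_inv_cancel, mtrans_one_act, mtrans_one_act,
        inv_smul_smul] at this
      rw [inv_inv, this]

/-- an isometric diffeomorphism as an isometry equivalence -/
noncomputable def toIso (φ : M ≃ₘ^∞⟮𝓘(ℝ, E), 𝓘(ℝ, E)⟯ M)
    (hφ : ∀ (p : M) (v : TangentSpace 𝓘(ℝ, E) p), ‖mfderiv 𝓘(ℝ, E) 𝓘(ℝ, E) φ p v‖ = ‖v‖) :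
    M ≃ᵢ M := ⟨φ.toEquiv, isometry_of_norm_mfderiv φ hφ⟩

theorem toIso_mem (φ : M ≃ₘ^∞⟮𝓘(ℝ, E), 𝓘(ℝ, E)⟯ M)
    (hφ : ∀ (p : M) (v : TangentSpace 𝓘(ℝ, E) p), ‖mfderiv 𝓘(ℝ, E) 𝓘(ℝ, E) φ p v‖ = ‖v‖) :
    toIso φ hφ ∈ Gam E M := by
  have e1 : ∀ f : C^∞⟮𝓘(ℝ, E), M; ℝ⟯, mtrans (toIso φ hφ) (toC f) =
      toC (f.comp φ.symm.toContMDiffMap) := fun f => rfl
  have e2 : ∀ f : C^∞⟮𝓘(ℝ, E), M; ℝ⟯, mtrans (toIso φ hφ)⁻¹ (toC f) =
      toC (f.comp φ.toContMDiffMap) := fun f => rfl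
  refine ⟨?_, ?_, ?_⟩
  · rintro _ ⟨f, rfl⟩
    exact (e1 f) ▸ toC_mem _
  · rintro _ ⟨f, rfl⟩
    exact (e2 f) ▸ toC_mem _
  · rintro _ ⟨f, rfl⟩ _ ⟨h, rfl⟩ x
    change Bf E (mtrans (toIso φ hφ) (toC f)) (mtrans (toIso φ hφ) (toC h)) x =
      Bf E (toC f) (toC h) _
    rw [e1, e1, Bf_apply, Bf_apply]
    exact inner_grad_comp φ.symm (norm_mfderiv_symm φ hφ) f h x

end Pool.Agent.Helper33.Lap
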