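import Mathlib
import Pool.Agent.Helper33.Lap.Group

/-! # Laplacian subalgebras are finitely generated -/

open scoped Manifold ContDiff ENNReal Topology
open MeasureTheory Bundle Module

set_option linter.unusedSectionVars false

namespace Pool.Agent.Helper33.Lap

variable {E : Type} [NormedAddCommGroup E] [NormedSpace ℝ E] [FiniteDimensional ℝ E]
  {M : Type} [MetricSpace M] [ChartedSpace E M] [IsManifold 𝓘(ℝ, E) ∞ M]
  [RiemannianBundle (fun x : M => TangentSpace 𝓘(ℝ, E) x)]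
  [IsContMDiffRiemannianBundle 𝓘(ℝ, E) ∞ E (fun x : M => TangentSpace 𝓘(ℝ, E) x)]
  [IsRiemannianManifold 𝓘(ℝ, E) M] [CompactSpace M]

variable (E M) in
/-- the compact group acting -/
abbrev GG : Type := ((Gam E M).topologicalClosure : Subgroup (M ≃ᵢ M))

instance : CompactSpace (GG E M) :=
  isCompact_iff_compactSpace.mp (Subgroup.isClosed_topologicalClosure _).isCompact

instance : SecondCountableTopology (GG E M) :=
  TopologicalSpace.Subtype.secondCountableTopology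
    ((Gam E M).topologicalClosure : Set (M ≃ᵢ M))

instance : MeasurableSpace (GG E M) := borel _
instance : BorelSpace (GG E M) := ⟨rfl⟩

theorem GG_smul (g : GG E M) (x : M) : g • x = (g : M ≃ᵢ M) x := rfl

instance : IsIsometricSMul (GG E M) M := ⟨fun g => (g : M ≃ᵢ M).isometry⟩

instance : ContinuousSMul (GG E M) M := ⟨by
  have h : Continuous fun p : (M ≃ᵢ M) × M => p.1 • p.2 := continuous_smul
  exact h.comp ((continuous_subtype_val.comp continuous_fst).prodMk continuous_snd)⟩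

variable (E M) in
/-- the dense subgroup -/
noncomputable def Gam' : Subgroup (GG E M) := (Gam E M).subgroupOf (Gam E M).topologicalClosure

theorem Gam'_dense : Dense (Gam' E M : Set (GG E M)) := by
  intro x
  rw [Topology.IsInducing.subtypeVal.closure_eq_preimage_closure_image]
  change (x : M ≃ᵢ M) ∈ closure _
  have h1 : ((Subtype.val : GG E M → M ≃ᵢ M) '' (Gam' E M : Set (GG E M))) = (Gam E M : Set (M ≃ᵢ M)) := by
    ext g
    constructor
    · rintro ⟨g, hg, rfl⟩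
      exact hg
    · intro hg
      exact ⟨⟨g, Subgroup.le_topologicalClosure _ hg⟩, hg, rfl⟩
  have h2 : (x : M ≃ᵢ M) ∈ closure (Gam E M : Set (M ≃ᵢ M)) := x.2
  rw [← h1] at h2
  exact h2

theorem mtrans_GG (g : GG E M) (u : C(M, ℝ)) : mtrans g u = mtrans (g : M ≃ᵢ M) u := rfl

theorem GG_trans (hM : IsHomogeneous E M) (x y : M) : ∃ g : GG E M, g • x = y := by
  obtain ⟨φ, hφ, hxy⟩ := hM x y
  exact ⟨⟨toIso φ hφ, Subgroup.le_topologicalClosure _ (toIso_mem φ hφ)⟩, hxy⟩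

variable [MeasurableSpace M] [BorelSpace M]

theorem GG_mp (g : GG E M) : MeasurePreserving (fun x : M => g • x) (vol E M) (vol E M) :=
  IsometryEquiv.measurePreserving_hausdorffMeasure (g : M ≃ᵢ M) _

/-- eigenspaces in `C(M, ℝ)` -/
noncomputable def VV (c : ℝ) : Submodule ℝ C(M, ℝ) := (eig E M c).map (toC (E := E) (M := M)).toLinearMap

theorem VV_iff (c : ℝ) (u : C(M, ℝ)) : u ∈ VV (E := E) c ↔ u ∈ Sm E M ∧
    ∀ v ∈ Sm E M, ∫ x, Bf E u v x ∂(vol E M) = c * ∫ x, u x * v x ∂(vol E M) := by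
  have key : ∀ f : C^∞⟮𝓘(ℝ, E), M; ℝ⟯, f ∈ eig E M c ↔ ∀ v ∈ Sm E M,
      ∫ x, Bf E (toC f) v x ∂(vol E M) = c * ∫ x, toC f x * v x ∂(vol E M) := by
    intro f
    change IsLaplacian f (c • f) ↔ _
    have e1 : ∀ φ : C^∞⟮𝓘(ℝ, E), M; ℝ⟯, ∫ x, (c • f) x * φ x ∂(vol E M) =
        c * ∫ x, toC f x * toC φ x ∂(vol E M) := by
      intro φ
      rw [← integral_const_mul]
      congr 1; ext x
      change (c * f x) * φ x = c * (f x * φ x)
      ring
    constructor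
    · rintro h _ ⟨φ, rfl⟩
      change ∫ x, Bf E (toC f) (toC φ) x ∂(vol E M) = _
      simp only [Bf_apply]
      rw [h φ, e1]; rfl
    · intro h φ
      have := h _ (toC_mem φ)
      simp only [Bf_apply] at this
      rw [this, e1]
  constructor
  · rintro ⟨f, hf, rfl⟩
    exact ⟨⟨f, rfl⟩, (key f).mp hf⟩
  · rintro ⟨⟨f, rfl⟩, h⟩
    exact ⟨f, (key f).mpr h, rfl⟩

theorem VV_orth (c c' : ℝ) (hc : c ≠ c') (u : C(M, ℝ)) (hu : u ∈ VV (E := E) c) (v : C(M, ℝ))
    (hv : v ∈ VV (E := E) c') : ip (vol E M) u v = 0 := by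
  obtain ⟨hu1, hu2⟩ := (VV_iff c u).mp hu
  obtain ⟨hv1, hv2⟩ := (VV_iff c' v).mp hv
  have h1 := hu2 v hv1
  have h2 := hv2 u hu1
  have h3 : ∫ x, Bf E u v x ∂(vol E M) = ∫ x, Bf E v u x ∂(vol E M) := by
    obtain ⟨f, rfl⟩ := hu1
    obtain ⟨h, rfl⟩ := hv1
    change ∫ x, Bf E (toC f) (toC h) x ∂(vol E M) = ∫ x, Bf E (toC h) (toC f) x ∂(vol E M)
    simp only [Bf_apply]
    congr 1; ext x
    exact real_inner_comm _ _
  have h4 : ∫ x, v x * u x ∂(vol E M) = ∫ x, u x * v x ∂(vol E M) := by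
    congr 1; ext x; ring
  rw [h3, h2, h4] at h1
  have h5 : (c' - c) * ∫ x, u x * v x ∂(vol E M) = 0 := by linarith
  rcases mul_eq_zero.mp h5 with h6 | h6
  · exact absurd (sub_eq_zero.mp h6).symm hc
  · exact h6

/-- the elements of a Laplacian subalgebra are sums of eigenfunctions in the subalgebra -/
theorem mem_span_eig (A : Submodule ℝ C^∞⟮𝓘(ℝ, E), M; ℝ⟯)
    (hA : ∀ f ∈ A, f ∈ algebraicFunctions E M)
    (hΔ : ∀ f ∈ A, ∀ h : C^∞⟮𝓘(ℝ, E), M; ℝ⟯, IsLaplacian f h → h ∈ A)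
    (f : C^∞⟮𝓘(ℝ, E), M; ℝ⟯) (hf : f ∈ A) :
    f ∈ Submodule.span ℝ {u : C^∞⟮𝓘(ℝ, E), M; ℝ⟯ | u ∈ A ∧ ∃ c, u ∈ eig E M c} := by
  classical
  have h1 : f ∈ ⨆ c : ℝ, eig E M c := by
    have h2 : algebraicFunctions E M ≤ ⨆ c : ℝ, eig E M c := by
      unfold algebraicFunctions
      rw [Submodule.span_le]
      rintro u ⟨c, hc⟩
      exact Submodule.mem_iSup_of_mem c hc
    exact h2 (hA f hf)
  obtain ⟨g, hg, hsum⟩ := (Submodule.mem_iSup_iff_exists_finsupp _ _).mp h1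
  have h3 : ∑ c ∈ g.support, g c ∈ A := by
    rw [Finsupp.sum] at hsum
    rw [hsum]; exact hf
  have h4 := component_mem A hΔ g.support g hg h3
  rw [← hsum, Finsupp.sum]
  exact Submodule.sum_mem _ fun c hc => Submodule.subset_span ⟨h4 c hc, c, hg c⟩

theorem main [ConnectedSpace M] (hM : IsHomogeneous E M)
    (A : Subalgebra ℝ C^∞⟮𝓘(ℝ, E), M; ℝ⟯)
    (hA : ∀ f ∈ A, f ∈ algebraicFunctions E M)
    (hΔ : ∀ f ∈ A, ∀ h : C^∞⟮𝓘(ℝ, E), M; ℝ⟯, IsLaplacian f h → h ∈ A) : A.FG := by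
  have : IsFiniteMeasure (vol E M) := vol_finite
  have : (vol E M).IsOpenPosMeasure := vol_openPos
  have hbor : ‹MeasurableSpace M› = borel M := BorelSpace.measurable_eq
  have hUG : ∀ x y : M, ∃ ν : Measure M, ν Set.univ ≤ ENNReal.ofReal (2 * dist x y) ∧
      ∀ u ∈ Sm E M, |u x - u y| ≤ ∫ p, Real.sqrt (Bf E u u p) ∂ν := by
    intro x y
    subst hbor
    obtain ⟨ν, hν, h⟩ := exists_curve_measure (E := E) x y
    refine ⟨ν, hν, ?_⟩
    rintro _ ⟨f, rfl⟩
    refine (h f).trans (le_of_eq ?_)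
    congr 1; ext p
    change _ = Real.sqrt (Bf E (toC f) (toC f) p)
    rw [Bf_apply, real_inner_self_eq_norm_sq, Real.sqrt_sq (norm_nonneg _)]
  have htrans := GG_trans hM
  have hV : ∀ c, FiniteDimensional ℝ (VV (E := E) (M := M) c) ∧
      ∀ g : GG E M, ∀ v ∈ VV (E := E) (M := M) c, mtrans g v ∈ VV (E := E) (M := M) c := by
    intro c
    refine eigen_gfinite (vol E M) GG_mp htrans (Gam' E M) Gam'_dense (Sm E M) ?_ (Bf E) ?_ ?_ hUG
      c _ (VV_iff c)
    · intro g hg u hu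
      exact hg.1 u hu
    · rintro _ ⟨f, rfl⟩ x
      change 0 ≤ Bf E (toC f) (toC f) x
      rw [Bf_apply]
      exact real_inner_self_nonneg
    · intro g hg u hu v hv x
      exact hg.2.2 u hu v hv x
  obtain ⟨x0⟩ := (inferInstance : Nonempty M)
  obtain ⟨ψ, K, hK, hx0, hψ⟩ := exists_bilipschitz_chart E x0
  obtain ⟨R, hR, hRfin⟩ := exists_fg_gfinite (G := GG E M) (dense_leftFinite) htrans ψ K hK
    ⟨x0, hx0⟩ hψ
  have hfg : (A.map (toC (E := E) (M := M))).FG := by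
    refine abstract_main (μ := vol E M) GG_mp htrans R hR hRfin (fun c => VV (E := E) c)
      (fun c => (hV c).1) (fun c => (hV c).2) VV_orth _ ?_
    rintro _ ⟨f, hf, rfl⟩
    have h1 := mem_span_eig A.toSubmodule hA hΔ f hf
    have h2 := Submodule.mem_map_of_mem (f := (toC (E := E) (M := M)).toLinearMap) h1
    rw [Submodule.map_span] at h2
    refine Submodule.span_mono ?_ h2
    rintro _ ⟨u, ⟨hu, c, hc⟩, rfl⟩
    exact ⟨⟨u, hu, rfl⟩, c, ⟨u, hc, rfl⟩⟩
  exact Subalgebra.fg_of_fg_map _ _ toC_injective hfg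

end Pool.Agent.Helper33.Lap
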